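import Pool.Agent.Helper85.LG.Abs

set_option autoImplicit false
set_option maxHeartbeats 1000000

open Complex Filter Topology Set
open Pool.Agent.H306R2 (Zt)

namespace Pool.Agent.Helper85.LG

/-- regularity of `(s - 1) ζ(s)` in the half-plane `Re s ≥ 1/2 + y0`, away from the origin -/
def Reg (y0 : ℝ) : Prop := ∀ ε > 0, ∃ X > 0, ∀ x y : ℝ, 0 ≤ x → y0 ≤ y → (X ≤ x ∨ X ≤ y) →
  RegAt ε y (1 / 2 + y + x * I)

lemma Lg_nonneg {s : ℂ} (hs : 0 ≤ s.re) : 0 ≤ Lg s :=
  Real.log_nonneg (by linarith [three_add_re hs])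

lemma RegAt.mono {ε ε' y : ℝ} {s : ℂ} (h : RegAt ε y s) (he : ε ≤ ε') (hy : 0 ≤ y) (hs : 0 ≤ s.re) :
    RegAt ε' y s := by
  have hL := Lg_nonneg hs
  have h1 : ε * Lg s ≤ ε' * Lg s := mul_le_mul_of_nonneg_right he hL
  refine ⟨h.ne, h.der.trans h1, fun τ hτ => (h.lip τ hτ).trans ?_, fun t ht => (h.tail t ht).trans ?_⟩
  · exact mul_le_mul_of_nonneg_right h1 (abs_nonneg _)
  · apply mul_le_mul_of_nonneg_right _ (by positivity)
    apply Real.rpow_le_rpow_of_exponent_le (by nlinarith [sq_nonneg t])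
    exact mul_le_mul_of_nonneg_right he (by positivity)

lemma Lg_lower {x y M : ℝ} (hM : 0 < M) (hx : 0 ≤ x) (hy : 0 ≤ y) (h : 2 * M ≤ x ∨ 2 * M ≤ y) :
    Real.log M ≤ Lg (1 / 2 + y + x * I) := by
  apply Real.log_le_log hM
  rcases h with h | h
  · have h1 := Complex.abs_im_le_norm (3 + (1 / 2 + y + x * I) / 2 : ℂ)
    simp at h1
    have h2 := le_abs_self (x / 2)
    rw [one_div]
    linarith
  · have h1 := Complex.re_le_norm (3 + (1 / 2 + y + x * I) / 2 : ℂ)
    simp at h1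
    rw [one_div]
    linarith

lemma Lg_upper {x y : ℝ} (hx : 0 ≤ x) (hy : 0 ≤ y) :
    Lg (1 / 2 + y + x * I) ≤ Real.log (13 / 4 + y / 2 + x / 2) := by
  have h3 := three_add_re (s := 1 / 2 + y + x * I) (by simp; linarith)
  apply Real.log_le_log (by linarith)
  have h1 := Complex.norm_le_abs_re_add_abs_im (3 + (1 / 2 + y + x * I) / 2 : ℂ)
  simp at h1
  rw [abs_of_nonneg (by linarith), abs_of_nonneg (by linarith : 0 ≤ x / 2)] at h1
  rw [one_div]
  linarith

lemma tail_pow {A t : ℝ} (hA : 1 ≤ A) (ht : 1 / 2 ≤ |t|) : A * (1 + |t|) ^ 2 ≤ (1 + t ^ 2) ^ (4 + 4 * A) := by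
  have ht2 : 1 / 4 ≤ t ^ 2 := by
    rw [← sq_abs]; nlinarith
  rw [Real.rpow_add (by positivity)]
  have h1 : A ≤ (1 + t ^ 2) ^ (4 * A) := by
    have := one_add_mul_self_le_rpow_one_add (s := t ^ 2) (by linarith) (p := 4 * A) (by linarith)
    nlinarith
  have h2 : (1 + |t|) ^ 2 ≤ (1 + t ^ 2) ^ (4 : ℝ) := by
    have : (1 + t ^ 2) ^ (4 : ℝ) = (1 + t ^ 2) ^ 4 := by
      rw [← Real.rpow_natCast]; norm_num
    rw [this, ← sq_abs t]
    set u := |t| with hu
    have h3 : 1 + u ≤ (1 + u ^ 2) ^ 2 := by nlinarith [sq_nonneg (u - 1 / 2), sq_nonneg (u ^ 2 - 1 / 4)]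
    calc (1 + u) ^ 2 ≤ ((1 + u ^ 2) ^ 2) ^ 2 := pow_le_pow_left₀ (by positivity) h3 2
      _ = _ := by ring
  calc A * (1 + |t|) ^ 2 = (1 + |t|) ^ 2 * A := by ring
    _ ≤ (1 + t ^ 2) ^ (4 : ℝ) * (1 + t ^ 2) ^ (4 * A) := mul_le_mul h2 h1 (by linarith) (by positivity)

/-- the region of absolute convergence -/
theorem reg_abs {y0 : ℝ} (hy0 : 1 / 2 < y0) : Reg y0 := by
  intro ε hε
  obtain ⟨A, hA1, hA⟩ := ld_bounds hy0
  obtain ⟨A', hA1', hA'⟩ := tail_abs hy0
  set W : ℝ := A / ε + (4 + 4 * A') / (ε * y0) with hW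
  have hW0 : 0 < W := by positivity
  refine ⟨2 * Real.exp W, by positivity, fun x y hx hy hxy => ?_⟩
  have hy' : 0 < y := by linarith
  have hL : W ≤ Lg (1 / 2 + y + x * I) := by
    have := Lg_lower (M := Real.exp W) (Real.exp_pos _) hx hy'.le hxy
    rwa [Real.log_exp] at this
  have hAL : A ≤ ε * Lg (1 / 2 + y + x * I) := by
    have : A / ε ≤ Lg (1 / 2 + y + x * I) := le_trans (by
      rw [hW]; linarith [show 0 ≤ (4 + 4 * A') / (ε * y0) by positivity]) hL
    rw [div_le_iff₀ hε] at this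
    linarith
  obtain ⟨h1, h2⟩ := hA x y hy
  refine ⟨fun τ _ => ?_, h1.trans hAL, fun τ _ => (h2 τ).trans ?_, fun t ht => ?_⟩
  · have hre : (1 / 2 + y + x * I + τ * I : ℂ).re = 1 / 2 + y := by simp
    have hne : (1 / 2 + y + x * I + τ * I : ℂ) ≠ 1 := by
      intro h
      rw [h, one_re] at hre
      linarith
    rw [← Pool.Agent.H306R2.zeta_eq_pos (by rw [hre]; linarith) hne]
    exact mul_ne_zero (sub_ne_zero.2 hne) (riemannZeta_ne_zero_of_one_lt_re (by rw [hre]; linarith))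
  · exact mul_le_mul_of_nonneg_right hAL (abs_nonneg _)
  · refine (hA' x y t hy).trans ?_
    apply mul_le_mul_of_nonneg_right _ (by positivity)
    refine (tail_pow hA1' ht).trans ?_
    apply Real.rpow_le_rpow_of_exponent_le (by nlinarith [sq_nonneg t])
    have h3 : (4 + 4 * A') / (ε * y0) ≤ Lg (1 / 2 + y + x * I) := le_trans (by
      rw [hW]; linarith [show 0 ≤ A / ε by positivity]) hL
    rw [div_le_iff₀ (by positivity)] at h3
    have h4 : 0 ≤ Lg (1 / 2 + y + x * I) := by linarith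
    have h5 : ε * y0 ≤ ε * y := mul_le_mul_of_nonneg_left hy hε.le
    nlinarith

/-- size of the saddle function -/
lemma kap_est : ∃ C : ℝ, 1 ≤ C ∧ ∀ (ε x y : ℝ), 0 < y → RegAt ε y (1 / 2 + y + x * I) →
    |kap x y - y * Lg (1 / 2 + y + x * I)| ≤ y * (2 * ε * Lg (1 / 2 + y + x * I) + C) := by
  obtain ⟨C, hC1, hC⟩ := psi_re
  refine ⟨C + 2, by linarith, fun ε x y hy hreg => ?_⟩
  set s : ℂ := 1 / 2 + y + x * I with hs
  set L := Lg s with hLdef
  have hsre : s.re = 1 / 2 + y := by rw [hs]; simp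
  have hne0 : Zt s ≠ 0 := by
    have := hreg.ne 0 (by rw [abs_zero]; positivity)
    simpa using this
  have hxild := xi_logDeriv (s := s) (by rw [hsre]; linarith) hne0
  have hpsi := hC (1 + s / 2) (by simp [hsre]; linarith)
  have e1 : (1 + s / 2 + 2 : ℂ) = 3 + s / 2 := by ring
  rw [e1] at hpsi
  change |(logDeriv Gamma (1 + s / 2)).re - L| ≤ C at hpsi
  rw [abs_le] at hpsi
  have hder := (Complex.abs_re_le_norm (logDeriv Zt s)).trans hreg.der
  rw [abs_le] at hder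
  have hlogpi : Real.log Real.pi ≤ 2 := by
    rw [Real.log_le_iff_le_exp Real.pi_pos]
    have h2 : Real.exp 2 = Real.exp 1 * Real.exp 1 := by rw [← Real.exp_add]; norm_num
    have := Real.exp_one_gt_d9
    have := Real.pi_lt_d2
    nlinarith
  have hlogpi0 : 0 ≤ Real.log Real.pi := Real.log_nonneg (by linarith [Real.pi_gt_three])
  have hkre : 2 * (logDeriv xi s).re = 2 * (logDeriv Zt s).re - Real.log Real.pi +
      (logDeriv Gamma (1 + s / 2)).re := by
    rw [hxild]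
    simp
    ring
  have e : kap x y - y * L = y * (2 * (logDeriv Zt s).re - Real.log Real.pi +
      ((logDeriv Gamma (1 + s / 2)).re - L)) := by
    unfold kap
    rw [← hs, hkre]; ring
  rw [e, abs_mul, abs_of_pos hy]
  apply mul_le_mul_of_nonneg_left _ hy.le
  rw [abs_le]
  constructor <;> linarith [hder.1, hder.2, hpsi.1, hpsi.2]

lemma kap_cont {x y1 y2 : ℝ} (h1 : 0 < y1) (h : ∀ y, y1 ≤ y → Zt (1 / 2 + y + x * I) ≠ 0) :
    ContinuousOn (kap x) (Icc y1 y2) := by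
  have hd : Continuous (deriv xi) := (xi_diff.contDiff (n := 1)).continuous_deriv le_rfl
  have hc : ContinuousOn (fun y : ℝ => deriv xi (1 / 2 + y + x * I) / xi (1 / 2 + y + x * I)) (Icc y1 y2) := by
    refine ContinuousOn.div (hd.comp (by fun_prop)).continuousOn
      (xi_diff.continuous.comp (by fun_prop)).continuousOn (fun y hy => ?_)
    have hy0 : 0 < y := lt_of_lt_of_le h1 hy.1
    rw [xi_eq (by simp; linarith)]
    exact mul_ne_zero (h y hy.1) (Pg_ne (by simp; linarith))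
  have e : kap x = fun y : ℝ => y * (2 * (deriv xi (1 / 2 + y + x * I) / xi (1 / 2 + y + x * I)).re) := by
    funext y
    rw [kap, logDeriv_apply]
  rw [e]
  exact continuousOn_id.mul (continuousOn_const.mul (Complex.continuous_re.comp_continuousOn hc))

/-- positivity as soon as the saddle point lies in the regular region -/
theorem pos_of_kap : ∃ L1 : ℝ, 1 ≤ L1 ∧ ∀ (x y1 : ℝ) (m : ℕ), 0 < y1 → (10 : ℝ) ^ 9 ≤ 2 * m + 1 →
    (∀ y, y1 ≤ y → RegAt (1 / 8192) y (1 / 2 + y + x * I) ∧ L1 ≤ Lg (1 / 2 + y + x * I)) →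
    kap x y1 ≤ 2 * m + 1 → 0 < (tc (G x) (2 * m)).re := by
  obtain ⟨L0, hL01, hL0⟩ := local_pos
  obtain ⟨C, hC1, hC⟩ := kap_est
  refine ⟨L0 + 2 * (C + 1), by linarith, fun x y1 m hy1 hm h hk => ?_⟩
  set Y : ℝ := max y1 (2 * m + 1) with hY
  have hYy : y1 ≤ Y := le_max_left _ _
  have hYm : 2 * (m : ℝ) + 1 ≤ Y := le_max_right _ _
  have hY0 : 0 < Y := lt_of_lt_of_le hy1 hYy
  have hend : 2 * (m : ℝ) + 1 ≤ kap x Y := by
    obtain ⟨h1, h2⟩ := h Y hYy
    have h3 := (abs_le.1 (hC _ x Y hY0 h1)).1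
    have h4 : Y * (2 * (1 / 8192) * Lg (1 / 2 + Y + x * I) + C) ≤ Y * (Lg (1 / 2 + Y + x * I) - 1) := by
      apply mul_le_mul_of_nonneg_left _ hY0.le
      linarith
    nlinarith
  have hcont := kap_cont (x := x) (y1 := y1) (y2 := Y) hy1 (fun y hy => by
    have := (h y hy).1.ne 0 (by rw [abs_zero]; linarith)
    simpa using this)
  obtain ⟨y, hy, hyk⟩ := intermediate_value_Icc hYy hcont ⟨hk, hend⟩
  obtain ⟨h1, h2⟩ := h y hy.1
  exact hL0 x y m (lt_of_lt_of_le hy1 hy.1) hm (by linarith) h1 hyk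

theorem pos_log {y0 c : ℝ} (hy0 : 0 < y0) (hreg : Reg y0) (hc : y0 / 2 < c) :
    ∃ X : ℝ, ∀ x : ℝ, X ≤ x → ∀ m : ℕ, c * Real.log x ≤ m → 0 < (tc (G x) (2 * m)).re := by
  obtain ⟨L1, hL11, hL1⟩ := pos_of_kap
  obtain ⟨C, hC1, hC⟩ := kap_est
  set d : ℝ := 2 * c - y0 with hd
  have hd0 : 0 < d := by rw [hd]; linarith
  set ε : ℝ := min (1 / 8192) (d / (4 * y0)) with hε
  have hε0 : 0 < ε := by rw [hε]; positivity
  have hε1 : ε ≤ 1 / 8192 := min_le_left _ _
  have hε2 : ε ≤ d / (4 * y0) := min_le_right _ _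
  obtain ⟨X0, hX0, hX0'⟩ := hreg ε hε0
  refine ⟨max (max X0 (2 * Real.exp L1)) (max (8 + y0) (max (Real.exp (2 * y0 * C / d)) (Real.exp (10 ^ 9 / (2 * c))))),
    fun x hx m hm => ?_⟩
  have hx1 : X0 ≤ x := ((le_max_left _ _).trans (le_max_left _ _)).trans hx
  have hx2 : 2 * Real.exp L1 ≤ x := ((le_max_right _ _).trans (le_max_left _ _)).trans hx
  have hx3 : 8 + y0 ≤ x := ((le_max_left _ _).trans (le_max_right _ _)).trans hx
  have hx4 : Real.exp (2 * y0 * C / d) ≤ x :=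
    (((le_max_left _ _).trans (le_max_right _ _)).trans (le_max_right _ _)).trans hx
  have hx5 : Real.exp (10 ^ 9 / (2 * c)) ≤ x :=
    (((le_max_right _ _).trans (le_max_right _ _)).trans (le_max_right _ _)).trans hx
  have hxpos : 0 < x := by linarith
  have hc0 : 0 < c := by linarith
  have hlog4 : 2 * y0 * C / d ≤ Real.log x := (Real.le_log_iff_exp_le hxpos).2 hx4
  have hlog5 : 10 ^ 9 / (2 * c) ≤ Real.log x := (Real.le_log_iff_exp_le hxpos).2 hx5
  rw [div_le_iff₀ hd0] at hlog4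
  rw [div_le_iff₀ (by positivity)] at hlog5
  refine hL1 x y0 m hy0 (by linarith) (fun y hy => ⟨?_, ?_⟩) ?_
  · exact (hX0' x y hxpos.le hy (Or.inl hx1)).mono hε1 (by linarith) (by simp; linarith)
  · have := Lg_lower (M := Real.exp L1) (Real.exp_pos _) hxpos.le (y := y) (by linarith) (Or.inl hx2)
    rwa [Real.log_exp] at this
  · have h1 := (abs_le.1 (hC ε x y0 hy0 (hX0' x y0 hxpos.le le_rfl (Or.inl hx1)))).2
    have h2 : Lg (1 / 2 + y0 + x * I) ≤ Real.log x := (Lg_upper hxpos.le hy0.le).trans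
      (Real.log_le_log (by positivity) (by linarith))
    have h0 : 0 ≤ Lg (1 / 2 + y0 + x * I) := Lg_nonneg (by simp; linarith)
    have h3 : ε * (4 * y0) ≤ d := by rwa [le_div_iff₀ (by positivity)] at hε2
    have hlx : 0 ≤ Real.log x := h0.trans h2
    have h4 : kap x y0 ≤ y0 * (1 + 2 * ε) * Real.log x + y0 * C := by
      have : y0 * (1 + 2 * ε) * Lg (1 / 2 + y0 + x * I) ≤ y0 * (1 + 2 * ε) * Real.log x :=
        mul_le_mul_of_nonneg_left h2 (by positivity)
      nlinarith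
    have h5 : y0 * (1 + 2 * ε) * Real.log x ≤ (2 * c - d / 2) * Real.log x := by
      apply mul_le_mul_of_nonneg_right _ hlx
      rw [hd] at h3 ⊢
      nlinarith
    nlinarith

theorem pos_all {y0 : ℝ} (hreg : Reg y0) :
    ∃ C : ℝ, ∀ (x : ℝ) (m : ℕ), C * Real.log (|x| + 2) ≤ m → 0 < (tc (G x) (2 * m)).re := by
  obtain ⟨L1, hL11, hL1⟩ := pos_of_kap
  obtain ⟨C, hC1, hC⟩ := kap_est
  obtain ⟨X0, hX0, hX0'⟩ := hreg (1 / 8192) (by norm_num)
  set y1 : ℝ := max (max X0 y0) (2 * Real.exp L1) with hy1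
  have hy1X : X0 ≤ y1 := (le_max_left _ _).trans (le_max_left _ _)
  have hy1y : y0 ≤ y1 := (le_max_right _ _).trans (le_max_left _ _)
  have hy1L : 2 * Real.exp L1 ≤ y1 := le_max_right _ _
  have hy10 : 0 < y1 := by linarith
  set l2 : ℝ := Real.log 2 with hl2
  have hl20 : 0 < l2 := Real.log_pos (by norm_num)
  have hlog1 : 0 ≤ Real.log (4 + y1) := Real.log_nonneg (by linarith)
  set D : ℝ := (2 * y1 * Real.log (4 + y1) + y1 * C + 10 ^ 9) / l2 + 2 * y1 with hD
  refine ⟨D, ?_⟩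
  have key : ∀ (x : ℝ) (m : ℕ), 0 ≤ x → D * Real.log (x + 2) ≤ m → 0 < (tc (G x) (2 * m)).re := by
    intro x m hx hm
    have hlx : l2 ≤ Real.log (x + 2) := Real.log_le_log (by norm_num) (by linarith)
    have h1 : 2 * y1 * Real.log (4 + y1) + y1 * C + 10 ^ 9 + 2 * y1 * Real.log (x + 2) ≤ m := by
      refine le_trans ?_ hm
      rw [hD, add_mul, div_mul_eq_mul_div]
      have : 2 * y1 * Real.log (4 + y1) + y1 * C + 10 ^ 9 ≤
          (2 * y1 * Real.log (4 + y1) + y1 * C + 10 ^ 9) * Real.log (x + 2) / l2 := by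
        rw [le_div_iff₀ hl20]
        exact mul_le_mul_of_nonneg_left hlx (by positivity)
      linarith
    have hlx0 : 0 ≤ Real.log (x + 2) := hl20.le.trans hlx
    have p1 : 0 ≤ 2 * y1 * Real.log (4 + y1) := by positivity
    have p2 : 0 ≤ y1 * C := by positivity
    have p3 : 0 ≤ 2 * y1 * Real.log (x + 2) := by positivity
    refine hL1 x y1 m hy10 (by linarith) (fun y hy => ⟨?_, ?_⟩) ?_
    · exact hX0' x y hx (by linarith) (Or.inr (by linarith))
    · have := Lg_lower (M := Real.exp L1) (Real.exp_pos _) hx (y := y) (by linarith) (Or.inr (by linarith))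
      rwa [Real.log_exp] at this
    · have h2 := (abs_le.1 (hC _ x y1 hy10 (hX0' x y1 hx (by linarith) (Or.inr hy1X)))).2
      have h3 : Lg (1 / 2 + y1 + x * I) ≤ Real.log (4 + y1) + Real.log (x + 2) := by
        rw [← Real.log_mul (by linarith) (by linarith)]
        refine (Lg_upper hx hy10.le).trans (Real.log_le_log (by positivity) ?_)
        nlinarith
      have h0 : 0 ≤ Lg (1 / 2 + y1 + x * I) := Lg_nonneg (by simp; linarith)
      have h4 : y1 * (2 * (1 / 8192) * Lg (1 / 2 + y1 + x * I) + C) ≤ y1 * (Lg (1 / 2 + y1 + x * I) + C) := by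
        apply mul_le_mul_of_nonneg_left _ hy10.le
        linarith
      have h5 : y1 * Lg (1 / 2 + y1 + x * I) ≤ y1 * (Real.log (4 + y1) + Real.log (x + 2)) :=
        mul_le_mul_of_nonneg_left h3 hy10.le
      have h9 : (0:ℝ) ≤ 10 ^ 9 := by positivity
      nlinarith
  intro x m hm
  rcases le_total 0 x with h | h
  · rw [abs_of_nonneg h] at hm
    exact key x m h hm
  · rw [abs_of_nonpos h] at hm
    have := key (-x) m (by linarith) hm
    have e : G (-x) = G x := by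
      funext w
      unfold G
      push_cast
      rw [mul_comm]
      congr 2 <;> ring
    rwa [e] at this

end Pool.Agent.Helper85.LG
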