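import Pool.Agent.Helper85.LG.Gr

set_option autoImplicit false
set_option maxHeartbeats 1000000

open Complex Filter Topology Set
open Pool.Agent.H306R2 (Zt)

namespace Pool.Agent.Helper85.LG

lemma log_q1 {s : ℝ} (hs : 0 < s) (hs1 : s ≤ 1 / 100) : Real.log (1 / (1 - 2 * s)) ≤ 2 * s + 5 * s ^ 2 := by
  have h1 : 0 < 1 - 2 * s := by linarith
  have h2 := Real.log_le_sub_one_of_pos (x := 1 / (1 - 2 * s)) (by positivity)
  refine h2.trans ?_
  rw [div_sub_one h1.ne', div_le_iff₀ h1]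
  nlinarith [sq_nonneg s]

lemma log_q2 {s : ℝ} (hs : 0 < s) (hs1 : s ≤ 1 / 100) :
    Real.log ((1 / 2 + 2 * s + 3 * s ^ 2) / (1 / 2 - s)) ≤ 6 * s + 11 * s ^ 2 := by
  have h1 : 0 < 1 - 2 * s := by linarith
  have e : (1 / 2 + 2 * s + 3 * s ^ 2) / (1 / 2 - s) = (1 + 4 * s + 6 * s ^ 2) * (1 / (1 - 2 * s)) := by
    have : (1 / 2 - s) ≠ 0 := by linarith
    field_simp
    ring
  rw [e, Real.log_mul (by positivity) (by positivity)]
  have h2 := Real.log_le_sub_one_of_pos (x := 1 + 4 * s + 6 * s ^ 2) (by positivity)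
  have h3 := log_q1 hs hs1
  linarith

/-- values to the right of the line `Re s = 1` -/
lemma F_bounds {s : ℝ} (hs : 0 < s) : ∃ A : ℝ, 1 ≤ A ∧ ∀ x σ : ℝ, 1 ≤ x → 1 + s ≤ σ → σ ≤ 2 →
    ‖xi (σ + x * I)‖ ^ 2 ≤ A * x ^ 2 * ‖Pg (σ + x * I)‖ ^ 2 ∧
    x ^ 2 * ‖Pg (σ + x * I)‖ ^ 2 ≤ A * ‖xi (σ + x * I)‖ ^ 2 := by
  obtain ⟨A, hA1, hA⟩ := zeta_two_sided (σ := 1 + s) (by linarith)
  refine ⟨4 * A ^ 2, by nlinarith, fun x σ hx h1 h2 => ?_⟩
  have hx0 : 0 < x := by linarith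
  have hre : (σ + x * I : ℂ).re = σ := by simp
  have him : (σ + x * I : ℂ).im = x := by simp
  obtain ⟨a1, a2⟩ := hA (σ + x * I) (by rw [hre]; exact h1)
  have hne : (σ + x * I : ℂ) ≠ 1 := by
    intro h
    rw [h, one_re] at hre
    linarith
  have hn1 : x ≤ ‖(σ + x * I : ℂ) - 1‖ := by
    have := Complex.abs_im_le_norm ((σ + x * I : ℂ) - 1)
    rw [sub_im, him, one_im, sub_zero, abs_of_pos hx0] at this
    exact this
  have hn2 : ‖(σ + x * I : ℂ) - 1‖ ≤ 2 * x := by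
    have := Complex.norm_le_abs_re_add_abs_im ((σ + x * I : ℂ) - 1)
    rw [sub_im, him, one_im, sub_zero, abs_of_pos hx0, sub_re, hre, one_re, abs_of_nonneg (by linarith)] at this
    linarith
  rw [xi_eq (by rw [hre]; linarith), norm_mul,
    ← Pool.Agent.H306R2.zeta_eq_pos (by rw [hre]; linarith) hne, norm_mul]
  set n := ‖(σ + x * I : ℂ) - 1‖
  set z := ‖riemannZeta (σ + x * I)‖
  set p := ‖Pg (σ + x * I)‖
  have hz0 : 0 ≤ z := norm_nonneg _
  have hp0 : 0 ≤ p := norm_nonneg _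
  constructor
  · calc (n * z * p) ^ 2 ≤ (2 * x * A * p) ^ 2 := by gcongr
      _ = _ := by ring
  · have h3 : x * 1 ≤ n * (A * z) := mul_le_mul hn1 a2 zero_le_one (by positivity)
    calc x ^ 2 * p ^ 2 = (x * 1 * p) ^ 2 := by ring
      _ ≤ (n * (A * z) * p) ^ 2 := by gcongr
      _ = A ^ 2 * (n * z * p) ^ 2 := by ring
      _ ≤ 4 * A ^ 2 * (n * z * p) ^ 2 := by
          have : 0 ≤ A ^ 2 * (n * z * p) ^ 2 := by positivity
          linarith

/-- A zero close to the line `Re s = 1` makes a Laguerre coefficient of high order negative. -/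
theorem conv_core {c : ℝ} (hc0 : 0 < c) (hc : c < 1 / 4) : ∃ τ > 0, ∃ X1 : ℝ, ∀ (x b : ℝ), X1 ≤ x →
    1 / 2 - τ < b → b < 1 / 2 → xi (1 / 2 + b + x * I) = 0 →
    ∃ m : ℕ, c * Real.log x ≤ m ∧ Lm x m < 0 := by
  set d : ℝ := 1 - 4 * c with hd
  have hd0 : 0 < d := by rw [hd]; linarith
  have hd1 : d < 1 := by rw [hd]; linarith
  obtain ⟨s0, hs0, hbd⟩ := Lm_bound (d / 100) (by positivity)
  set s : ℝ := min (s0 / 2) (d / 100) with hs
  have hspos : 0 < s := by rw [hs]; positivity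
  have hss0 : s < s0 := lt_of_le_of_lt (min_le_left _ _) (by linarith)
  have hsd : s ≤ d / 100 := min_le_right _ _
  have hs100 : s ≤ 1 / 100 := by linarith
  obtain ⟨K, hK0, hK⟩ := hbd s hspos hss0 (by linarith)
  obtain ⟨C, hC0, hC⟩ := Pg_ratio
  obtain ⟨A, hA1, hA⟩ := F_bounds hspos
  set η : ℝ := s * d / 100 with hη
  have hη0 : 0 < η := by rw [hη]; positivity
  set ν : ℝ := s + 4 * s ^ 2 with hν
  set E : ℝ := Real.exp C with hE
  have hE0 : 0 < E := Real.exp_pos _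
  set K1 : ℝ := A * E * (A * E + 2 * (1 / η + 1) * K) with hK1
  have hK10 : 0 < K1 := by positivity
  refine ⟨s ^ 2 / 4, by positivity, max 1 ((K1 + 1) ^ (1 / s ^ 2)), fun x b hx hb1 hb2 hzero => ?_⟩
  by_contra hcon
  push Not at hcon
  have hx1 : 1 ≤ x := (le_max_left _ _).trans hx
  have hxK : (K1 + 1) ^ (1 / s ^ 2) ≤ x := (le_max_right _ _).trans hx
  have hx0 : 0 < x := by linarith
  have hlx : 0 ≤ Real.log x := Real.log_nonneg hx1
  have hrpos : 0 < 1 / 2 - s := by linarith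
  set r : ℝ := 1 / 2 - s with hr
  set R : ℝ := 1 / 2 + s with hR
  set R2 : ℝ := 1 / 2 + 2 * s + 3 * s ^ 2 with hR2
  have hbr : r ≤ b := by rw [hr]; nlinarith
  have hb0 : 0 < b := by linarith
  have hR20 : 0 < R2 := by rw [hR2]; positivity
  have hRR : R ^ 2 ≤ b * R2 := by
    have h1 : (1 / 2 - s ^ 2 / 4) * R2 ≤ b * R2 := mul_le_mul_of_nonneg_right hb1.le hR20.le
    refine le_trans ?_ h1
    rw [hR, hR2]
    have hsq : s ^ 2 ≤ s / 100 := by nlinarith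
    have h3 : 0 < s ^ 2 := by positivity
    nlinarith [mul_pos h3 hspos, mul_pos h3 h3]
  set P0 : ℝ := ‖Pg (((1 - s : ℝ) : ℂ) + x * I)‖ ^ 2 with hP0
  have hP0pos : 0 < P0 := by
    have := norm_pos_iff.2 (Pg_ne (s := ((1 - s : ℝ) : ℂ) + x * I) (by simp; linarith))
    positivity
  set μ : ℝ := x ^ ν with hμ
  have hμ0 : 0 < μ := Real.rpow_pos_of_pos hx0 _
  -- the sum
  have S1 := (G_series x b).mul_left μ
  have S2 := (G_series x R2).mul_left μ⁻¹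
  have S3 := (G_series x R).mul_left 2
  have S := (S1.add S2).sub S3
  rw [hzero, norm_zero] at S
  set w : ℕ → ℝ := fun m => μ * b ^ (2 * m) + μ⁻¹ * R2 ^ (2 * m) - 2 * R ^ (2 * m) with hw
  have hR0 : 0 < R := by rw [hR]; linarith
  clear_value μ P0 E
  have hw0 : ∀ m, 0 ≤ w m := by
    intro m
    have h1 : R ^ (2 * m) ≤ b ^ m * R2 ^ m := by
      rw [pow_mul, ← mul_pow]
      exact pow_le_pow_left₀ (sq_nonneg _) hRR m
    have h2 : 2 * (b ^ m * R2 ^ m) ≤ μ * b ^ (2 * m) + μ⁻¹ * R2 ^ (2 * m) := by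
      have e1 : b ^ (2 * m) = b ^ m * b ^ m := by rw [← pow_add]; congr 1; ring
      have e2 : R2 ^ (2 * m) = R2 ^ m * R2 ^ m := by rw [← pow_add]; congr 1; ring
      rw [e1, e2]
      have h3 : 0 ≤ μ⁻¹ * (μ * b ^ m - R2 ^ m) ^ 2 := by positivity
      have h4 : μ⁻¹ * (μ * b ^ m - R2 ^ m) ^ 2 =
          μ * (b ^ m * b ^ m) + μ⁻¹ * (R2 ^ m * R2 ^ m) - 2 * (b ^ m * R2 ^ m) := by
        field_simp
        ring
      linarith
    simp only [hw]
    linarith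
  have hS : HasSum (fun m => Lm x m * w m) (μ * 0 ^ 2 + μ⁻¹ * ‖xi (1 / 2 + R2 + x * I)‖ ^ 2 -
      2 * ‖xi (1 / 2 + R + x * I)‖ ^ 2) := by
    refine S.congr_fun ?_
    intro m
    simp only [hw]
    ring
  set M : ℕ := ⌈c * Real.log x⌉₊ with hM
  have hlow := sum_le_hasSum (Finset.range M) (fun m hm => by
    rw [Finset.mem_range, not_lt] at hm
    have h1 : c * Real.log x ≤ m := (Nat.le_ceil _).trans (by exact_mod_cast hm)
    exact mul_nonneg (hcon m h1) (hw0 m)) hS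
  -- the head
  set B : ℝ := K * x ^ (2 + 2 * (d / 100 * s)) * P0 with hB
  have hB0 : 0 ≤ B := by positivity
  have hhead : ∀ m ∈ Finset.range M, -(B * (μ * x ^ (2 * c * (2 * s + 5 * s ^ 2)) +
      μ⁻¹ * x ^ (2 * c * (6 * s + 11 * s ^ 2)))) ≤ Lm x m * w m := by
    intro m hm
    rw [Finset.mem_range, hM, Nat.lt_ceil] at hm
    have h1 := hK x m hx1
    rw [← hP0, ← hB] at h1
    have hpow : ∀ q Q : ℝ, 1 ≤ q → Real.log q ≤ Q → q ^ (2 * m) ≤ x ^ (2 * c * Q) := by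
      intro q Q hq hQ
      have hq0 : 0 < q := by linarith
      rw [← Real.rpow_natCast, Real.rpow_def_of_pos hq0, Real.rpow_def_of_pos hx0]
      apply Real.exp_le_exp.2
      push_cast
      have hlq : 0 ≤ Real.log q := Real.log_nonneg hq
      calc Real.log q * (2 * m) ≤ Q * (2 * m) := mul_le_mul_of_nonneg_right hQ (by positivity)
        _ ≤ Q * (2 * (c * Real.log x)) := by
            apply mul_le_mul_of_nonneg_left _ (hlq.trans hQ)
            linarith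
        _ = _ := by ring
    have hb' : (b / r) ^ (2 * m) ≤ x ^ (2 * c * (2 * s + 5 * s ^ 2)) := by
      apply hpow
      · rw [le_div_iff₀ hrpos]; linarith
      · refine le_trans (Real.log_le_log (by positivity) ?_) (log_q1 hspos hs100)
        rw [div_le_div_iff₀ hrpos (by linarith), hr]
        nlinarith
    have hR2' : (R2 / r) ^ (2 * m) ≤ x ^ (2 * c * (6 * s + 11 * s ^ 2)) := by
      apply hpow
      · rw [le_div_iff₀ hrpos, hR2, hr]
        nlinarith [sq_nonneg s]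
      · exact log_q2 hspos hs100
    have hwle : w m ≤ μ * b ^ (2 * m) + μ⁻¹ * R2 ^ (2 * m) := by
      simp only [hw]
      have : 0 ≤ 2 * R ^ (2 * m) := by positivity
      linarith
    have hrp : 0 < r ^ (2 * m) := by positivity
    have h2 : |Lm x m * w m| ≤ B * (μ * x ^ (2 * c * (2 * s + 5 * s ^ 2)) +
      μ⁻¹ * x ^ (2 * c * (6 * s + 11 * s ^ 2))) := by
      rw [abs_mul, abs_of_nonneg (hw0 m)]
      calc |Lm x m| * w m ≤ (B / r ^ (2 * m)) * (μ * b ^ (2 * m) + μ⁻¹ * R2 ^ (2 * m)) :=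
            mul_le_mul h1 hwle (hw0 m) (by positivity)
        _ = B * (μ * (b / r) ^ (2 * m) + μ⁻¹ * (R2 / r) ^ (2 * m)) := by
            rw [div_pow, div_pow]; field_simp
        _ ≤ _ := by gcongr
    exact (abs_le.1 h2).1
  have hsumle := Finset.sum_le_sum hhead
  rw [Finset.sum_const, Finset.card_range, nsmul_eq_mul] at hsumle
  -- number of terms
  have hMle : (M : ℝ) ≤ (1 / η + 1) * x ^ η := by
    have h1 : (M : ℝ) < c * Real.log x + 1 := Nat.ceil_lt_add_one (by positivity)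
    have h2 := Real.log_le_rpow_div hx0.le hη0
    have h3 : 1 ≤ x ^ η := Real.one_le_rpow hx1 hη0.le
    have h4 : c * Real.log x ≤ Real.log x := by nlinarith
    have h5 : x ^ η / η = 1 / η * x ^ η := by ring
    rw [h5] at h2
    linarith
  -- the values
  have hF1 : x ^ 2 * x ^ (2 * s) * P0 ≤ A * E * ‖xi (1 / 2 + R + x * I)‖ ^ 2 := by
    have e : (1 / 2 + (R : ℂ) + x * I) = ((1 + s : ℝ) : ℂ) + x * I := by rw [hR]; push_cast; ring
    rw [e]
    have h1 := (hA x (1 + s) hx1 le_rfl (by linarith)).2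
    have h2 := (hC x (1 - s) (1 + s) hx1 (by linarith) (by linarith) (by linarith)).2
    rw [show (1 + s - (1 - s) : ℝ) = 2 * s by ring, ← hP0] at h2
    calc x ^ 2 * x ^ (2 * s) * P0 = x ^ 2 * (x ^ (2 * s) * P0) := by ring
      _ ≤ x ^ 2 * (E * ‖Pg (((1 + s : ℝ) : ℂ) + x * I)‖ ^ 2) := mul_le_mul_of_nonneg_left h2 (by positivity)
      _ = E * (x ^ 2 * ‖Pg (((1 + s : ℝ) : ℂ) + x * I)‖ ^ 2) := by ring
      _ ≤ E * (A * ‖xi (((1 + s : ℝ) : ℂ) + x * I)‖ ^ 2) := mul_le_mul_of_nonneg_left h1 hE0.le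
      _ = _ := by ring
  have hF2 : ‖xi (1 / 2 + R2 + x * I)‖ ^ 2 ≤ A * E * (x ^ 2 * x ^ (3 * s + 3 * s ^ 2) * P0) := by
    have e : (1 / 2 + (R2 : ℂ) + x * I) = ((1 + 2 * s + 3 * s ^ 2 : ℝ) : ℂ) + x * I := by
      rw [hR2]; push_cast; ring
    rw [e]
    have hs20 : 0 < s ^ 2 := by positivity
    have hs2 : s ^ 2 ≤ s / 100 := by
      rw [sq]
      calc s * s ≤ s * (1 / 100) := mul_le_mul_of_nonneg_left hs100 hspos.le
        _ = s / 100 := by ring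
    have h1 := (hA x (1 + 2 * s + 3 * s ^ 2) hx1 (by linarith) (by linarith)).1
    have h2 := (hC x (1 - s) (1 + 2 * s + 3 * s ^ 2) hx1 (by linarith) (by linarith) (by linarith)).1
    rw [show (1 + 2 * s + 3 * s ^ 2 - (1 - s) : ℝ) = 3 * s + 3 * s ^ 2 by ring, ← hP0] at h2
    calc ‖xi (((1 + 2 * s + 3 * s ^ 2 : ℝ) : ℂ) + x * I)‖ ^ 2 ≤
        A * x ^ 2 * ‖Pg (((1 + 2 * s + 3 * s ^ 2 : ℝ) : ℂ) + x * I)‖ ^ 2 := h1
      _ ≤ A * x ^ 2 * (E * x ^ (3 * s + 3 * s ^ 2) * P0) := mul_le_mul_of_nonneg_left h2 (by positivity)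
      _ = _ := by ring
  clear_value w B M
  -- exponents
  have hs2d : s ^ 2 ≤ s * d / 100 := by
    rw [sq]
    calc s * s ≤ s * (d / 100) := mul_le_mul_of_nonneg_left hsd hspos.le
      _ = _ := by ring
  have hexp1 : 3 * s + 3 * s ^ 2 - ν ≤ 2 * s - s ^ 2 := by rw [hν]; linarith
  have hcs : c * s ^ 2 ≤ s ^ 2 / 4 := by
    have := mul_le_mul_of_nonneg_right hc.le (sq_nonneg s)
    linarith
  have hcd : c = (1 - d) / 4 := by rw [hd]; ring
  have hsd0 : 0 < s * d := by positivity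
  have hexp2 : η + 2 * (d / 100 * s) + ν + 2 * c * (2 * s + 5 * s ^ 2) ≤ 2 * s - s ^ 2 := by
    have e : 2 * c * (2 * s + 5 * s ^ 2) = s - s * d + 10 * (c * s ^ 2) := by rw [hcd]; ring
    rw [e, hη, hν]
    linarith
  have hexp3 : η + 2 * (d / 100 * s) - ν + 2 * c * (6 * s + 11 * s ^ 2) ≤ 2 * s - s ^ 2 := by
    have e : 2 * c * (6 * s + 11 * s ^ 2) = 3 * s - 3 * (s * d) + 22 * (c * s ^ 2) := by rw [hcd]; ring
    rw [e, hη, hν]
    linarith
  -- conclusion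
  set Z : ℝ := x ^ (2 * s - s ^ 2) with hZ
  have hZ0 : 0 < Z := Real.rpow_pos_of_pos hx0 _
  have hx2 : 0 < x ^ 2 := by positivity
  have hmono : ∀ e : ℝ, e ≤ 2 * s - s ^ 2 → x ^ e ≤ Z := fun e he =>
    Real.rpow_le_rpow_of_exponent_le hx1 he
  have t1 : μ⁻¹ * ‖xi (1 / 2 + R2 + x * I)‖ ^ 2 ≤ A * E * (x ^ 2 * P0) * Z := by
    have h1 : μ⁻¹ * x ^ (3 * s + 3 * s ^ 2) ≤ Z := by
      rw [hμ, ← Real.rpow_neg hx0.le, ← Real.rpow_add hx0]
      exact hmono _ (by linarith)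
    calc μ⁻¹ * ‖xi (1 / 2 + R2 + x * I)‖ ^ 2 ≤ μ⁻¹ * (A * E * (x ^ 2 * x ^ (3 * s + 3 * s ^ 2) * P0)) :=
          mul_le_mul_of_nonneg_left hF2 (by positivity)
      _ = A * E * (x ^ 2 * P0) * (μ⁻¹ * x ^ (3 * s + 3 * s ^ 2)) := by ring
      _ ≤ _ := mul_le_mul_of_nonneg_left h1 (by positivity)
  have t2 : (M : ℝ) * (B * (μ * x ^ (2 * c * (2 * s + 5 * s ^ 2)) +
      μ⁻¹ * x ^ (2 * c * (6 * s + 11 * s ^ 2)))) ≤ 2 * (1 / η + 1) * K * (x ^ 2 * P0) * Z := by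
    have hsplit : x ^ (2 + 2 * (d / 100 * s)) = x ^ 2 * x ^ (2 * (d / 100 * s)) := by
      rw [Real.rpow_add hx0, Real.rpow_two]
    have h1 : x ^ η * x ^ (2 * (d / 100 * s)) * (μ * x ^ (2 * c * (2 * s + 5 * s ^ 2))) ≤ Z := by
      rw [hμ, ← Real.rpow_add hx0, ← Real.rpow_add hx0, ← Real.rpow_add hx0]
      exact hmono _ (by linarith)
    have h2 : x ^ η * x ^ (2 * (d / 100 * s)) * (μ⁻¹ * x ^ (2 * c * (6 * s + 11 * s ^ 2))) ≤ Z := by
      rw [hμ, ← Real.rpow_neg hx0.le, ← Real.rpow_add hx0, ← Real.rpow_add hx0, ← Real.rpow_add hx0]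
      exact hmono _ (by linarith)
    calc (M : ℝ) * (B * (μ * x ^ (2 * c * (2 * s + 5 * s ^ 2)) +
          μ⁻¹ * x ^ (2 * c * (6 * s + 11 * s ^ 2)))) ≤
        ((1 / η + 1) * x ^ η) * (B * (μ * x ^ (2 * c * (2 * s + 5 * s ^ 2)) +
          μ⁻¹ * x ^ (2 * c * (6 * s + 11 * s ^ 2)))) := mul_le_mul_of_nonneg_right hMle (by positivity)
      _ = (1 / η + 1) * K * (x ^ 2 * P0) *
          (x ^ η * x ^ (2 * (d / 100 * s)) * (μ * x ^ (2 * c * (2 * s + 5 * s ^ 2))) +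
           x ^ η * x ^ (2 * (d / 100 * s)) * (μ⁻¹ * x ^ (2 * c * (6 * s + 11 * s ^ 2)))) := by
          rw [hB, hsplit]; ring
      _ ≤ (1 / η + 1) * K * (x ^ 2 * P0) * (Z + Z) := by gcongr
      _ = _ := by ring
  have t3 : 2 * ‖xi (1 / 2 + R + x * I)‖ ^ 2 ≤ (A * E + 2 * (1 / η + 1) * K) * (x ^ 2 * P0) * Z := by
    have e0 : μ * (0 : ℝ) ^ 2 = 0 := by ring
    rw [e0, zero_add] at hlow
    have : (M : ℝ) * (-(B * (μ * x ^ (2 * c * (2 * s + 5 * s ^ 2)) +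
      μ⁻¹ * x ^ (2 * c * (6 * s + 11 * s ^ 2))))) = -((M : ℝ) * (B * (μ * x ^ (2 * c * (2 * s + 5 * s ^ 2)) +
      μ⁻¹ * x ^ (2 * c * (6 * s + 11 * s ^ 2))))) := by ring
    rw [this] at hsumle
    have h5 := hsumle.trans hlow
    nlinarith
  have t4 : x ^ 2 * x ^ (2 * s) * P0 ≤ K1 * (x ^ 2 * P0) * Z := by
    have h6 : A * E * ‖xi (1 / 2 + R + x * I)‖ ^ 2 ≤
        A * E * ((A * E + 2 * (1 / η + 1) * K) * (x ^ 2 * P0) * Z) := by
      apply mul_le_mul_of_nonneg_left _ (by positivity)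
      have : 0 ≤ ‖xi (1 / 2 + R + x * I)‖ ^ 2 := by positivity
      linarith
    calc x ^ 2 * x ^ (2 * s) * P0 ≤ A * E * ‖xi (1 / 2 + R + x * I)‖ ^ 2 := hF1
      _ ≤ _ := h6
      _ = _ := by rw [hK1]; ring
  have t5 : x ^ (2 * s) ≤ K1 * Z := by
    have h7 : (x ^ 2 * P0) * x ^ (2 * s) ≤ (x ^ 2 * P0) * (K1 * Z) := by linarith
    exact le_of_mul_le_mul_left h7 (by positivity)
  have t6 : x ^ (2 * s) = x ^ (s ^ 2) * Z := by
    rw [hZ, ← Real.rpow_add hx0]; congr 1; ring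
  rw [t6] at t5
  have t7 : x ^ (s ^ 2) ≤ K1 := le_of_mul_le_mul_right t5 hZ0
  have t8 : K1 + 1 ≤ x ^ (s ^ 2) := by
    have h8 := Real.rpow_le_rpow (z := s ^ 2) (by positivity) hxK (by positivity)
    rwa [← Real.rpow_mul (by positivity), one_div_mul_cancel (by positivity), Real.rpow_one] at h8
  linarith

end Pool.Agent.Helper85.LG
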