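import Pool.Agent.Helper85.LG.ZsAll
import Pool.Graph.R_seed8.Y306.VK.Zeta
import Pool.Graph.R_seed8.H306R2.ZetaGrowth

set_option autoImplicit false
set_option maxHeartbeats 1000000

open Finset Filter

namespace Pool.Agent.Helper85.LG

open Pool.Agent.Y306.VK (abel' term_eq)
open Pool.Agent.H306R2 (Zt)

/-- the hypothesis on zeta sums -/
def HZ (C : ℕ) (c : ℝ) : Prop :=
  ∀ (N N' : ℕ) (t κ : ℝ), 2 ≤ N → N ≤ N' → N' ≤ 2 * N → 1 / 2 ≤ κ → |t| = (N : ℝ) ^ κ →
      ‖∑ n ∈ Finset.Ioc N N', (n : ℂ) ^ (-(t : ℂ) * Complex.I)‖ ≤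
        Real.exp (C * (1 + κ) ^ C) * (N : ℝ) ^ (1 - c / (1 + κ) ^ 2 : ℝ)

/-- one dyadic piece -/
theorem mpiece_le {C : ℕ} {c : ℝ} (hZ : HZ C c) {L K s t : ℝ} (hc : 0 < c) (hL : 0 < L) (hK : 1 ≤ K)
    (hs1 : s ≤ 1) (hsK : s * (1 + K) ^ 2 ≤ c) (ht : |t| = Real.exp L)
    {M M' : ℕ} (hM1 : L / K ≤ Real.log M) (hM2 : Real.log M ≤ 2 * L) (hMM : M ≤ M')
    (hM' : M' ≤ 2 * M) :
    ‖∑ n ∈ Ioc M M', (n : ℂ) ^ (-(⟨1 - s, t⟩ : ℂ))‖ ≤ Real.exp (C * (1 + K) ^ C) := by
  have hK0 : 0 < K := by linarith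
  have hm0 : 0 < Real.log M := lt_of_lt_of_le (by positivity) hM1
  have hM2' : 2 ≤ M := by
    by_contra hcon
    have : M = 0 ∨ M = 1 := by omega
    rcases this with rfl | rfl <;> simp at hm0
  have hMR : (0 : ℝ) < M := by exact_mod_cast (by omega : 0 < M)
  set κ : ℝ := L / Real.log M with hκ
  have hκ2 : 1 / 2 ≤ κ := by
    rw [hκ, le_div_iff₀ hm0]
    linarith
  have hκK : κ ≤ K := by
    rw [hκ, div_le_iff₀ hm0]
    rw [div_le_iff₀ hK0] at hM1
    linarith
  have htκ : |t| = (M : ℝ) ^ κ := by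
    rw [ht, Real.rpow_def_of_pos hMR, hκ]
    congr 1
    field_simp
  have h1 : ∑ n ∈ Ioc M M', (n : ℂ) ^ (-(⟨1 - s, t⟩ : ℂ)) =
      ∑ n ∈ Ioc M M', ((((n : ℝ) ^ (-(1 - s)) : ℝ)) : ℂ) * (n : ℂ) ^ (-(t : ℂ) * Complex.I) := by
    refine Finset.sum_congr rfl fun n hn => ?_
    rw [Finset.mem_Ioc] at hn
    exact term_eq (by omega) (1 - s) t
  rw [h1]
  have h2 := abel' (a := fun n : ℕ => (n : ℝ) ^ (-(1 - s)))
    (z := fun n : ℕ => (n : ℂ) ^ (-(t : ℂ) * Complex.I)) (B := Real.exp (C * (1 + κ) ^ C) *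
      (M : ℝ) ^ (1 - c / (1 + κ) ^ 2 : ℝ)) hMM (by
      intro n hn
      have hn0 : (0 : ℝ) < n := by exact_mod_cast (by omega : 0 < n)
      refine Real.rpow_le_rpow_of_nonpos hn0 ?_ (by linarith)
      push_cast
      linarith) (by positivity) (by
      intro k hk hk'
      exact hZ M k t κ hM2' hk (by omega) hκ2 htκ)
  refine h2.trans ?_
  have h3 : (M : ℝ) ^ (-(1 - s)) * (Real.exp (C * (1 + κ) ^ C) * (M : ℝ) ^ (1 - c / (1 + κ) ^ 2 : ℝ)) =
      Real.exp (C * (1 + κ) ^ C + Real.log M * (s - c / (1 + κ) ^ 2)) := by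
    rw [Real.rpow_def_of_pos hMR, Real.rpow_def_of_pos hMR, ← Real.exp_add, ← Real.exp_add]
    congr 1
    ring
  rw [h3]
  refine Real.exp_le_exp.2 ?_
  have hκ0 : 0 ≤ 1 + κ := by linarith
  have h4 : (1 + κ) ^ C ≤ (1 + K) ^ C := pow_le_pow_left₀ hκ0 (by linarith) C
  have h5 : s ≤ c / (1 + κ) ^ 2 := by
    rw [le_div_iff₀ (by positivity)]
    rcases le_total 0 s with h0 | h0
    · refine le_trans ?_ hsK
      exact mul_le_mul_of_nonneg_left (pow_le_pow_left₀ hκ0 (by linarith) 2) h0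
    · have : 0 ≤ (1 + κ) ^ 2 := sq_nonneg _
      nlinarith
  have h6 : Real.log M * (s - c / (1 + κ) ^ 2) ≤ 0 :=
    mul_nonpos_of_nonneg_of_nonpos hm0.le (by linarith)
  have h7 : (C : ℝ) * (1 + κ) ^ C ≤ C * (1 + K) ^ C := mul_le_mul_of_nonneg_left h4 (Nat.cast_nonneg C)
  linarith

/-- all the pieces -/
theorem mpieces_le {C : ℕ} {c : ℝ} (hZ : HZ C c) {L K s t : ℝ} (hc : 0 < c) (hL : 0 < L) (hK : 1 ≤ K)
    (hs1 : s ≤ 1) (hsK : s * (1 + K) ^ 2 ≤ c) (ht : |t| = Real.exp L)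
    {Y N : ℕ} (hY0 : 1 ≤ Y) (hY : L / K ≤ Real.log Y) (hN : Real.log N ≤ 2 * L) (hYN : Y ≤ N)
    (i : ℕ) :
    ‖∑ n ∈ Ioc Y (min (2 ^ i * Y) N), (n : ℂ) ^ (-(⟨1 - s, t⟩ : ℂ))‖ ≤ i * Real.exp (C * (1 + K) ^ C) := by
  induction i with
  | zero => simp [min_eq_left hYN]
  | succ i ih =>
    have hYi : Y ≤ 2 ^ i * Y := Nat.le_mul_of_pos_left _ (by positivity)
    have hP1 : Y ≤ min (2 ^ i * Y) N := le_min hYi hYN
    have hP2 : min (2 ^ i * Y) N ≤ min (2 ^ (i + 1) * Y) N := by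
      refine min_le_min_right _ ?_
      rw [pow_succ]
      nlinarith [hYi]
    have hP3 : min (2 ^ (i + 1) * Y) N ≤ 2 * min (2 ^ i * Y) N := by
      rw [pow_succ]
      rcases le_total (2 ^ i * Y) N with h1 | h1
      · rw [min_eq_left h1]
        refine (min_le_left _ _).trans (le_of_eq ?_)
        ring
      · rw [min_eq_right h1]
        exact (min_le_right _ _).trans (by omega)
    rw [← Finset.sum_Ioc_consecutive _ hP1 hP2]
    have hY0R : (0 : ℝ) < Y := by exact_mod_cast (by omega : 0 < Y)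
    have hPpos : (0 : ℝ) < ((min (2 ^ i * Y) N : ℕ) : ℝ) := by
      exact_mod_cast (lt_of_lt_of_le (by omega : 0 < Y) hP1)
    have h1 := mpiece_le hZ hc hL hK hs1 hsK ht (M := min (2 ^ i * Y) N) (M' := min (2 ^ (i + 1) * Y) N)
      (hY.trans (Real.log_le_log hY0R (by exact_mod_cast hP1)))
      ((Real.log_le_log hPpos (by exact_mod_cast min_le_right _ _)).trans hN) hP2 hP3
    push_cast
    rw [add_mul, one_mul]
    exact (norm_add_le _ _).trans (add_le_add ih h1)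

theorem mu_core {C : ℕ} {c : ℝ} (hZ : HZ C c) {L K s t : ℝ} (hc : 0 < c) (hL : 4 ≤ L) (hK : 1 ≤ K)
    (hs0 : 0 < s) (hs1 : s ≤ 1 / 4) (hsK : s * (1 + K) ^ 2 ≤ c) (ht : |t| = Real.exp L) :
    ‖riemannZeta ⟨1 - s, t⟩‖ ≤
      Real.exp (s * (L / K + 1)) * (2 + L) + (3 * L + 1) * Real.exp (C * (1 + K) ^ C) + 9 := by
  have hL0 : 0 < L := by linarith
  have hK0 : 0 < K := by linarith
  have hE4 : (5 : ℝ) ≤ Real.exp L := by
    have := Real.add_one_le_exp L
    linarith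
  have hE2 : Real.exp (2 * L) = Real.exp L * Real.exp L := by
    rw [← Real.exp_add]
    congr 1
    ring
  have hLu : L / K ≤ L := div_le_self hL0.le hK
  have hLu0 : 0 < L / K := by positivity
  set z : ℂ := ⟨1 - s, t⟩ with hz
  set N : ℕ := ⌊Real.exp (2 * L)⌋₊ with hNdef
  set Y : ℕ := ⌈Real.exp (L / K)⌉₊ with hYdef
  have hN1 : (N : ℝ) ≤ Real.exp (2 * L) := Nat.floor_le (Real.exp_pos _).le
  have hN2 : Real.exp (2 * L) / 2 ≤ N := by
    have h1 := Nat.lt_floor_add_one (Real.exp (2 * L))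
    rw [← hNdef] at h1
    nlinarith
  have hN0 : (0 : ℝ) < N := lt_of_lt_of_le (by positivity) hN2
  have hN1' : 1 ≤ N := by
    have : 0 < N := by exact_mod_cast hN0
    exact this
  have hlogN : Real.log N ≤ 2 * L := by
    rw [← Real.log_exp (2 * L)]
    exact Real.log_le_log hN0 hN1
  have hY1 : Real.exp (L / K) ≤ Y := Nat.le_ceil _
  have hY2 : (Y : ℝ) ≤ Real.exp (L / K + 1) := by
    have h1 : (Y : ℝ) < Real.exp (L / K) + 1 := Nat.ceil_lt_add_one (Real.exp_pos _).le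
    have h2 : (1 : ℝ) ≤ Real.exp (L / K) := Real.one_le_exp hLu0.le
    have h3 := Real.exp_one_gt_d9
    rw [Real.exp_add]
    nlinarith
  have hY0 : (0 : ℝ) < Y := lt_of_lt_of_le (Real.exp_pos _) hY1
  have hY1' : 1 ≤ Y := by
    have : 0 < Y := by exact_mod_cast hY0
    exact this
  have hlogY : L / K ≤ Real.log Y := by
    rw [← Real.log_exp (L / K)]
    exact Real.log_le_log (Real.exp_pos _) hY1
  have hlogY2 : Real.log Y ≤ L / K + 1 := by
    rw [← Real.log_exp (L / K + 1)]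
    exact Real.log_le_log hY0 hY2
  have hYN : Y ≤ N := by
    rw [hNdef]
    refine Nat.le_floor ?_
    have h1 : (Y : ℝ) < Real.exp (L / K) + 1 := Nat.ceil_lt_add_one (Real.exp_pos _).le
    have h2 : Real.exp (L / K) ≤ Real.exp L := Real.exp_le_exp.2 hLu
    rw [hE2]
    nlinarith
  -- the powers
  have hpow : ∀ n : ℕ, 1 ≤ n → (n : ℝ) ^ s = Real.exp (s * Real.log n) := by
    intro n hn
    have hn0 : (0 : ℝ) < n := by exact_mod_cast (by omega : 0 < n)
    rw [Real.rpow_def_of_pos hn0, mul_comm]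
  have hNpow : (N : ℝ) ^ s ≤ Real.exp L := by
    rw [hpow N hN1']
    refine Real.exp_le_exp.2 ?_
    have h1 : s * Real.log N ≤ s * (2 * L) := mul_le_mul_of_nonneg_left hlogN hs0.le
    nlinarith
  -- the first part of the sum
  have hfirst : ‖∑ n ∈ Ioc 0 Y, (n : ℂ) ^ (-z)‖ ≤ Real.exp (s * (L / K + 1)) * (2 + L) := by
    have h1 : ∀ n ∈ Ioc 0 Y, ‖(n : ℂ) ^ (-z)‖ ≤ Real.exp (s * (L / K + 1)) * (1 / (n : ℝ)) := by
      intro n hn
      rw [Finset.mem_Ioc] at hn
      have hn0 : (0 : ℝ) < n := by exact_mod_cast hn.1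
      rw [Complex.norm_natCast_cpow_of_pos hn.1]
      have e1 : (-z).re = s + (-1) := by
        rw [hz, Complex.neg_re]
        ring
      rw [e1, Real.rpow_add hn0, Real.rpow_neg_one, ← one_div]
      refine mul_le_mul_of_nonneg_right ?_ (by positivity)
      rw [hpow n hn.1]
      apply Real.exp_le_exp.2
      apply mul_le_mul_of_nonneg_left _ hs0.le
      exact (Real.log_le_log hn0 (by exact_mod_cast hn.2)).trans hlogY2
    refine (norm_sum_le_of_le _ h1).trans ?_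
    rw [← Finset.mul_sum]
    refine mul_le_mul_of_nonneg_left ?_ (Real.exp_pos _).le
    have h2 : ∑ n ∈ Ioc 0 Y, 1 / (n : ℝ) = (harmonic Y : ℝ) := by
      rw [harmonic_eq_sum_Icc]
      push_cast
      refine Finset.sum_congr ?_ fun n _ => one_div _
      ext n
      simp [Finset.mem_Ioc, Finset.mem_Icc, Nat.one_le_iff_ne_zero, Nat.pos_iff_ne_zero]
    rw [h2]
    have h3 := harmonic_le_one_add_log Y
    linarith
  -- the pieces
  have hsecond : ‖∑ n ∈ Ioc Y N, (n : ℂ) ^ (-z)‖ ≤ (3 * L + 1) * Real.exp (C * (1 + K) ^ C) := by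
    have h1 := mpieces_le hZ hc hL0 hK (by linarith) hsK ht hY1' hlogY hlogN hYN (Nat.log 2 N + 1)
    have h2 : N ≤ 2 ^ (Nat.log 2 N + 1) * Y := by
      have h3 : N < 2 ^ (Nat.log 2 N + 1) := Nat.lt_pow_succ_log_self (by norm_num) N
      exact h3.le.trans (Nat.le_mul_of_pos_right _ (by omega))
    rw [min_eq_right h2] at h1
    refine h1.trans ?_
    apply mul_le_mul_of_nonneg_right _ (Real.exp_pos _).le
    push_cast
    have h3 : (2 : ℝ) ^ (Nat.log 2 N) ≤ N := by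
      exact_mod_cast Nat.pow_log_le_self 2 (by omega)
    have h4 := Real.log_le_log (by positivity) h3
    rw [Real.log_pow] at h4
    have h5 := Real.log_two_gt_d9
    have h6 : (0 : ℝ) ≤ (Nat.log 2 N : ℝ) := Nat.cast_nonneg _
    nlinarith
  have hDN : ‖ZU.DN N z‖ ≤ Real.exp (s * (L / K + 1)) * (2 + L) +
      (3 * L + 1) * Real.exp (C * (1 + K) ^ C) := by
    have h1 : ZU.DN N z = ∑ n ∈ Ioc 0 Y, (n : ℂ) ^ (-z) + ∑ n ∈ Ioc Y N, (n : ℂ) ^ (-z) := by
      rw [Finset.sum_Ioc_consecutive _ (Nat.zero_le _) hYN]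
      rfl
    rw [h1]
    exact (norm_add_le _ _).trans (add_le_add hfirst hsecond)
  -- the remaining terms
  have htn : ‖z - 1‖ ≥ Real.exp L := by
    rw [← ht]
    have h1 := Complex.abs_im_le_norm (z - 1)
    simpa [hz] using h1
  have hs1' : z ≠ 1 := by
    intro h0
    rw [h0, sub_self, norm_zero] at htn
    linarith
  have hsn : ‖z‖ ≤ 2 * Real.exp L := by
    have h1 := Complex.norm_le_abs_re_add_abs_im z
    have h2 : |z.re| ≤ 3 := by
      rw [abs_le]
      constructor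
      · show -3 ≤ 1 - s
        linarith
      · show 1 - s ≤ 3
        linarith
    have h3 : |z.im| = Real.exp L := ht
    linarith
  have hmain : ‖(N : ℂ) ^ (1 - z) / (z - 1)‖ ≤ 1 := by
    rw [norm_div, Complex.norm_natCast_cpow_of_pos (by omega)]
    have e1 : (1 - z).re = s := by simp [hz]
    rw [e1, div_le_one (by linarith)]
    linarith
  have hσ : 0 < 1 - s := by linarith
  have hint : ‖∫ x in Set.Ioi (N : ℝ), ((Int.fract x : ℝ) : ℂ) * (x : ℂ) ^ (-z - 1)‖ ≤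
      (N : ℝ) ^ (-(1 - s)) / (1 - s) := by
    have h1 : MeasureTheory.IntegrableOn (fun x : ℝ => x ^ (-(1 - s) - 1)) (Set.Ioi (N : ℝ)) :=
      integrableOn_Ioi_rpow_of_lt (by linarith) hN0
    have h2 : ∫ x in Set.Ioi (N : ℝ), x ^ (-(1 - s) - 1) = (N : ℝ) ^ (-(1 - s)) / (1 - s) := by
      rw [integral_Ioi_rpow_of_lt (by linarith) hN0]
      have e1 : -(1 - s) - 1 + 1 = -(1 - s) := by ring
      rw [e1, neg_div_neg_eq]
    rw [← h2]
    refine MeasureTheory.norm_integral_le_of_norm_le h1 ?_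
    refine (MeasureTheory.ae_restrict_iff' measurableSet_Ioi).2 (Eventually.of_forall ?_)
    intro x (hx : (N : ℝ) < x)
    have hx0 : 0 < x := hN0.trans hx
    rw [norm_mul, Complex.norm_real, Real.norm_of_nonneg (Int.fract_nonneg x),
      Complex.norm_cpow_eq_rpow_re_of_pos hx0]
    have e1 : (-z - 1).re = -(1 - s) - 1 := by simp [hz]
    rw [e1]
    exact mul_le_of_le_one_left (Real.rpow_nonneg hx0.le _) (Int.fract_lt_one x).le
  have herr : ‖z * ∫ x in Set.Ioi (N : ℝ), ((Int.fract x : ℝ) : ℂ) * (x : ℂ) ^ (-z - 1)‖ ≤ 8 := by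
    rw [norm_mul]
    have h1 : (N : ℝ) ^ (-(1 - s)) ≤ 2 / Real.exp L := by
      have e1 : -(1 - s) = s + (-1) := by ring
      rw [e1, Real.rpow_add hN0, Real.rpow_neg_one]
      rw [le_div_iff₀ (Real.exp_pos _), ← div_eq_mul_inv, div_mul_eq_mul_div, div_le_iff₀ hN0]
      have h2 : (N : ℝ) ^ s * Real.exp L ≤ Real.exp L * Real.exp L :=
        mul_le_mul_of_nonneg_right hNpow (Real.exp_pos _).le
      rw [← hE2] at h2
      linarith
    have h3 : (N : ℝ) ^ (-(1 - s)) / (1 - s) ≤ 4 / Real.exp L := by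
      rw [div_le_iff₀ (by linarith)]
      have h4 : 4 / Real.exp L * (1 - s) = (2 / Real.exp L) * (2 * (1 - s)) := by ring
      rw [h4]
      have h5 : 0 < 2 / Real.exp L := by positivity
      nlinarith
    calc ‖z‖ * ‖∫ x in Set.Ioi (N : ℝ), ((Int.fract x : ℝ) : ℂ) * (x : ℂ) ^ (-z - 1)‖
        ≤ (2 * Real.exp L) * (4 / Real.exp L) :=
          mul_le_mul hsn (hint.trans h3) (norm_nonneg _) (by positivity)
      _ = 8 := by
          field_simp
          norm_num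
  rw [ZU.zeta_formula N hN1' z (by show 0 < 1 - s; linarith) hs1']
  have h9 := norm_sub_le (ZU.DN N z + (N : ℂ) ^ (1 - z) / (z - 1))
    (z * ∫ x in Set.Ioi (N : ℝ), ((Int.fract x : ℝ) : ℂ) * (x : ℂ) ^ (-z - 1))
  have h10 := norm_add_le (ZU.DN N z) ((N : ℂ) ^ (1 - z) / (z - 1))
  linarith

/-- the order of the zeta function near the line `Re s = 1`: `μ(1 - s) = o(s)` -/
theorem mu_small : ∀ ε > 0, ∃ s0 > 0, ∀ s : ℝ, 0 < s → s < s0 → ∃ D : ℝ, 0 ≤ D ∧ ∀ t : ℝ,
    ‖Zt (1 - s + t * Complex.I)‖ ≤ D * (1 + |t|) ^ (1 + ε * s) := by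
  intro ε hε
  obtain ⟨C, c, hc, hc1, hZ⟩ := zs_all
  set K : ℝ := 2 / ε + 1 with hK
  have hK1 : 1 ≤ K := by
    rw [hK]; have : 0 < 2 / ε := by positivity
    linarith
  have hK0 : 0 < K := by linarith
  refine ⟨min (1 / 4) (c / (1 + K) ^ 2), by positivity, fun s hs0 hs => ?_⟩
  have hs1 : s ≤ 1 / 4 := (hs.trans_le (min_le_left _ _)).le
  have hsK : s * (1 + K) ^ 2 ≤ c := by
    have := (hs.trans_le (min_le_right _ _)).le
    rwa [le_div_iff₀ (by positivity)] at this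
  set E : ℝ := Real.exp (C * (1 + K) ^ C) with hE
  have hE0 : 0 < E := Real.exp_pos _
  set D1 : ℝ := Real.exp s * (2 + K / s) + (3 * (K / s) + 1) * E + 9 with hD1
  have hD10 : 0 ≤ D1 := by positivity
  set D2 : ℝ := 3 * (Real.exp 4 + 3) ^ 2 with hD2
  refine ⟨D1 + D2, by positivity, fun t => ?_⟩
  have hbase : 1 ≤ 1 + |t| := by linarith [abs_nonneg t]
  have hpow1 : 1 ≤ (1 + |t|) ^ (1 + ε * s) := Real.one_le_rpow hbase (by positivity)
  rcases lt_or_ge |t| (Real.exp 4) with h | h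
  · have h1 := Pool.Agent.H306R2.Zt_norm_le (s := 1 - s + t * Complex.I) (by simp; linarith)
    have h2 : ‖(1 - s + t * Complex.I : ℂ)‖ ≤ 2 + Real.exp 4 := by
      have n1 := norm_add_le (1 - s : ℂ) (t * Complex.I)
      have n2 : ‖(t * Complex.I : ℂ)‖ = |t| := by simp
      have n3 : ‖(1 - s : ℂ)‖ ≤ 1 + s := by
        refine (norm_sub_le _ _).trans ?_
        rw [norm_one, Complex.norm_real, Real.norm_of_nonneg hs0.le]
      linarith
    have h3 : ‖Zt (1 - s + t * Complex.I)‖ ≤ D2 := by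
      refine h1.trans ?_
      rw [hD2]
      have := norm_nonneg (1 - s + t * Complex.I : ℂ)
      refine mul_le_mul_of_nonneg_left (pow_le_pow_left₀ (by positivity) (by linarith) 2) (by norm_num)
    have hD20 : 0 ≤ D2 := by positivity
    calc ‖Zt (1 - s + t * Complex.I)‖ ≤ D2 * 1 := by linarith
      _ ≤ (D1 + D2) * (1 + |t|) ^ (1 + ε * s) := by
          apply mul_le_mul _ hpow1 zero_le_one (by positivity)
          linarith
  · have ht0 : 0 < |t| := lt_of_lt_of_le (Real.exp_pos _) h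
    set L : ℝ := Real.log |t| with hL
    have hL4 : 4 ≤ L := by
      rw [hL, Real.le_log_iff_exp_le ht0]
      exact h
    have hLexp : |t| = Real.exp L := by rw [hL, Real.exp_log ht0]
    have hmain := mu_core hZ hc hL4 hK1 hs0 hs1 hsK hLexp
    set X : ℝ := Real.exp (s * L / K) with hX
    have hX1 : 1 ≤ X := Real.one_le_exp (by positivity)
    have hLX : L ≤ K / s * X := by
      have := Real.add_one_le_exp (s * L / K)
      have h2 : L = K / s * (s * L / K) := by field_simp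
      rw [h2]
      apply mul_le_mul_of_nonneg_left _ (by positivity)
      linarith
    have hXX : X * X ≤ |t| ^ (ε * s) := by
      rw [hX, ← Real.exp_add, Real.rpow_def_of_pos ht0]
      apply Real.exp_le_exp.2
      rw [← hL]
      have h2 : 2 / K ≤ ε := by
        rw [div_le_iff₀ hK0, hK, mul_add, mul_div_cancel₀ _ hε.ne']
        linarith
      have h3 : s * L / K + s * L / K = (2 / K) * (s * L) := by ring
      rw [h3]
      have : 2 / K * (s * L) ≤ ε * (s * L) := mul_le_mul_of_nonneg_right h2 (by positivity)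
      linarith
    have hζ : ‖riemannZeta ⟨1 - s, t⟩‖ ≤ D1 * |t| ^ (ε * s) := by
      have e1 : Real.exp (s * (L / K + 1)) = Real.exp s * X := by
        rw [hX, ← Real.exp_add]
        congr 1
        ring
      rw [e1] at hmain
      have b1 : 2 + L ≤ (2 + K / s) * X := by nlinarith [show 0 ≤ K / s by positivity]
      have b2 : 3 * L + 1 ≤ (3 * (K / s) + 1) * (X * X) := by
        have : X ≤ X * X := by nlinarith
        nlinarith [show 0 ≤ K / s by positivity]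
      have b3 : (1 : ℝ) ≤ X * X := by nlinarith
      calc ‖riemannZeta ⟨1 - s, t⟩‖ ≤ Real.exp s * X * (2 + L) + (3 * L + 1) * E + 9 := hmain
        _ ≤ Real.exp s * X * ((2 + K / s) * X) + (3 * (K / s) + 1) * (X * X) * E + 9 * (X * X) := by
            gcongr
            linarith
        _ = D1 * (X * X) := by rw [hD1]; ring
        _ ≤ D1 * |t| ^ (ε * s) := mul_le_mul_of_nonneg_left hXX hD10
    have e2 : (1 - s + t * Complex.I : ℂ) = ⟨1 - s, t⟩ := by
      apply Complex.ext <;> simp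
    have hne : (⟨1 - s, t⟩ : ℂ) ≠ 1 := by
      intro h0
      have := congrArg Complex.im h0
      simp at this
      rw [this, abs_zero] at ht0
      exact lt_irrefl _ ht0
    rw [e2, ← Pool.Agent.H306R2.zeta_eq_pos (by show 0 < 1 - s; linarith) hne, norm_mul]
    have h5 : ‖(⟨1 - s, t⟩ : ℂ) - 1‖ ≤ 1 + |t| := by
      have := Complex.norm_le_abs_re_add_abs_im ((⟨1 - s, t⟩ : ℂ) - 1)
      have e3 : |((⟨1 - s, t⟩ : ℂ) - 1).re| = s := by
        simp [abs_of_pos hs0]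
      have e4 : |((⟨1 - s, t⟩ : ℂ) - 1).im| = |t| := by simp
      rw [e3, e4] at this
      linarith
    have hD20 : 0 ≤ D2 := by positivity
    calc ‖(⟨1 - s, t⟩ : ℂ) - 1‖ * ‖riemannZeta ⟨1 - s, t⟩‖ ≤ (1 + |t|) * (D1 * |t| ^ (ε * s)) :=
          mul_le_mul h5 hζ (norm_nonneg _) (by positivity)
      _ ≤ (1 + |t|) * ((D1 + D2) * (1 + |t|) ^ (ε * s)) := by
          gcongr
          · linarith
          · linarith
      _ = (D1 + D2) * (1 + |t|) ^ (1 + ε * s) := by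
          rw [Real.rpow_add (by linarith), Real.rpow_one]; ring

end Pool.Agent.Helper85.LG
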