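import Pool.Agent.Helper85.LG.Thr

set_option autoImplicit false
set_option maxHeartbeats 1000000

open Complex Filter Topology Set
open Pool.Agent.H306R2 (Zt Zt_one Zt_differentiableAt zeta_eq_pos)

namespace Pool.Agent.Helper85.LG

/-- derivatives of a real restriction -/
lemma real_iter {f : ℂ → ℂ} (hf : Differentiable ℂ f) {h : ℝ → ℝ} (hh : ∀ u : ℝ, ((h u : ℝ) : ℂ) = f u)
    (m : ℕ) : (∀ u : ℝ, ((iteratedDeriv m h u : ℝ) : ℂ) = iteratedDeriv m f u) ∧
      Differentiable ℂ (iteratedDeriv m f) := by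
  induction m with
  | zero => exact ⟨fun u => by simpa using hh u, by simpa using hf⟩
  | succ m ih =>
    obtain ⟨h1, h2⟩ := ih
    refine ⟨fun u => ?_, ?_⟩
    · rw [iteratedDeriv_succ, iteratedDeriv_succ]
      have h3 : HasDerivAt (iteratedDeriv m f) (deriv (iteratedDeriv m f) u) (u : ℂ) :=
        (h2 u).hasDerivAt
      have h4 := h3.real_of_complex
      have h5 : (fun x : ℝ => (iteratedDeriv m f (x : ℂ)).re) = iteratedDeriv m h := by
        funext x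
        rw [← h1 x, Complex.ofReal_re]
      rw [h5] at h4
      rw [h4.deriv]
      have h6 : HasDerivAt (fun x : ℝ => iteratedDeriv m f (x : ℂ)) (deriv (iteratedDeriv m f) u) u :=
        h3.comp_ofReal
      have h7 : (fun x : ℝ => iteratedDeriv m f (x : ℂ)) = fun x : ℝ => ((iteratedDeriv m h x : ℝ) : ℂ) := by
        funext x; rw [h1 x]
      rw [h7] at h6
      have h8 : HasDerivAt (fun x : ℝ => (((iteratedDeriv m h x : ℝ) : ℂ))) (((deriv (iteratedDeriv m f) u).re : ℝ) : ℂ) u :=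
        h4.ofReal_comp
      exact (h8.unique h6)
    · rw [iteratedDeriv_succ]
      intro z
      exact ((h2.analyticAt z).deriv).differentiableAt

lemma Lm_deriv (n : ℕ) (t : ℝ) :
    iteratedDeriv (2 * n) (fun u : ℝ => ‖xi (1 / 2 + u + t * I)‖ ^ 2) 0 = (2 * n).factorial * Lm t n := by
  have h := (real_iter (f := G t) (G_diff t)
    (h := fun u : ℝ => ‖xi (1 / 2 + u + t * I)‖ ^ 2) (fun u => (G_real t u).symm) (2 * n)).1 0
  have h2 := congrArg Complex.re h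
  rw [ofReal_re, ofReal_zero] at h2
  rw [h2, Lm, tc]
  have hk : ((2 * n).factorial : ℝ) ≠ 0 := by exact_mod_cast (2 * n).factorial_ne_zero
  have : iteratedDeriv (2 * n) (G t) 0 / ((2 * n).factorial : ℂ) =
      iteratedDeriv (2 * n) (G t) 0 / (((2 * n).factorial : ℝ) : ℂ) := by push_cast; rfl
  rw [this, Complex.div_ofReal_re]
  field_simp

/-- regularity in every zero-free half-plane -/
def RegZf : Prop := ∀ θ y0 : ℝ, (∀ s : ℂ, θ < s.re → riemannZeta s ≠ 0) → 0 < y0 → θ - 1 / 2 < y0 → Reg y0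

theorem pos_of_zf (hreg : RegZf) {θ c : ℝ} (hθ : 1 / 2 ≤ θ) (hz : ∀ s : ℂ, θ < s.re → riemannZeta s ≠ 0)
    (hc : (θ - 1 / 2) / 2 < c) :
    ∃ X : ℝ, ∀ x : ℝ, X ≤ x → ∀ m : ℕ, c * Real.log x ≤ m → 0 < Lm x m := by
  have hc0 : 0 < c := by linarith
  set y0 : ℝ := (2 * c + (θ - 1 / 2)) / 2 with hy0
  exact pos_log (y0 := y0) (by rw [hy0]; linarith) (hreg θ y0 hz (by rw [hy0]; linarith) (by rw [hy0]; linarith))
    (by rw [hy0]; linarith)

theorem pos_quarter {c : ℝ} (hc : 1 / 4 < c) :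
    ∃ X : ℝ, ∀ x : ℝ, X ≤ x → ∀ m : ℕ, c * Real.log x ≤ m → 0 < Lm x m := by
  set y0 : ℝ := (2 * c + 1 / 2) / 2 with hy0
  exact pos_log (y0 := y0) (by rw [hy0]; linarith) (reg_abs (by rw [hy0]; linarith)) (by rw [hy0]; linarith)

theorem halfplane_iff (hreg : RegZf) : (∃ θ < 1, ∀ s : ℂ, θ < s.re → riemannZeta s ≠ 0) ↔
    ∃ c < 1 / 4, ∃ X : ℝ, ∀ x : ℝ, X ≤ x → ∀ m : ℕ, c * Real.log x ≤ m → 0 ≤ Lm x m := by
  constructor
  · rintro ⟨θ, hθ, hz⟩
    set θ' : ℝ := max θ (1 / 2) with hθ'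
    have h1 : θ' < 1 := max_lt hθ (by norm_num)
    have h2 : 1 / 2 ≤ θ' := le_max_right _ _
    obtain ⟨X, hX⟩ := pos_of_zf hreg (θ := θ') (c := (θ' - 1 / 2) / 4 + 1 / 8) h2
      (fun s hs => hz s (lt_of_le_of_lt (le_max_left _ _) hs)) (by linarith)
    exact ⟨(θ' - 1 / 2) / 4 + 1 / 8, by linarith, X, fun x hx m hm => (hX x hx m hm).le⟩
  · rintro ⟨c, hc, h⟩
    exact halfplane_of_laguerre hc h

/-- a zero close to the line `Re s = 1` is seen at its own height -/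
theorem seen {c : ℝ} (hc : c < 1 / 4) : ∃ θ < 1, ∀ s : ℂ, θ < s.re → 0 ≤ s.im → riemannZeta s = 0 →
    ∃ m : ℕ, c * Real.log s.im ≤ m ∧ Lm s.im m < 0 := by
  set c' : ℝ := max c (1 / 8) with hc'
  have hc'0 : 0 < c' := lt_of_lt_of_le (by norm_num) (le_max_right _ _)
  have hc'4 : c' < 1 / 4 := max_lt hc (by norm_num)
  obtain ⟨τ, hτ, X1, hX1⟩ := conv_core hc'0 hc'4
  obtain ⟨θ, hθ, hθ2⟩ := bounded_zeros (max X1 1)
  refine ⟨max (max θ (1 - τ)) (1 / 2), max_lt (max_lt hθ (by linarith)) (by norm_num), ?_⟩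
  intro s hs him h
  rw [max_lt_iff, max_lt_iff] at hs
  obtain ⟨⟨h1, h2⟩, h3⟩ := hs
  have hre1 : s.re < 1 := by
    by_contra hcon
    push Not at hcon
    exact riemannZeta_ne_zero_of_one_le_re hcon h
  have him2 : max X1 1 < s.im := by
    by_contra hcon
    push Not at hcon
    exact hθ2 s h1 (by rw [abs_of_nonneg him]; exact hcon) h
  rw [max_lt_iff] at him2
  obtain ⟨i2, i3⟩ := him2
  have e : (1 / 2 + ((s.re - 1 / 2 : ℝ) : ℂ) + s.im * I) = s := by
    apply Complex.ext <;> simp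
  obtain ⟨m, hm1, hm2⟩ := hX1 s.im (s.re - 1 / 2) i2.le (by linarith) (by linarith) (by
    rw [e, xi_eq (by linarith), (Zt_zero_iff (by linarith)).2 h, zero_mul])
  have hlog : 0 ≤ Real.log s.im := Real.log_nonneg i3.le
  exact ⟨m, (mul_le_mul_of_nonneg_right (le_max_left c (1 / 8)) hlog).trans hm1, hm2⟩

end Pool.Agent.Helper85.LG
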