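import Mathlib

set_option autoImplicit false
set_option maxHeartbeats 1000000

open Complex Filter Topology Set MeasureTheory

namespace Pool.Agent.Helper85.LG

lemma exp_sub_one_le (E : ℂ) : ‖cexp E - 1‖ ≤ ‖E‖ * Real.exp ‖E‖ := by
  have h := Complex.norm_exp_sub_sum_le_norm_mul_exp E 1
  simpa using h

lemma u_bounds (x : ℝ) (hx : 0 ≤ x) : x ≤ 20 * Real.exp (x / 20) ∧ x ^ 2 ≤ 800 * Real.exp (x / 20) := by
  have h1 := Real.add_one_le_exp (x / 20)
  have h2 := Real.quadratic_le_exp_of_nonneg (show 0 ≤ x / 20 by positivity)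
  constructor
  · nlinarith
  · nlinarith

/-- pointwise error bound near the saddle -/
lemma near {κ t : ℝ} (hκ : 10 ^ 9 ≤ κ) (ht : |t| ≤ 1 / 2) {E : ℂ}
    (hE : ‖E‖ ≤ κ * t ^ 2 / 1024 + 2 / 3 * κ * |t| ^ 3) :
    ‖cexp (-((κ * t ^ 2 / 2 : ℝ) : ℂ) + E) - ((Real.exp (-(κ * t ^ 2 / 2)) : ℝ) : ℂ)‖ ≤
      3 / 100 * Real.exp (-(κ / 10) * t ^ 2) := by
  have hκ0 : 0 < κ := by linarith [show (0 : ℝ) < 10 ^ 9 by norm_num]
  set x : ℝ := κ * t ^ 2 with hx
  have hx0 : 0 ≤ x := by positivity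
  obtain ⟨u1, u2⟩ := u_bounds x hx0
  have ht0 := abs_nonneg t
  have hts : |t| ^ 2 = t ^ 2 := sq_abs t
  -- the cubic term
  have hsq : κ * |t| ^ 3 ≤ (x + x ^ 2) / 2 / Real.sqrt κ := by
    have hs0 : 0 < Real.sqrt κ := Real.sqrt_pos.2 hκ0
    have hs : Real.sqrt κ ^ 2 = κ := Real.sq_sqrt hκ0.le
    rw [le_div_iff₀ hs0]
    have e : κ * |t| ^ 3 * Real.sqrt κ = (Real.sqrt κ * |t|) ^ 3 := by
      rw [mul_pow]
      have : Real.sqrt κ ^ 3 = κ * Real.sqrt κ := by rw [pow_succ, hs]
      rw [this]; ring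
    have ex : x = (Real.sqrt κ * |t|) ^ 2 := by rw [mul_pow, hs, hts]
    rw [e, ex]
    have hq : 0 ≤ Real.sqrt κ * |t| := by positivity
    nlinarith [mul_nonneg (pow_nonneg hq 2) (sq_nonneg (Real.sqrt κ * |t| - 1))]
  have hsk : 31000 ≤ Real.sqrt κ := by
    apply Real.le_sqrt_of_sq_le
    refine le_trans (by norm_num) hκ
  have hE1 : ‖E‖ ≤ 3 / 100 * Real.exp (x / 20) := by
    refine hE.trans ?_
    have h1 : x / 1024 ≤ 20 / 1024 * Real.exp (x / 20) := by linarith
    have h2 : (x + x ^ 2) / 2 / Real.sqrt κ ≤ 410 / 31000 * Real.exp (x / 20) := by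
      have hp := Real.exp_pos (x / 20)
      calc (x + x ^ 2) / 2 / Real.sqrt κ ≤ (410 * Real.exp (x / 20)) / 31000 := by
            apply div_le_div₀ (by positivity) (by linarith) (by norm_num) hsk
        _ = _ := by ring
    have hp := Real.exp_pos (x / 20)
    nlinarith
  have hE2 : ‖E‖ ≤ 34 / 100 * x := by
    refine hE.trans ?_
    have : κ * |t| ^ 3 ≤ x * (1 / 2) := by
      have : κ * |t| ^ 3 = x * |t| := by rw [hx, ← hts]; ring
      rw [this]
      exact mul_le_mul_of_nonneg_left ht hx0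
    nlinarith
  have e1 : cexp (-((x / 2 : ℝ) : ℂ) + E) - ((Real.exp (-(x / 2)) : ℝ) : ℂ) =
      ((Real.exp (-(x / 2)) : ℝ) : ℂ) * (cexp E - 1) := by
    rw [Complex.exp_add, Complex.ofReal_exp]
    push_cast
    ring
  rw [e1, norm_mul, Complex.norm_real, Real.norm_of_nonneg (Real.exp_pos _).le]
  calc Real.exp (-(x / 2)) * ‖cexp E - 1‖ ≤
      Real.exp (-(x / 2)) * (3 / 100 * Real.exp (x / 20) * Real.exp (34 / 100 * x)) := by
        apply mul_le_mul_of_nonneg_left _ (Real.exp_pos _).le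
        refine (exp_sub_one_le E).trans ?_
        exact mul_le_mul hE1 (Real.exp_le_exp.2 hE2) (Real.exp_pos _).le (by positivity)
    _ = 3 / 100 * Real.exp (-(x / 2) + x / 20 + 34 / 100 * x) := by
        rw [Real.exp_add, Real.exp_add]; ring
    _ ≤ _ := by
        apply mul_le_mul_of_nonneg_left _ (by norm_num)
        apply Real.exp_le_exp.2
        have : -(κ / 10) * t ^ 2 = -(x / 10) := by rw [hx]; ring
        rw [this]
        linarith

/-- positivity of a saddle point integral -/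
theorem pos_int {κ : ℝ} (hκ : 10 ^ 9 ≤ κ) {H : ℝ → ℂ} (hi : Integrable H)
    (h1 : ∀ t : ℝ, |t| ≤ 1 / 2 → ∃ E : ℂ, ‖E‖ ≤ κ * t ^ 2 / 1024 + 2 / 3 * κ * |t| ^ 3 ∧
      H t = cexp (-((κ * t ^ 2 / 2 : ℝ) : ℂ) + E))
    (h2 : ∀ t : ℝ, 1 / 2 ≤ |t| → ‖H t‖ ≤ 1 / 10 / Real.sqrt κ * (1 + t ^ 2)⁻¹) :
    0 < (∫ t, H t).re := by
  have hκ0 : 0 < κ := by linarith [show (0 : ℝ) < 10 ^ 9 by norm_num]
  have hs0 : 0 < Real.sqrt κ := Real.sqrt_pos.2 hκ0
  have hsk : 31000 ≤ Real.sqrt κ := by
    apply Real.le_sqrt_of_sq_le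
    refine le_trans (by norm_num) hκ
  have hss : Real.sqrt κ ^ 2 = κ := Real.sq_sqrt hκ0.le
  set r : ℝ := 1 / Real.sqrt κ with hr
  have hr0 : 0 < r := by positivity
  have hr2 : r < 1 / 2 := by
    rw [hr, div_lt_div_iff₀ hs0 (by norm_num)]
    linarith
  have hre : (∫ t, H t).re = ∫ t, (H t).re := by
    have := integral_re hi
    exact this.symm
  rw [hre]
  set L : ℝ → ℝ := fun t => (Icc (-r) r).indicator (fun _ => (6 / 10 : ℝ)) t -
    3 / 100 * Real.exp (-(κ / 10) * t ^ 2) - 1 / 10 / Real.sqrt κ * (1 + t ^ 2)⁻¹ with hL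
  have i1 : Integrable ((Icc (-r) r).indicator (fun _ => (6 / 10 : ℝ))) := by
    rw [integrable_indicator_iff measurableSet_Icc]
    exact integrableOn_const (by simp)
  have i2 : Integrable (fun t : ℝ => 3 / 100 * Real.exp (-(κ / 10) * t ^ 2)) :=
    (integrable_exp_neg_mul_sq (by positivity)).const_mul _
  have i3 : Integrable (fun t : ℝ => 1 / 10 / Real.sqrt κ * (1 + t ^ 2)⁻¹) :=
    integrable_inv_one_add_sq.const_mul _
  have hLi : Integrable L := (i1.sub i2).sub i3
  have hle : ∀ t, L t ≤ (H t).re := by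
    intro t
    have q1 : 0 < Real.exp (-(κ / 10) * t ^ 2) := Real.exp_pos _
    have q2 : 0 < (1 + t ^ 2)⁻¹ := by positivity
    have q3 : 0 < 1 / 10 / Real.sqrt κ * (1 + t ^ 2)⁻¹ := by positivity
    rcases le_or_gt |t| (1 / 2) with ht | ht
    · obtain ⟨E, hE, hH⟩ := h1 t ht
      have h3 := near hκ ht hE
      rw [← hH] at h3
      have h4 : Real.exp (-(κ * t ^ 2 / 2)) - (H t).re ≤ 3 / 100 * Real.exp (-(κ / 10) * t ^ 2) := by
        refine le_trans ?_ h3
        refine le_trans ?_ (abs_re_le_norm _)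
        rw [sub_re, ofReal_re]
        rw [abs_sub_comm]
        exact le_abs_self _
      have h5 : (Icc (-r) r).indicator (fun _ => (6 / 10 : ℝ)) t ≤ Real.exp (-(κ * t ^ 2 / 2)) := by
        by_cases hm : t ∈ Icc (-r) r
        · rw [indicator_of_mem hm]
          have h6 : |t| ≤ r := abs_le.2 hm
          have h7 : κ * t ^ 2 ≤ 1 := by
            have : t ^ 2 ≤ r ^ 2 := by
              rw [← sq_abs]
              exact pow_le_pow_left₀ (abs_nonneg t) h6 2
            have e : κ * r ^ 2 = 1 := by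
              rw [hr, div_pow, one_pow, hss]
              field_simp
            nlinarith
          have h8 := Real.add_one_le_exp (-(κ * t ^ 2 / 2) + 1 / 2)
          have h9 : Real.exp (-(1 / 2)) ≤ Real.exp (-(κ * t ^ 2 / 2)) :=
            Real.exp_le_exp.2 (by linarith)
          have h10 : (6 / 10 : ℝ) ≤ Real.exp (-(1 / 2)) := by
            rw [Real.exp_neg, le_inv_comm₀ (by norm_num) (Real.exp_pos _)]
            have : Real.exp (1 / 2) ^ 2 = Real.exp 1 := by
              rw [← Real.exp_nat_mul]; norm_num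
            have h11 := Real.exp_one_lt_d9
            have h12 : Real.exp (1 / 2) ^ 2 ≤ (5 / 3) ^ 2 := by
              rw [this]; linarith
            have := abs_le_of_sq_le_sq h12 (by norm_num)
            rw [abs_of_pos (Real.exp_pos _)] at this
            refine this.trans (by norm_num)
          linarith
        · rw [indicator_of_notMem hm]
          exact (Real.exp_pos _).le
      simp only [hL]
      linarith
    · have h3 := h2 t ht.le
      have h4 : -‖H t‖ ≤ (H t).re := by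
        have := abs_re_le_norm (H t)
        rw [abs_le] at this
        exact this.1
      have h5 : (Icc (-r) r).indicator (fun _ => (6 / 10 : ℝ)) t = 0 := by
        apply indicator_of_notMem
        intro hm
        have h6 : |t| ≤ r := abs_le.2 hm
        linarith
      simp only [hL]
      rw [h5]
      linarith
  have hpos : 0 < ∫ t, L t := by
    have e : ∫ t, L t = 6 / 10 * (2 * r) - 3 / 100 * Real.sqrt (Real.pi / (κ / 10)) -
        1 / 10 / Real.sqrt κ * Real.pi := by
      have a1 : ∫ t, L t = (∫ t : ℝ, ((Icc (-r) r).indicator (fun _ => (6 / 10 : ℝ)) t -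
          3 / 100 * Real.exp (-(κ / 10) * t ^ 2))) - ∫ t : ℝ, 1 / 10 / Real.sqrt κ * (1 + t ^ 2)⁻¹ :=
        integral_sub (i1.sub i2) i3
      have a2 : (∫ t : ℝ, ((Icc (-r) r).indicator (fun _ => (6 / 10 : ℝ)) t -
          3 / 100 * Real.exp (-(κ / 10) * t ^ 2))) =
          (∫ t : ℝ, (Icc (-r) r).indicator (fun _ => (6 / 10 : ℝ)) t) -
            ∫ t : ℝ, 3 / 100 * Real.exp (-(κ / 10) * t ^ 2) := integral_sub i1 i2
      have a3 : (∫ t : ℝ, (Icc (-r) r).indicator (fun _ => (6 / 10 : ℝ)) t) = 6 / 10 * (2 * r) := by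
        rw [integral_indicator measurableSet_Icc, setIntegral_const, measureReal_def,
          Real.volume_Icc, smul_eq_mul, ENNReal.toReal_ofReal (by linarith)]
        ring
      rw [a1, a2, a3, integral_const_mul, integral_const_mul,
        integral_gaussian, integral_univ_inv_one_add_sq]
    rw [e]
    have hpi := Real.pi_lt_d2
    have h3 : Real.sqrt (Real.pi / (κ / 10)) ≤ 6 * r := by
      rw [Real.sqrt_le_left (by positivity)]
      have : (6 * r) ^ 2 = 36 / κ := by
        rw [mul_pow, hr, div_pow, one_pow, hss]; ring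
      rw [this]
      have e2 : Real.pi / (κ / 10) = 10 * Real.pi / κ := by
        field_simp
      rw [e2]
      apply div_le_div_of_nonneg_right _ hκ0.le
      linarith
    have h4 : 1 / 10 / Real.sqrt κ * Real.pi = 1 / 10 * Real.pi * r := by rw [hr]; ring
    rw [h4]
    have h5 : Real.pi * r ≤ 3.15 * r := mul_le_mul_of_nonneg_right hpi.le hr0.le
    nlinarith
  exact hpos.trans_le (integral_mono hLi hi.re hle)

end Pool.Agent.Helper85.LG
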