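import Pool.Agent.Helper85.LG.Xi
import Pool.Agent.Helper85.LG.Int

set_option autoImplicit false
set_option maxHeartbeats 1000000

open Complex Filter Topology Set MeasureTheory

namespace Pool.Agent.Helper85.LG

/-- exponential form along a vertical segment -/
lemma seg {f : ℂ → ℂ} {s : ℂ} {T B : ℝ} (hB : 0 ≤ B) (hT : 0 < T) (hf : Differentiable ℂ f)
    (hne : ∀ τ : ℝ, |τ| ≤ T → f (s + τ * I) ≠ 0)
    (hl : ∀ τ : ℝ, |τ| ≤ T → ‖logDeriv f (s + τ * I) - logDeriv f s‖ ≤ B * |τ|) (v : ℝ) (hv : |v| ≤ T) :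
    ∃ R : ℂ, ‖R‖ ≤ B * v ^ 2 ∧ f (s + v * I) = f s * cexp (I * v * logDeriv f s + R) := by
  set P : ℝ → ℝ := fun τ => max (-T) (min T τ) with hP
  have hPc : Continuous P := by rw [hP]; fun_prop
  have hPT : ∀ τ, |P τ| ≤ T := fun τ => by
    rw [hP, abs_le]
    exact ⟨le_max_left _ _, max_le (by linarith) (min_le_left _ _)⟩
  have hPe : ∀ τ, |τ| ≤ T → P τ = τ := fun τ hτ => by
    rw [abs_le] at hτ
    simp only [hP]
    rw [min_eq_right hτ.2, max_eq_right hτ.1]
  set c : ℝ → ℂ := fun τ => I * (logDeriv f (s + (P τ : ℝ) * I) - logDeriv f s) with hc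
  have hlc : Continuous (fun τ : ℝ => logDeriv f (s + (P τ : ℝ) * I)) := by
    have hd : Continuous (deriv f) := (hf.contDiff (n := 1)).continuous_deriv le_rfl
    have e : (fun τ : ℝ => logDeriv f (s + (P τ : ℝ) * I)) =
        fun τ : ℝ => deriv f (s + (P τ : ℝ) * I) / f (s + (P τ : ℝ) * I) := by
      funext τ; rw [logDeriv_apply]
    rw [e]
    exact (hd.comp (by fun_prop)).div (hf.continuous.comp (by fun_prop)) (fun τ => hne _ (hPT τ))
  have hcc : Continuous c := by
    rw [hc]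
    exact continuous_const.mul (hlc.sub continuous_const)
  set R : ℝ → ℂ := fun v => ∫ τ in (0 : ℝ)..v, c τ with hR
  have hRd : ∀ v : ℝ, HasDerivAt R (c v) v := fun v =>
    intervalIntegral.integral_hasDerivAt_right (hcc.intervalIntegrable _ _)
      (hcc.stronglyMeasurableAtFilter _ _) hcc.continuousAt
  refine ⟨R v, ?_, ?_⟩
  · have h1 := intervalIntegral.norm_integral_le_of_norm_le_const (a := 0) (b := v) (f := c)
      (C := B * |v|) ?_
    · refine h1.trans (le_of_eq ?_)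
      rw [sub_zero, mul_assoc, ← sq, sq_abs]
    · intro τ hτ
      have hτv : |τ| ≤ |v| := by
        rcases le_total 0 v with h0 | h0
        · rw [uIoc_of_le h0] at hτ
          rw [abs_of_pos hτ.1, abs_of_nonneg h0]
          exact hτ.2
        · rw [uIoc_of_ge h0] at hτ
          rw [abs_of_nonpos hτ.2, abs_of_nonpos h0]
          linarith [hτ.1]
      simp only [hc]
      rw [norm_mul, norm_I, one_mul, hPe τ (hτv.trans hv)]
      refine (hl τ (hτv.trans hv)).trans ?_
      exact mul_le_mul_of_nonneg_left hτv hB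
  · set φ : ℝ → ℂ := fun v => f (s + v * I) * cexp (-(I * v * logDeriv f s + R v)) with hφ
    have hφd : ∀ v : ℝ, |v| ≤ T → HasDerivAt φ 0 v := by
      intro v hv
      have h1 : HasDerivAt (fun w : ℂ => f (s + w * I)) (deriv f (s + v * I) * I) (v : ℂ) := by
        have h2 : HasDerivAt (fun w : ℂ => s + w * I) I (v : ℂ) := by
          have := ((hasDerivAt_id (v : ℂ)).mul_const I).const_add s
          simpa using this
        exact HasDerivAt.comp (v : ℂ) (hf (s + v * I)).hasDerivAt h2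
      have h3 := h1.comp_ofReal
      have h4 : HasDerivAt (fun v : ℝ => -(I * v * logDeriv f s + R v)) (-(I * logDeriv f s + c v)) v := by
        have h5 : HasDerivAt (fun v : ℝ => I * v * logDeriv f s) (I * logDeriv f s) v := by
          have := ((Complex.ofRealCLM.hasDerivAt (x := v)).const_mul I).mul_const (logDeriv f s)
          simpa using this
        exact (h5.add (hRd v)).neg
      have h6 := h3.mul h4.cexp
      refine h6.congr_deriv ?_
      simp only [hc]
      rw [hPe v hv, logDeriv_apply f (s + v * I)]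
      have := hne v hv
      field_simp
      ring
    have hconst : φ v = φ 0 := by
      have h := (convex_Icc (-T) T).norm_image_sub_le_of_norm_hasDerivWithin_le (f := φ)
        (f' := fun _ => 0) (C := 0) (x := 0) (y := v)
        (fun u hu => (hφd u (abs_le.2 hu)).hasDerivWithinAt) (fun u _ => by simp)
        ⟨by linarith, by linarith⟩ (abs_le.1 hv)
      rw [zero_mul] at h
      exact sub_eq_zero.1 (norm_le_zero_iff.1 h)
    simp only [hφ] at hconst
    have hR0 : R 0 = 0 := by simp [hR]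
    rw [hR0] at hconst
    simp only [ofReal_zero, zero_mul, mul_zero, add_zero, neg_zero, Complex.exp_zero, mul_one] at hconst
    rw [← hconst, Complex.exp_neg]
    have := Complex.exp_ne_zero (I * v * logDeriv f s + R v)
    field_simp

lemma log_expand {t : ℝ} (ht : |t| ≤ 1 / 2) : ∃ E : ℂ, ‖E‖ ≤ 2 / 3 * |t| ^ 3 ∧
    (1 + t * I : ℂ) = cexp (t * I + ((t ^ 2 / 2 : ℝ) : ℂ) + E) := by
  have hn : ‖(t * I : ℂ)‖ = |t| := by simp
  have h1 := Complex.norm_log_sub_logTaylor_le 2 (z := t * I) (by rw [hn]; linarith)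
  refine ⟨log (1 + t * I) - logTaylor 3 (t * I), ?_, ?_⟩
  · refine h1.trans ?_
    rw [hn]
    have h2 : (1 - |t|)⁻¹ ≤ 2 := by
      rw [inv_le_comm₀ (by linarith) (by norm_num)]
      linarith
    have h3 : 0 ≤ |t| ^ 3 := by positivity
    have h0 : 0 ≤ (1 - |t|)⁻¹ := inv_nonneg.2 (by linarith)
    norm_num
    nlinarith
  · have h2 : logTaylor 3 (t * I) = t * I + ((t ^ 2 / 2 : ℝ) : ℂ) := by
      simp [logTaylor, Finset.sum_range_succ]
      ring_nf
      rw [I_sq]
      ring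
    rw [h2, add_sub_cancel, Complex.exp_log]
    intro h
    have := congrArg re h
    simp at this

/-- the shifted conjugate point -/
lemma logDeriv_conj (s : ℂ) : logDeriv xi ((starRingEnd ℂ) s) = (starRingEnd ℂ) (logDeriv xi s) := by
  rw [logDeriv_apply, logDeriv_apply, map_div₀, xi_conj]
  congr 1
  have h : HasDerivAt (fun w => starRingEnd ℂ (xi (starRingEnd ℂ w))) (starRingEnd ℂ (deriv xi s))
      (starRingEnd ℂ s) := by
    have := (xi_diff s).hasDerivAt
    exact this.conj_conj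
  have e : (fun w => starRingEnd ℂ (xi (starRingEnd ℂ w))) = xi := by
    funext w
    rw [xi_conj, Complex.conj_conj]
  rw [e] at h
  exact h.deriv

/-- Positivity of the coefficient from a saddle point on the real axis. -/
theorem saddle_pos {x y B : ℝ} {m : ℕ} (hy : 0 < y) (hm : (10 : ℝ) ^ 9 ≤ 2 * m + 1) (hB : 0 ≤ B)
    (hne : ∀ τ : ℝ, |τ| ≤ y / 2 → xi (1 / 2 + y + (x + τ : ℝ) * I) ≠ 0)
    (hsad : y * (2 * (logDeriv xi (1 / 2 + y + x * I)).re) = 2 * m + 1)
    (hlip : ∀ τ : ℝ, |τ| ≤ y / 2 →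
      ‖logDeriv xi (1 / 2 + y + (x + τ : ℝ) * I) - logDeriv xi (1 / 2 + y + x * I)‖ ≤ B * |τ|)
    (hBs : 2048 * B * y ^ 2 ≤ 2 * m + 1)
    (htail : ∀ t : ℝ, 1 / 2 ≤ |t| →
      ‖xi (1 / 2 + y + (x + y * t : ℝ) * I)‖ * ‖xi (1 / 2 + y + (x - y * t : ℝ) * I)‖ *
        (Real.sqrt (2 * m + 1) * 10) ≤ (1 + t ^ 2) ^ (m - 1 : ℝ) * ‖xi (1 / 2 + y + x * I)‖ ^ 2) :
    0 < (tc (G x) (2 * m)).re := by
  set κ : ℝ := 2 * m + 1 with hκ
  have hκ0 : 0 < κ := by linarith [show (0 : ℝ) < 10 ^ 9 by norm_num]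
  set s : ℂ := 1 / 2 + y + x * I with hs
  have hsne : xi s ≠ 0 := by
    have := hne 0 (by rw [abs_zero]; positivity)
    rwa [add_zero] at this
  have hN : 0 < ‖xi s‖ := norm_pos_iff.2 hsne
  have hm3 : 3 ≤ m := by
    have : (3 : ℝ) ≤ m := by
      have : (10 : ℝ) ^ 9 = 1000000000 := by norm_num
      rw [hκ] at hm
      linarith
    exact_mod_cast this
  obtain ⟨K, hK0, hK⟩ := G_bound x hy
  have hline := coef_line (G_diff x) (G_even x) hy hK0 hK hm3
  have hlint := line_int (G_diff x) hy hK0 hK hm3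
  set g : ℝ → ℂ := fun v => G x (y + v * I) / (y + v * I) ^ (2 * m + 1) with hg
  -- the normalised integrand
  set c : ℝ := y ^ (2 * m + 1) / ‖xi s‖ ^ 2 with hcdef
  have hc0 : 0 < c := by positivity
  set H : ℝ → ℂ := fun t => c * g (y * t) with hH
  have hHi : Integrable H := by
    have := hlint.comp_mul_left' hy.ne'
    exact this.const_mul _
  have hHint : ∫ t, H t = (c * y⁻¹ * Real.pi : ℝ) * tc (G x) (2 * m) := by
    have e1 : ∫ t, H t = c * ∫ t, g (y * t) := integral_const_mul _ _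
    rw [e1, Measure.integral_comp_mul_left g y, hline, abs_of_pos (inv_pos.2 hy)]
    simp only [real_smul]
    push_cast
    ring
  -- values of H
  have hHv : ∀ t : ℝ, H t = (xi (s + (y * t : ℝ) * I) * xi ((starRingEnd ℂ) s + (y * t : ℝ) * I)) /
      ((‖xi s‖ ^ 2 : ℝ) : ℂ) / (1 + t * I) ^ (2 * m + 1) := by
    intro t
    simp only [hH, hg, G, hcdef]
    have e1 : (1 / 2 + ((y : ℂ) + ((y * t : ℝ) : ℂ) * I) + x * I) = s + (y * t : ℝ) * I := by
      rw [hs]; ring
    have e2 : (1 / 2 + ((y : ℂ) + ((y * t : ℝ) : ℂ) * I) - x * I) = (starRingEnd ℂ) s + (y * t : ℝ) * I := by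
      have : (starRingEnd ℂ) s = 1 / 2 + y - x * I := by
        rw [hs]; apply Complex.ext <;> simp
      rw [this]; ring
    have e3 : ((y : ℂ) + ((y * t : ℝ) : ℂ) * I) = y * (1 + t * I) := by push_cast; ring
    rw [e1, e2, e3, mul_pow]
    have h1 : (1 + t * I : ℂ) ≠ 0 := by
      intro h
      have := congrArg re h
      simp at this
    have h2 : (y : ℂ) ≠ 0 := by exact_mod_cast hy.ne'
    push_cast
    have h3 : ((‖xi s‖ : ℝ) : ℂ) ≠ 0 := by exact_mod_cast hN.ne'
    field_simp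
  have hpos : 0 < (∫ t, H t).re := by
    refine pos_int hm hHi ?_ ?_
    · intro t ht
      have hyt : |y * t| ≤ y / 2 := by
        rw [abs_mul, abs_of_pos hy]
        nlinarith
      have hl1 : ∀ τ : ℝ, |τ| ≤ y / 2 → ‖logDeriv xi (s + τ * I) - logDeriv xi s‖ ≤ B * |τ| := by
        intro τ hτ
        have := hlip τ hτ
        have e : (1 / 2 + y + ((x + τ : ℝ) : ℂ) * I) = s + τ * I := by rw [hs]; push_cast; ring
        rwa [e] at this
      have hl2 : ∀ τ : ℝ, |τ| ≤ y / 2 → ‖logDeriv xi ((starRingEnd ℂ) s + τ * I) -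
          logDeriv xi ((starRingEnd ℂ) s)‖ ≤ B * |τ| := by
        intro τ hτ
        have h1 := hl1 (-τ) (by rwa [abs_neg])
        have e : (starRingEnd ℂ) s + τ * I = (starRingEnd ℂ) (s + ((-τ : ℝ) : ℂ) * I) := by
          apply Complex.ext <;> simp
        rw [e, logDeriv_conj, logDeriv_conj, ← map_sub, Complex.norm_conj]
        rwa [abs_neg] at h1
      have hne1 : ∀ τ : ℝ, |τ| ≤ y / 2 → xi (s + τ * I) ≠ 0 := by
        intro τ hτ
        have := hne τ hτ
        have e : (1 / 2 + y + ((x + τ : ℝ) : ℂ) * I) = s + τ * I := by rw [hs]; push_cast; ring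
        rwa [e] at this
      have hne2 : ∀ τ : ℝ, |τ| ≤ y / 2 → xi ((starRingEnd ℂ) s + τ * I) ≠ 0 := by
        intro τ hτ h
        have e : (starRingEnd ℂ) s + τ * I = (starRingEnd ℂ) (s + ((-τ : ℝ) : ℂ) * I) := by
          apply Complex.ext <;> simp
        rw [e, xi_conj] at h
        exact hne1 (-τ) (by rwa [abs_neg]) ((map_eq_zero _).1 h)
      obtain ⟨R1, hR1, h1⟩ := seg hB (half_pos hy) xi_diff hne1 hl1 (y * t) hyt
      obtain ⟨R2, hR2, h2⟩ := seg hB (half_pos hy) xi_diff hne2 hl2 (y * t) hyt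
      obtain ⟨E, hE, h3⟩ := log_expand ht
      refine ⟨R1 + R2 - κ * E, ?_, ?_⟩
      · have n1 := norm_sub_le (R1 + R2) ((κ : ℂ) * E)
        have n2 := norm_add_le R1 R2
        rw [norm_mul, Complex.norm_real, Real.norm_of_nonneg hκ0.le] at n1
        have n3 : B * (y * t) ^ 2 + B * (y * t) ^ 2 ≤ κ * t ^ 2 / 1024 := by
          have := mul_le_mul_of_nonneg_right hBs (sq_nonneg t)
          nlinarith
        have n4 : κ * ‖E‖ ≤ κ * (2 / 3 * |t| ^ 3) := mul_le_mul_of_nonneg_left hE hκ0.le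
        nlinarith
      · rw [hHv t, h1, h2, xi_conj]
        have hconjl : logDeriv xi ((starRingEnd ℂ) s) = (starRingEnd ℂ) (logDeriv xi s) := logDeriv_conj s
        rw [hconjl]
        have h4 : (1 + t * I : ℂ) ^ (2 * m + 1) = cexp (κ * (t * I + ((t ^ 2 / 2 : ℝ) : ℂ) + E)) := by
          rw [h3, ← Complex.exp_nat_mul, hκ]
          push_cast
          rfl
        rw [h4]
        have h5 : xi s * (starRingEnd ℂ) (xi s) = ((‖xi s‖ ^ 2 : ℝ) : ℂ) := by
          rw [mul_conj, normSq_eq_norm_sq]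
        have h6 : ((‖xi s‖ ^ 2 : ℝ) : ℂ) ≠ 0 := by exact_mod_cast (by positivity : ‖xi s‖ ^ 2 ≠ 0)
        have h7 : logDeriv xi s + (starRingEnd ℂ) (logDeriv xi s) = ((κ / y : ℝ) : ℂ) := by
          rw [add_conj]
          have : 2 * (logDeriv xi s).re = κ / y := by
            rw [eq_div_iff hy.ne']
            linarith
          rw [← this]
        have h8 : (xi s * cexp (I * ((y * t : ℝ) : ℂ) * logDeriv xi s + R1) *
            ((starRingEnd ℂ) (xi s) * cexp (I * ((y * t : ℝ) : ℂ) * (starRingEnd ℂ) (logDeriv xi s) + R2))) =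
            ((‖xi s‖ ^ 2 : ℝ) : ℂ) * cexp (I * (κ * t : ℝ) + R1 + R2) := by
          rw [← h5]
          have h9 : I * ((κ * t : ℝ) : ℂ) = I * ((y * t : ℝ) : ℂ) * logDeriv xi s +
              I * ((y * t : ℝ) : ℂ) * (starRingEnd ℂ) (logDeriv xi s) := by
            rw [← mul_add, h7, mul_assoc, ← ofReal_mul]
            congr 2
            field_simp
          rw [h9]
          have : I * ((y * t : ℝ) : ℂ) * logDeriv xi s +
              I * ((y * t : ℝ) : ℂ) * (starRingEnd ℂ) (logDeriv xi s) + R1 + R2 =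
              (I * ((y * t : ℝ) : ℂ) * logDeriv xi s + R1) +
              (I * ((y * t : ℝ) : ℂ) * (starRingEnd ℂ) (logDeriv xi s) + R2) := by ring
          rw [this, Complex.exp_add (I * ((y * t : ℝ) : ℂ) * logDeriv xi s + R1)
            (I * ((y * t : ℝ) : ℂ) * (starRingEnd ℂ) (logDeriv xi s) + R2)]
          ring
        rw [h8, mul_div_cancel_left₀ _ h6, ← Complex.exp_sub]
        congr 1
        push_cast
        ring
    · intro t ht
      rw [hHv t]
      have e1 : ((starRingEnd ℂ) s + ((y * t : ℝ) : ℂ) * I) =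
          (starRingEnd ℂ) (1 / 2 + y + (x - y * t : ℝ) * I) := by
        rw [hs]; apply Complex.ext <;> simp
        ring
      have e2 : s + ((y * t : ℝ) : ℂ) * I = 1 / 2 + y + (x + y * t : ℝ) * I := by
        rw [hs]; push_cast; ring
      rw [e1, e2, xi_conj, norm_div, norm_div, norm_mul, Complex.norm_conj, Complex.norm_real,
        Real.norm_of_nonneg (by positivity), norm_pow]
      have h1 := htail t ht
      have h3 : ‖(1 + t * I : ℂ)‖ ^ (2 * m + 1) = (1 + t ^ 2) ^ ((m : ℝ) + 1 / 2) := by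
        have h4 : ‖(1 + t * I : ℂ)‖ = (1 + t ^ 2) ^ (1 / 2 : ℝ) := by
          rw [← Real.sqrt_eq_rpow, Complex.norm_def]
          congr 1
          rw [normSq_apply]
          simp
          ring
        rw [h4, ← Real.rpow_natCast, ← Real.rpow_mul (by positivity)]
        congr 1
        push_cast
        ring
      rw [h3]
      have hp : 0 < 1 + t ^ 2 := by positivity
      have hq : 0 < Real.sqrt κ := Real.sqrt_pos.2 hκ0
      have h5 : ‖xi (1 / 2 + ↑y + ↑(x + y * t) * I)‖ * ‖xi (1 / 2 + ↑y + ↑(x - y * t) * I)‖ / ‖xi s‖ ^ 2 ≤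
          (1 + t ^ 2) ^ (m - 1 : ℝ) / (10 * Real.sqrt κ) := by
        rw [div_le_div_iff₀ (by positivity) (by positivity)]
        linarith
      have h6 : (1 + t ^ 2) ^ ((m : ℝ) + 1 / 2) = (1 + t ^ 2) ^ (m - 1 : ℝ) * (1 + t ^ 2) * (1 + t ^ 2) ^ (1 / 2 : ℝ) := by
        have : ((m : ℝ) + 1 / 2) = (m - 1 : ℝ) + 1 + 1 / 2 := by ring
        rw [this, Real.rpow_add hp, Real.rpow_add hp, Real.rpow_one]
      have h7 : 1 ≤ (1 + t ^ 2) ^ (1 / 2 : ℝ) := Real.one_le_rpow (by nlinarith [sq_nonneg t]) (by norm_num)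
      rw [div_le_iff₀ (by positivity)]
      refine h5.trans ?_
      rw [h6]
      have h8 : 0 < (1 + t ^ 2) ^ (m - 1 : ℝ) := Real.rpow_pos_of_pos hp _
      have e3 : 1 / 10 / Real.sqrt κ * (1 + t ^ 2)⁻¹ *
          ((1 + t ^ 2) ^ (m - 1 : ℝ) * (1 + t ^ 2) * (1 + t ^ 2) ^ (1 / 2 : ℝ)) =
          (1 + t ^ 2) ^ (m - 1 : ℝ) / (10 * Real.sqrt κ) * (1 + t ^ 2) ^ (1 / 2 : ℝ) := by
        field_simp
      rw [e3]
      have h10 : 0 ≤ (1 + t ^ 2) ^ (m - 1 : ℝ) / (10 * Real.sqrt κ) := by positivity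
      nlinarith
  rw [hHint, Complex.re_ofReal_mul] at hpos
  have hcc : 0 < c * y⁻¹ * Real.pi := by positivity
  exact (mul_pos_iff_of_pos_left hcc).1 hpos

end Pool.Agent.Helper85.LG
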