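import Pool.Agent.Helper85.LG.Ser
import Pool.Agent.Helper85.LG.Mu

set_option autoImplicit false
set_option maxHeartbeats 1000000

open Complex Filter Topology Set
open Pool.Agent.H306R2 (Zt)

namespace Pool.Agent.Helper85.LG

lemma Pg_logDeriv {s : ℂ} (hs : 0 < s.re) :
    logDeriv Pg s = - (Real.log Real.pi : ℂ) / 2 + logDeriv Gamma (1 + s / 2) / 2 := by
  have hpi0 : (Real.pi : ℂ) ≠ 0 := by exact_mod_cast Real.pi_pos.ne'
  have hsne : ∀ m : ℕ, (1 + s / 2 : ℂ) ≠ -m := by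
    intro m h
    have := congrArg re h
    simp at this
    have h0 : (0 : ℝ) ≤ m := Nat.cast_nonneg m
    linarith
  have hd2 : HasDerivAt (fun s : ℂ => (Real.pi : ℂ) ^ (-s / 2))
      ((Real.pi : ℂ) ^ (-s / 2) * Complex.log Real.pi * (-1 / 2)) s := by
    have h1 : HasDerivAt (fun s : ℂ => -s / 2) (-1 / 2) s := ((hasDerivAt_id s).neg).div_const 2
    exact h1.const_cpow (Or.inl hpi0)
  have hd3 : HasDerivAt (fun s : ℂ => Complex.Gamma (1 + s / 2))
      (deriv Complex.Gamma (1 + s / 2) * (1 / 2)) s := by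
    have h1 : HasDerivAt (fun s : ℂ => 1 + s / 2) (1 / 2) s :=
      ((hasDerivAt_id s).div_const 2).const_add 1
    exact (Complex.differentiableAt_Gamma _ hsne).hasDerivAt.comp s h1
  have hg0 : Gamma (1 + s / 2) ≠ 0 := Gamma_ne_zero_of_re_pos (by simp; linarith)
  have hp0 : (Real.pi : ℂ) ^ (-s / 2) ≠ 0 := by
    rw [Complex.cpow_def_of_ne_zero hpi0]
    exact exp_ne_zero _
  have hd := hd2.mul hd3
  have : deriv Pg s = (Real.pi : ℂ) ^ (-s / 2) * Complex.log Real.pi * (-1 / 2) * Gamma (1 + s / 2) +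
      (Real.pi : ℂ) ^ (-s / 2) * (deriv Complex.Gamma (1 + s / 2) * (1 / 2)) := hd.deriv
  rw [logDeriv_apply, this, logDeriv_apply, Pg, Complex.ofReal_log Real.pi_pos.le]
  generalize Gamma (1 + s / 2) = g at *
  generalize deriv Gamma (1 + s / 2) = g' at *
  generalize (Real.pi : ℂ) ^ (-s / 2) = p at *
  generalize log (Real.pi : ℂ) = l at *
  field_simp

/-- the logarithm of the modulus along a horizontal line -/
lemma hasDerivAt_log_norm_sq {f : ℂ → ℂ} {x σ : ℝ} (hf : DifferentiableAt ℂ f (σ + x * I))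
    (h0 : f (σ + x * I) ≠ 0) :
    HasDerivAt (fun σ : ℝ => Real.log (‖f (σ + x * I)‖ ^ 2)) (2 * (logDeriv f (σ + x * I)).re) σ := by
  set s : ℂ := σ + x * I with hs
  have h1 : HasDerivAt (fun w : ℂ => f (w + x * I)) (deriv f s) (σ : ℂ) := by
    have h2 : HasDerivAt (fun w : ℂ => w + x * I) 1 (σ : ℂ) := (hasDerivAt_id _).add_const _
    have h6 := HasDerivAt.comp (σ : ℂ) (h₂ := f) (h₂' := deriv f s) (h := fun w : ℂ => w + x * I)
      (by show HasDerivAt f (deriv f s) (σ + x * I); rw [← hs]; exact hf.hasDerivAt) h2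
    rw [mul_one] at h6
    exact h6
  have h3 := h1.comp_ofReal
  have h4 := h3.norm_sq
  have hn : ‖f s‖ ^ 2 ≠ 0 := by
    have := norm_pos_iff.2 h0
    positivity
  have h5 := h4.log (by exact hn)
  refine h5.congr_deriv ?_
  rw [Complex.inner, logDeriv_apply]
  have e : (deriv f s / f s).re = ((starRingEnd ℂ) (f s) * deriv f s).re / ‖f s‖ ^ 2 := by
    rw [Complex.div_re, ← normSq_eq_norm_sq, Complex.mul_re, conj_re, conj_im]
    ring
  rw [e, mul_div_assoc, ← hs, mul_comm (deriv f s)]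

lemma Pg_ratio : ∃ C : ℝ, 0 ≤ C ∧ ∀ x σ1 σ2 : ℝ, 1 ≤ x → 1 / 2 ≤ σ1 → σ1 ≤ σ2 → σ2 ≤ 2 →
    ‖Pg (σ2 + x * I)‖ ^ 2 ≤ Real.exp C * x ^ (σ2 - σ1) * ‖Pg (σ1 + x * I)‖ ^ 2 ∧
    x ^ (σ2 - σ1) * ‖Pg (σ1 + x * I)‖ ^ 2 ≤ Real.exp C * ‖Pg (σ2 + x * I)‖ ^ 2 := by
  obtain ⟨C, hC1, hC⟩ := psi_re
  refine ⟨2 * (C + 4), by linarith, fun x σ1 σ2 hx h1 h12 h2 => ?_⟩
  have hx0 : 0 < x := by linarith
  set h : ℝ → ℝ := fun σ => Real.log (‖Pg (σ + x * I)‖ ^ 2) - σ * Real.log x with hh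
  have hne : ∀ σ : ℝ, 1 / 2 ≤ σ → Pg (σ + x * I) ≠ 0 := fun σ hσ => Pg_ne (by simp; linarith)
  have hder : ∀ σ ∈ Icc (1 / 2 : ℝ) 2, HasDerivWithinAt h
      (2 * (logDeriv Pg (σ + x * I)).re - Real.log x) (Icc (1 / 2 : ℝ) 2) σ := by
    intro σ hσ
    have d1 := hasDerivAt_log_norm_sq (f := Pg) (x := x) (σ := σ)
      (Pg_diffAt (by simp; linarith [hσ.1])) (hne σ hσ.1)
    have d2 : HasDerivAt (fun σ : ℝ => σ * Real.log x) (Real.log x) σ := by
      simpa using (hasDerivAt_id σ).mul_const (Real.log x)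
    exact (d1.sub d2).hasDerivWithinAt
  have hbd : ∀ σ ∈ Icc (1 / 2 : ℝ) 2, ‖2 * (logDeriv Pg (σ + x * I)).re - Real.log x‖ ≤ C + 4 := by
    intro σ hσ
    rw [Pg_logDeriv (by simp; linarith [hσ.1])]
    have e : 2 * (-(Real.log Real.pi : ℂ) / 2 + logDeriv Gamma (1 + (σ + x * I) / 2) / 2).re =
        -Real.log Real.pi + (logDeriv Gamma (1 + (σ + x * I) / 2)).re := by
      simp; ring
    rw [e]
    have hp := hC (1 + (σ + x * I) / 2) (by simp; linarith [hσ.1])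
    have hn1 : x / 2 ≤ ‖(1 + (σ + x * I) / 2 + 2 : ℂ)‖ := by
      have := Complex.abs_im_le_norm (1 + (σ + x * I) / 2 + 2 : ℂ)
      simp at this
      rw [abs_of_nonneg (by linarith : 0 ≤ x / 2)] at this
      exact this
    have hn2 : ‖(1 + (σ + x * I) / 2 + 2 : ℂ)‖ ≤ 5 * x := by
      have := Complex.norm_le_abs_re_add_abs_im (1 + (σ + x * I) / 2 + 2 : ℂ)
      simp at this
      rw [abs_of_nonneg (by linarith : 0 ≤ x / 2), abs_of_nonneg (by linarith [hσ.1])] at this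
      linarith [hσ.2]
    have hl1 := Real.log_le_log (by positivity) hn1
    have hl2 := Real.log_le_log (by linarith) hn2
    rw [Real.log_div hx0.ne' (by norm_num)] at hl1
    rw [Real.log_mul (by norm_num) hx0.ne'] at hl2
    have hlog2 : Real.log 2 ≤ 1 := by linarith [Real.log_two_lt_d9]
    have hlog5 : Real.log 5 ≤ 2 := by
      rw [Real.log_le_iff_le_exp (by norm_num)]
      have h2 : Real.exp 2 = Real.exp 1 * Real.exp 1 := by rw [← Real.exp_add]; norm_num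
      have := Real.exp_one_gt_d9
      nlinarith
    have hlogpi : Real.log Real.pi ≤ 2 := by
      rw [Real.log_le_iff_le_exp Real.pi_pos]
      have h2 : Real.exp 2 = Real.exp 1 * Real.exp 1 := by rw [← Real.exp_add]; norm_num
      have := Real.exp_one_gt_d9
      have := Real.pi_lt_d2
      nlinarith
    have hlogpi0 : 0 ≤ Real.log Real.pi := Real.log_nonneg (by linarith [Real.pi_gt_three])
    rw [abs_le] at hp
    rw [Real.norm_eq_abs, abs_le]
    constructor <;> linarith [hp.1, hp.2]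
  have hmv := (convex_Icc (1 / 2 : ℝ) 2).norm_image_sub_le_of_norm_hasDerivWithin_le hder hbd
    ⟨h1, by linarith⟩ ⟨by linarith, h2⟩
  have hs : ‖σ2 - σ1‖ ≤ 2 := by
    rw [Real.norm_of_nonneg (by linarith)]; linarith
  have hmv2 : |h σ2 - h σ1| ≤ 2 * (C + 4) := by
    rw [← Real.norm_eq_abs]
    refine hmv.trans ?_
    nlinarith
  have hp1 : 0 < ‖Pg (σ1 + x * I)‖ ^ 2 := by
    have := norm_pos_iff.2 (hne σ1 h1)
    positivity
  have hp2 : 0 < ‖Pg (σ2 + x * I)‖ ^ 2 := by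
    have := norm_pos_iff.2 (hne σ2 (by linarith))
    positivity
  have hxp : 0 < x ^ (σ2 - σ1) := Real.rpow_pos_of_pos hx0 _
  rw [abs_le] at hmv2
  simp only [hh] at hmv2
  constructor
  · rw [← Real.log_le_log_iff hp2 (by positivity), Real.log_mul (by positivity) (by positivity),
      Real.log_mul (Real.exp_pos _).ne' (by positivity), Real.log_exp, Real.log_rpow hx0]
    linarith [hmv2.2]
  · rw [← Real.log_le_log_iff (by positivity) (by positivity), Real.log_mul (by positivity) (by positivity),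
      Real.log_mul (Real.exp_pos _).ne' (by positivity), Real.log_exp, Real.log_rpow hx0]
    linarith [hmv2.1]

/-- bounds for the Laguerre coefficients -/
theorem Lm_bound : ∀ ε > 0, ∃ s0 > 0, ∀ s : ℝ, 0 < s → s < s0 → s < 1 / 4 → ∃ K : ℝ, 0 ≤ K ∧
    ∀ (x : ℝ) (m : ℕ), 1 ≤ x →
    |Lm x m| ≤ K * x ^ (2 + 2 * (ε * s)) * ‖Pg (((1 - s : ℝ) : ℂ) + x * I)‖ ^ 2 / (1 / 2 - s) ^ (2 * m) := by
  intro ε hε
  obtain ⟨s0, hs0, hmu⟩ := mu_small ε hε
  refine ⟨min s0 (1 / ε), by positivity, fun s hs hss hs4 => ?_⟩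
  have hss0 : s < s0 := hss.trans_le (min_le_left _ _)
  have hεs : ε * s ≤ 1 := by
    have := (hss.trans_le (min_le_right _ _)).le
    rw [le_div_iff₀ hε] at this
    linarith
  obtain ⟨D, hD0, hD⟩ := hmu s hs hss0
  have hr : 0 < 1 / 2 - s := by linarith
  refine ⟨10 ^ 6 * (D ^ 2 * 4 ^ 2), by positivity, fun x m hx => ?_⟩
  set P := ‖Pg (((1 - s : ℝ) : ℂ) + x * I)‖ with hP
  have hx0 : 0 < x := by linarith
  have hline : ∀ v : ℝ, ‖G x (((1 / 2 - s : ℝ) : ℂ) + v * I)‖ ≤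
      (D ^ 2 * 4 ^ 2 * x ^ (2 + 2 * (ε * s)) * P ^ 2) * (1 + |v|) ^ 8 := by
    intro v
    unfold G
    have e1 : (1 / 2 + (((1 / 2 - s : ℝ) : ℂ) + v * I) + x * I) = 1 - s + ((x + v : ℝ) : ℂ) * I := by
      push_cast; ring
    have e2 : (1 / 2 + (((1 / 2 - s : ℝ) : ℂ) + v * I) - x * I) =
        (starRingEnd ℂ) (1 - s + ((x - v : ℝ) : ℂ) * I) := by
      apply Complex.ext <;> simp <;> ring
    rw [norm_mul, e1, e2, xi_conj, Complex.norm_conj, xi_eq (by simp; linarith), xi_eq (by simp; linarith),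
      norm_mul, norm_mul]
    have z1 := hD (x + v)
    have z2 := hD (x - v)
    have hg := Pg_tail (s := ((1 - s : ℝ) : ℂ) + x * I) (by simp; linarith) v
    have e3 : (((1 - s : ℝ) : ℂ) + x * I + v * I) = 1 - s + ((x + v : ℝ) : ℂ) * I := by push_cast; ring
    have e4 : (((1 - s : ℝ) : ℂ) + x * I - v * I) = 1 - s + ((x - v : ℝ) : ℂ) * I := by push_cast; ring
    rw [e3, e4, ← hP] at hg
    have hb : ∀ u : ℝ, |u| ≤ |v| → (1 + |x + u|) ^ (1 + ε * s) ≤ 4 * x ^ (1 + ε * s) * (1 + |v|) ^ 2 := by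
      intro u hu
      have h1 : 1 + |x + u| ≤ 2 * x * (1 + |v|) := by
        have := abs_add_le x u
        rw [abs_of_pos hx0] at this
        have := abs_nonneg v
        nlinarith
      have hv1 : 1 ≤ 1 + |v| := by linarith [abs_nonneg v]
      calc (1 + |x + u|) ^ (1 + ε * s) ≤ (2 * x * (1 + |v|)) ^ (1 + ε * s) :=
            Real.rpow_le_rpow (by positivity) h1 (by positivity)
        _ = 2 ^ (1 + ε * s) * x ^ (1 + ε * s) * (1 + |v|) ^ (1 + ε * s) := by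
            rw [Real.mul_rpow (by positivity) (by positivity), Real.mul_rpow (by norm_num) hx0.le]
        _ ≤ 2 ^ (2 : ℝ) * x ^ (1 + ε * s) * (1 + |v|) ^ (2 : ℝ) := by
            gcongr
            · norm_num
            · linarith
            · linarith
        _ = 4 * x ^ (1 + ε * s) * (1 + |v|) ^ 2 := by
            norm_num
    have b1 := hb v le_rfl
    have b2 := hb (-v) (by rw [abs_neg])
    rw [← sub_eq_add_neg] at b2
    have hxx : x ^ (1 + ε * s) * x ^ (1 + ε * s) = x ^ (2 + 2 * (ε * s)) := by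
      rw [← Real.rpow_add hx0]; congr 1; ring
    have h4v : (1 + |v|) ^ 4 ≤ (1 + |v|) ^ 8 :=
      pow_le_pow_right₀ (by linarith [abs_nonneg v]) (by norm_num)
    calc ‖Zt (1 - s + ((x + v : ℝ) : ℂ) * I)‖ * ‖Pg (1 - s + ((x + v : ℝ) : ℂ) * I)‖ *
          (‖Zt (1 - s + ((x - v : ℝ) : ℂ) * I)‖ * ‖Pg (1 - s + ((x - v : ℝ) : ℂ) * I)‖)
        = (‖Zt (1 - s + ((x + v : ℝ) : ℂ) * I)‖ * ‖Zt (1 - s + ((x - v : ℝ) : ℂ) * I)‖) *
          (‖Pg (1 - s + ((x + v : ℝ) : ℂ) * I)‖ * ‖Pg (1 - s + ((x - v : ℝ) : ℂ) * I)‖) := by ring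
      _ ≤ ((D * (4 * x ^ (1 + ε * s) * (1 + |v|) ^ 2)) * (D * (4 * x ^ (1 + ε * s) * (1 + |v|) ^ 2))) * P ^ 2 := by
          apply mul_le_mul _ hg (by positivity) (by positivity)
          apply mul_le_mul _ _ (norm_nonneg _) (by positivity)
          · exact z1.trans (mul_le_mul_of_nonneg_left b1 hD0)
          · exact z2.trans (mul_le_mul_of_nonneg_left b2 hD0)
      _ = D ^ 2 * 4 ^ 2 * (x ^ (1 + ε * s) * x ^ (1 + ε * s)) * P ^ 2 * (1 + |v|) ^ 4 := by ring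
      _ ≤ D ^ 2 * 4 ^ 2 * (x ^ (1 + ε * s) * x ^ (1 + ε * s)) * P ^ 2 * (1 + |v|) ^ 8 :=
          mul_le_mul_of_nonneg_left h4v (by positivity)
      _ = _ := by rw [hxx]
  have hcirc := fun (w : ℂ) (hw : ‖w‖ = 1 / 2 - s) => strip_bd x hr (by linarith) hline hw
  have htc := tc_le (G_diff x) hr hcirc (2 * m)
  refine (Complex.abs_re_le_norm _).trans (htc.trans (le_of_eq ?_))
  ring

end Pool.Agent.Helper85.LG
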