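import Pool.Agent.Helper85.LG.Pos

set_option autoImplicit false
set_option maxHeartbeats 1000000

open Complex Filter Topology Set
open Pool.Agent.H306R2 (Zt)

namespace Pool.Agent.Helper85.LG

/-- the Laguerre coefficients -/
noncomputable def Lm (x : ℝ) (m : ℕ) : ℝ := (tc (G x) (2 * m)).re

lemma tc_odd (x : ℝ) (m : ℕ) : tc (G x) (2 * m + 1) = 0 := by
  have h := iteratedDeriv_comp_neg (2 * m + 1) (G x) 0
  have e : (fun w => G x (-w)) = G x := by funext w; exact G_even x w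
  rw [e, neg_zero] at h
  have h2 : ((-1 : ℂ) ^ (2 * m + 1)) = -1 := by
    rw [pow_add, pow_mul]; norm_num
  rw [h2, neg_smul, one_smul] at h
  have h3 : iteratedDeriv (2 * m + 1) (G x) 0 = 0 := by
    have : iteratedDeriv (2 * m + 1) (G x) 0 + iteratedDeriv (2 * m + 1) (G x) 0 = 0 := by
      nth_rewrite 1 [h]; ring
    linear_combination (1 / 2 : ℂ) * this
  rw [tc, h3, zero_div]

lemma G_series (x R : ℝ) : HasSum (fun m : ℕ => Lm x m * R ^ (2 * m)) (‖xi (1 / 2 + R + x * I)‖ ^ 2) := by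
  have h := Complex.hasSum_taylorSeries_of_entire (G_diff x) 0 (R : ℂ)
  have e1 : ∀ n : ℕ, ((n.factorial : ℂ)⁻¹ • ((R : ℂ) - 0) ^ n • iteratedDeriv n (G x) 0) =
      tc (G x) n * ((R ^ n : ℝ) : ℂ) := by
    intro n
    simp only [smul_eq_mul, sub_zero, tc]
    push_cast
    ring
  simp only [e1] at h
  have h2 := Complex.hasSum_re h
  rw [G_real, ofReal_re] at h2
  have h3 : HasSum ((fun n : ℕ => (tc (G x) n * ((R ^ n : ℝ) : ℂ)).re) ∘ fun m : ℕ => 2 * m)
      (‖xi (1 / 2 + R + x * I)‖ ^ 2) := by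
    refine (Function.Injective.hasSum_iff (fun a b hab => by
      have : 2 * a = 2 * b := hab
      omega) ?_).2 h2
    intro n hn
    rcases Nat.even_or_odd' n with ⟨k, rfl | rfl⟩
    · exact absurd ⟨k, rfl⟩ hn
    · simp [tc_odd]
  refine h3.congr_fun ?_
  intro m
  simp only [Function.comp_apply, Lm]
  rw [Complex.re_mul_ofReal]

lemma tc_le {f : ℂ → ℂ} (hf : Differentiable ℂ f) {r M : ℝ} (hr : 0 < r) (h : ∀ w : ℂ, ‖w‖ = r → ‖f w‖ ≤ M)
    (n : ℕ) : ‖tc f n‖ ≤ M / r ^ n := by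
  have h1 := Complex.norm_iteratedDeriv_le_of_forall_mem_sphere_norm_le n hr
    (hf.diffContOnCl (s := Metric.ball (0 : ℂ) r)) (C := M) (fun z hz => h z (by
      rwa [mem_sphere_zero_iff_norm] at hz))
  rw [tc, norm_div, Complex.norm_natCast, div_le_iff₀ (by exact_mod_cast n.factorial_pos)]
  refine h1.trans (le_of_eq ?_)
  ring

/-- a bound inside the strip from a bound on the boundary -/
lemma strip_bd (x : ℝ) {r B : ℝ} (hr : 0 < r) (hr1 : r ≤ 1) (hB : ∀ v : ℝ, ‖G x (r + v * I)‖ ≤ B * (1 + |v|) ^ 8)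
    {w : ℂ} (hw : ‖w‖ = r) : ‖G x w‖ ≤ 10 ^ 6 * B := by
  have hB0 : 0 ≤ B := by
    have := hB 0
    simp at this
    exact (norm_nonneg _).trans this
  obtain ⟨K, hK0, hK⟩ := G_bound x hr
  set f : ℂ → ℂ := fun w => G x w * cexp (w ^ 2) with hf
  have hfd : Differentiable ℂ f := (G_diff x).mul (by fun_prop)
  have hexp : ∀ w : ℂ, ‖cexp (w ^ 2)‖ = Real.exp (w.re ^ 2 - w.im ^ 2) := by
    intro w
    rw [Complex.norm_exp]
    congr 1
    rw [sq, Complex.mul_re]; ring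
  -- (1+|v|)^8 e^{-v^2} ≤ C
  have hpoly : ∀ v : ℝ, (1 + |v|) ^ 8 * Real.exp (1 - v ^ 2) ≤ 10 ^ 5 := by
    intro v
    set a := |v| with ha
    have ha0 : 0 ≤ a := abs_nonneg v
    have hv2 : v ^ 2 = a ^ 2 := by rw [ha, sq_abs]
    rw [hv2]
    -- (1 + a)^8 ≤ exp (...)
    have h1 : 1 + a ≤ Real.exp (1 / 8 * a ^ 2 + 1 + Real.log 2 / 8) := by
      have h2 := Real.add_one_le_exp (a / 2 - 1 / 2 - 1 / 8)
      have hl2 : 0 ≤ Real.log 2 := Real.log_nonneg (by norm_num)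
      have h3 : Real.exp (1 / 8 * a ^ 2 + 1 + Real.log 2 / 8) ≥ Real.exp (a / 2 + 1 / 2) := by
        apply Real.exp_le_exp.2
        nlinarith [sq_nonneg (a - 2)]
      have h4 : Real.exp (a / 2 + 1 / 2) = Real.exp (a / 4 + 1 / 4) * Real.exp (a / 4 + 1 / 4) := by
        rw [← Real.exp_add]; congr 1; ring
      have h5 := Real.add_one_le_exp (a / 4 + 1 / 4)
      have h6 : (a / 4 + 1 / 4 + 1) * (a / 4 + 1 / 4 + 1) ≤ Real.exp (a / 4 + 1 / 4) * Real.exp (a / 4 + 1 / 4) :=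
        mul_le_mul h5 h5 (by positivity) (Real.exp_pos _).le
      nlinarith [sq_nonneg (a - 3)]
    have h2 : (1 + a) ^ 8 ≤ Real.exp (1 / 8 * a ^ 2 + 1 + Real.log 2 / 8) ^ 8 :=
      pow_le_pow_left₀ (by positivity) h1 8
    have h3 : Real.exp (1 / 8 * a ^ 2 + 1 + Real.log 2 / 8) ^ 8 = Real.exp (a ^ 2 + 8 + Real.log 2) := by
      rw [← Real.exp_nat_mul]; congr 1; push_cast; ring
    have h4 : (1 + a) ^ 8 * Real.exp (1 - a ^ 2) ≤ Real.exp (9 + Real.log 2) := by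
      calc (1 + a) ^ 8 * Real.exp (1 - a ^ 2) ≤ Real.exp (a ^ 2 + 8 + Real.log 2) * Real.exp (1 - a ^ 2) := by
            apply mul_le_mul_of_nonneg_right _ (Real.exp_pos _).le
            rw [← h3]; exact h2
        _ = _ := by rw [← Real.exp_add]; congr 1; ring
    refine h4.trans ?_
    rw [Real.exp_add, Real.exp_log (by norm_num)]
    have h5 : Real.exp 9 = Real.exp 1 ^ 9 := by rw [← Real.exp_nat_mul]; norm_num
    rw [h5]
    have h6 := Real.exp_one_lt_d9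
    have h7 : Real.exp 1 ^ 9 ≤ 2.7182818286 ^ 9 := pow_le_pow_left₀ (Real.exp_pos _).le h6.le 9
    norm_num at h7 ⊢
    linarith
  have hline : ∀ z : ℂ, z.re = r → ‖f z‖ ≤ 10 ^ 5 * B := by
    intro z hz
    have e : z = r + (z.im : ℝ) * I := by
      apply Complex.ext <;> simp [hz]
    have h1 := hB z.im
    rw [← e] at h1
    rw [hf]
    simp only [norm_mul, hexp]
    have h2 : Real.exp (z.re ^ 2 - z.im ^ 2) ≤ Real.exp (1 - z.im ^ 2) := by
      apply Real.exp_le_exp.2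
      rw [hz]; nlinarith
    calc ‖G x z‖ * Real.exp (z.re ^ 2 - z.im ^ 2) ≤ (B * (1 + |z.im|) ^ 8) * Real.exp (1 - z.im ^ 2) :=
          mul_le_mul h1 h2 (Real.exp_pos _).le (by positivity)
      _ = B * ((1 + |z.im|) ^ 8 * Real.exp (1 - z.im ^ 2)) := by ring
      _ ≤ B * 10 ^ 5 := mul_le_mul_of_nonneg_left (hpoly _) hB0
      _ = _ := by ring
  have hline2 : ∀ z : ℂ, z.re = -r → ‖f z‖ ≤ 10 ^ 5 * B := by
    intro z hz
    have := hline (-z) (by simp [hz])
    rw [hf] at this ⊢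
    simp only [neg_sq, G_even] at this
    exact this
  have hw1 := Complex.abs_re_le_norm w
  rw [hw, abs_le] at hw1
  have hPL := PhragmenLindelof.vertical_strip (f := f) (a := -r) (b := r) (C := 10 ^ 5 * B) (z := w)
    hfd.diffContOnCl ?_ hline2 hline hw1.1 hw1.2
  · rw [hf] at hPL
    simp only [norm_mul, hexp] at hPL
    have hw2 := Complex.abs_im_le_norm w
    rw [hw, abs_le] at hw2
    have h1 : Real.exp (-1) ≤ Real.exp (w.re ^ 2 - w.im ^ 2) := by
      apply Real.exp_le_exp.2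
      nlinarith [sq_nonneg w.re]
    have h2 : (1 : ℝ) / 10 ≤ Real.exp (-1) := by
      rw [Real.exp_neg, one_div]
      apply inv_anti₀ (Real.exp_pos _)
      have := Real.exp_one_lt_d9
      linarith
    have h3 : ‖G x w‖ * (1 / 10) ≤ ‖G x w‖ * Real.exp (w.re ^ 2 - w.im ^ 2) :=
      mul_le_mul_of_nonneg_left (h2.trans h1) (norm_nonneg _)
    have e : (10 : ℝ) ^ 6 * B = 10 * (10 ^ 5 * B) := by ring
    rw [e]
    linarith
  · refine ⟨0, div_pos Real.pi_pos (by linarith), Real.log (K * 10 ^ 8 + 1) , ?_⟩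
    apply Asymptotics.IsBigO.of_bound 1
    filter_upwards [Filter.mem_inf_of_right (Filter.mem_principal_self _)] with z hz
    have hz1 : -r < z.re ∧ z.re < r := hz
    have h1 := hK z (by rw [abs_le]; constructor <;> linarith)
    rw [hf]
    simp only [norm_mul, hexp]
    have h2 : Real.exp (z.re ^ 2 - z.im ^ 2) ≤ Real.exp (1 - z.im ^ 2) := by
      apply Real.exp_le_exp.2
      nlinarith
    have h3 : ‖z‖ ≤ 1 + |z.im| := by
      have := Complex.norm_le_abs_re_add_abs_im z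
      have h4 : |z.re| ≤ 1 := by rw [abs_le]; constructor <;> linarith
      linarith
    have h4 : (1 + ‖z‖) ^ 4 ≤ 16 * (1 + |z.im|) ^ 8 := by
      have h5 : (1 + ‖z‖) ^ 4 ≤ (2 * (1 + |z.im|)) ^ 4 := by
        apply pow_le_pow_left₀ (by positivity)
        linarith [abs_nonneg z.im]
      have h6 : (1 : ℝ) ≤ (1 + |z.im|) ^ 4 := one_le_pow₀ (by linarith [abs_nonneg z.im])
      have h7 : (1 + |z.im|) ^ 8 = (1 + |z.im|) ^ 4 * (1 + |z.im|) ^ 4 := by ring
      rw [h7]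
      calc (1 + ‖z‖) ^ 4 ≤ (2 * (1 + |z.im|)) ^ 4 := h5
        _ = 16 * (1 + |z.im|) ^ 4 * 1 := by ring
        _ ≤ 16 * (1 + |z.im|) ^ 4 * (1 + |z.im|) ^ 4 := mul_le_mul_of_nonneg_left h6 (by positivity)
        _ = _ := by ring
    rw [zero_mul, Real.exp_zero, mul_one, Real.exp_log (by positivity), one_mul, Real.norm_of_nonneg (by positivity)]
    calc ‖G x z‖ * Real.exp (z.re ^ 2 - z.im ^ 2) ≤ (K * (1 + ‖z‖) ^ 4) * Real.exp (1 - z.im ^ 2) :=
          mul_le_mul h1 h2 (Real.exp_pos _).le (by positivity)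
      _ ≤ (K * (16 * (1 + |z.im|) ^ 8)) * Real.exp (1 - z.im ^ 2) := by gcongr
      _ = K * 16 * ((1 + |z.im|) ^ 8 * Real.exp (1 - z.im ^ 2)) := by ring
      _ ≤ K * 16 * 10 ^ 5 := mul_le_mul_of_nonneg_left (hpoly _) (by positivity)
      _ ≤ _ := by nlinarith

end Pool.Agent.Helper85.LG
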