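import Pool.Agent.Helper85.LG.Conv

set_option autoImplicit false
set_option maxHeartbeats 1000000

open Complex Filter Topology Set
open Pool.Agent.H306R2 (Zt Zt_one Zt_differentiableAt zeta_eq_pos)

namespace Pool.Agent.Helper85.LG

lemma Zt_ne_one_le {s : ℂ} (hs : 1 ≤ s.re) : Zt s ≠ 0 := by
  by_cases h1 : s = 1
  · rw [h1, Zt_one]; exact one_ne_zero
  · rw [← zeta_eq_pos (by linarith) h1]
    exact mul_ne_zero (sub_ne_zero.2 h1) (riemannZeta_ne_zero_of_one_le_re hs)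

lemma Zt_zero_iff {s : ℂ} (hs : 0 < s.re) : Zt s = 0 ↔ riemannZeta s = 0 := by
  by_cases h1 : s = 1
  · rw [h1, Zt_one]
    constructor
    · intro h; exact absurd h one_ne_zero
    · intro h; exact absurd h (riemannZeta_ne_zero_of_one_le_re (by simp))
  · rw [← zeta_eq_pos hs h1]
    constructor
    · intro h
      exact (mul_eq_zero.1 h).resolve_left (sub_ne_zero.2 h1)
    · intro h; rw [h, mul_zero]

/-- the zeros of bounded height stay away from the line `Re s = 1` -/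
lemma bounded_zeros (X : ℝ) : ∃ θ < 1, ∀ s : ℂ, θ < s.re → |s.im| ≤ X → riemannZeta s ≠ 0 := by
  set Z : Set ℂ := {s : ℂ | 1 / 2 ≤ s.re ∧ s.re ≤ 1 ∧ |s.im| ≤ X ∧ Zt s = 0} with hZ
  have hbox : IsCompact {s : ℂ | 1 / 2 ≤ s.re ∧ s.re ≤ 1 ∧ |s.im| ≤ X} := by
    have h := IsCompact.reProdIm (isCompact_Icc (a := (1 / 2 : ℝ)) (b := 1)) (isCompact_Icc (a := -X) (b := X))
    have e : Icc (1 / 2 : ℝ) 1 ×ℂ Icc (-X) X = {s : ℂ | 1 / 2 ≤ s.re ∧ s.re ≤ 1 ∧ |s.im| ≤ X} := by
      ext s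
      simp only [Complex.mem_reProdIm, mem_Icc, mem_ofPred_eq, abs_le, and_assoc]
    rwa [e] at h
  have hcont : ContinuousOn Zt {s : ℂ | 1 / 2 ≤ s.re ∧ s.re ≤ 1 ∧ |s.im| ≤ X} := fun s hs =>
    (Zt_differentiableAt (by linarith [hs.1])).continuousAt.continuousWithinAt
  have hZc : IsCompact Z := by
    have h1 := hcont.preimage_isClosed_of_isClosed hbox.isClosed (isClosed_singleton (x := (0 : ℂ)))
    have e : Z = {s : ℂ | 1 / 2 ≤ s.re ∧ s.re ≤ 1 ∧ |s.im| ≤ X} ∩ Zt ⁻¹' {0} := by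
      ext s
      simp only [hZ, mem_ofPred_eq, mem_inter_iff, mem_preimage, mem_singleton_iff]
      tauto
    rw [e]
    exact hbox.of_isClosed_subset h1 inter_subset_left
  rcases Z.eq_empty_or_nonempty with he | hne
  · refine ⟨1 / 2, by norm_num, fun s hs him h => ?_⟩
    have h1 : s.re ≤ 1 := by
      by_contra hcon
      push Not at hcon
      exact riemannZeta_ne_zero_of_one_le_re hcon.le h
    have : s ∈ Z := ⟨hs.le, h1, him, (Zt_zero_iff (by linarith)).2 h⟩
    rw [he] at this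
    exact this
  · obtain ⟨z, hz, hmax⟩ := hZc.exists_isMaxOn hne (f := fun s : ℂ => s.re) continuous_re.continuousOn
    have hz1 : z.re < 1 := lt_of_le_of_ne hz.2.1 (fun h => Zt_ne_one_le h.ge hz.2.2.2)
    refine ⟨z.re, hz1, fun s hs him h => ?_⟩
    have h1 : s.re ≤ 1 := by
      by_contra hcon
      push Not at hcon
      exact riemannZeta_ne_zero_of_one_le_re hcon.le h
    have h2 : s ∈ Z := ⟨by linarith [hz.1], h1, him, (Zt_zero_iff (by linarith [hz.1])).2 h⟩
    have h3 : s.re ≤ z.re := hmax h2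
    linarith

/-- Laguerre inequalities of order `≥ c log x` with `c < 1/4` give a zero-free half-plane. -/
theorem halfplane_of_laguerre {c : ℝ} (hc : c < 1 / 4)
    (h : ∃ x0 : ℝ, ∀ x : ℝ, x0 ≤ x → ∀ m : ℕ, c * Real.log x ≤ m → 0 ≤ Lm x m) :
    ∃ θ < 1, ∀ s : ℂ, θ < s.re → riemannZeta s ≠ 0 := by
  obtain ⟨x0, hx0⟩ := h
  set c' : ℝ := max c (1 / 8) with hc'
  have hc'0 : 0 < c' := lt_of_lt_of_le (by norm_num) (le_max_right _ _)
  have hc'4 : c' < 1 / 4 := max_lt hc (by norm_num)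
  obtain ⟨τ, hτ, X1, hX1⟩ := conv_core hc'0 hc'4
  obtain ⟨θ, hθ, hθ2⟩ := bounded_zeros (max (max x0 X1) 1)
  refine ⟨max (max θ (1 - τ)) (1 / 2), max_lt (max_lt hθ (by linarith)) (by norm_num), ?_⟩
  have key : ∀ s : ℂ, max (max θ (1 - τ)) (1 / 2) < s.re → 0 ≤ s.im → riemannZeta s ≠ 0 := by
    intro s hs him h
    rw [max_lt_iff, max_lt_iff] at hs
    obtain ⟨⟨h1, h2⟩, h3⟩ := hs
    have hre1 : s.re < 1 := by
      by_contra hcon
      push Not at hcon
      exact riemannZeta_ne_zero_of_one_le_re hcon h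
    have him2 : max (max x0 X1) 1 < s.im := by
      by_contra hcon
      push Not at hcon
      exact hθ2 s h1 (by rw [abs_of_nonneg him]; exact hcon) h
    rw [max_lt_iff, max_lt_iff] at him2
    obtain ⟨⟨i1, i2⟩, i3⟩ := him2
    have e : (1 / 2 + ((s.re - 1 / 2 : ℝ) : ℂ) + s.im * I) = s := by
      apply Complex.ext <;> simp
    obtain ⟨m, hm1, hm2⟩ := hX1 s.im (s.re - 1 / 2) i2.le (by linarith) (by linarith) (by
      rw [e, xi_eq (by linarith), (Zt_zero_iff (by linarith)).2 h, zero_mul])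
    have hlog : 0 ≤ Real.log s.im := Real.log_nonneg i3.le
    have h4 := hx0 s.im i1.le m ((mul_le_mul_of_nonneg_right (le_max_left c (1 / 8)) hlog).trans hm1)
    linarith
  intro s hs h
  rcases le_total 0 s.im with h0 | h0
  · exact key s hs h0 h
  · refine key ((starRingEnd ℂ) s) (by rwa [conj_re]) (by rw [conj_im]; linarith) ?_
    rw [riemannZeta_conj, h, map_zero]

end Pool.Agent.Helper85.LG
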