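import Pool.Agent.Helper85.LG.Loc

set_option autoImplicit false
set_option maxHeartbeats 1000000

open Complex Filter Topology Set
open Pool.Agent.H306R2 (Zt)

namespace Pool.Agent.Helper85.LG

open LSeries in
lemma LS_le {f : ℕ → ℂ} {σ : ℝ} (hf : LSeriesSummable f σ) (h1 : f 1 = 0) {z : ℂ} (hz : σ ≤ z.re) :
    ‖LSeries f z‖ ≤ (2 : ℝ) ^ (-(z.re - σ)) * ∑' n, ‖LSeries.term f σ n‖ := by
  have hs : Summable (fun n => ‖LSeries.term f σ n‖) := hf.norm
  unfold LSeries
  rw [← tsum_mul_left]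
  refine tsum_of_norm_bounded (hs.mul_left _).hasSum fun n => ?_
  rcases Nat.eq_zero_or_pos n with rfl | hn
  · simp
  rcases Nat.eq_or_lt_of_le hn with h | h
  · rw [← h]; simp [LSeries.term, h1]
  · rw [LSeries.norm_term_eq, LSeries.norm_term_eq, if_neg (by omega), if_neg (by omega), ofReal_re]
    have hn2 : (2 : ℝ) ≤ n := by exact_mod_cast h
    have hn0 : (0 : ℝ) < n := by linarith
    have h2 : (n : ℝ) ^ z.re = (n : ℝ) ^ σ * (n : ℝ) ^ (z.re - σ) := by
      rw [← Real.rpow_add hn0]; congr 1; ring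
    rw [h2, Real.rpow_neg (by norm_num)]
    have h3 : (2 : ℝ) ^ (z.re - σ) ≤ (n : ℝ) ^ (z.re - σ) :=
      Real.rpow_le_rpow (by norm_num) hn2 (by linarith)
    have h4 : (0 : ℝ) < (2 : ℝ) ^ (z.re - σ) := by positivity
    have h5 : (0 : ℝ) < (n : ℝ) ^ σ := by positivity
    rw [div_mul_eq_div_div, div_le_iff₀ (by positivity), inv_mul_eq_div, div_mul_eq_mul_div,
      le_div_iff₀ h4]
    apply mul_le_mul_of_nonneg_left h3 (by positivity)

lemma zeta_two_sided {σ : ℝ} (hσ : 1 < σ) : ∃ A : ℝ, 1 ≤ A ∧ ∀ s : ℂ, σ ≤ s.re →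
    ‖riemannZeta s‖ ≤ A ∧ 1 ≤ A * ‖riemannZeta s‖ := by
  have hs1 : Summable (fun n : ℕ => 1 / (n : ℝ) ^ σ) := Real.summable_one_div_nat_rpow.2 hσ
  set A : ℝ := ∑' n : ℕ, 1 / (n : ℝ) ^ σ with hA
  have hA1 : 1 ≤ A := by
    have := hs1.le_tsum 1 (fun i _ => by positivity)
    rw [Nat.cast_one, Real.one_rpow, div_one] at this
    exact this
  have key : ∀ (f : ℕ → ℂ) (s : ℂ), σ ≤ s.re → (∀ n, ‖f n‖ ≤ 1) → ‖LSeries f s‖ ≤ A := by
    intro f s hs hf
    unfold LSeries
    refine tsum_of_norm_bounded hs1.hasSum fun n => ?_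
    rw [LSeries.norm_term_eq]
    rcases Nat.eq_zero_or_pos n with rfl | hn
    · simp; positivity
    · rw [if_neg (by omega)]
      have hn1 : (1 : ℝ) ≤ n := by exact_mod_cast hn
      have := hf n
      apply div_le_div₀ (by norm_num) this (by positivity)
      exact Real.rpow_le_rpow_of_exponent_le hn1 hs
  refine ⟨A, hA1, fun s hs => ?_⟩
  have hs1 : 1 < s.re := lt_of_lt_of_le hσ hs
  have e1 : riemannZeta s = LSeries 1 s := (LSeries_one_eq_riemannZeta hs1).symm
  constructor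
  · rw [e1]
    exact key 1 s hs (fun n => by simp)
  · have h2 := LSeries_one_mul_Lseries_moebius hs1
    have h3 : ‖LSeries (fun n => ((ArithmeticFunction.moebius n : ℤ) : ℂ)) s‖ ≤ A := by
      refine key _ s hs (fun n => ?_)
      rw [Complex.norm_intCast]
      exact_mod_cast ArithmeticFunction.abs_moebius_le_one
    have h4 : (1 : ℝ) = ‖riemannZeta s‖ * ‖LSeries (fun n => ((ArithmeticFunction.moebius n : ℤ) : ℂ)) s‖ := by
      rw [e1, ← norm_mul, h2, norm_one]
    rw [h4, mul_comm]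
    exact mul_le_mul_of_nonneg_right h3 (norm_nonneg _)

/-- the logarithmic derivative in the region of absolute convergence -/
lemma Zt_ld {s : ℂ} (hs : 1 < s.re) : logDeriv Zt s =
    1 / (s - 1) - LSeries (fun n => ((ArithmeticFunction.vonMangoldt n : ℝ) : ℂ)) s := by
  have hne : s ≠ 1 := by rintro rfl; simp at hs
  have hζ := riemannZeta_ne_zero_of_one_lt_re hs
  have hev : Zt =ᶠ[𝓝 s] fun z => (z - 1) * riemannZeta z := by
    have : {z : ℂ | 1 < z.re} ∈ 𝓝 s := (isOpen_lt continuous_const continuous_re).mem_nhds hs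
    filter_upwards [this] with z hz
    have hz' : 1 < z.re := hz
    exact (Pool.Agent.H306R2.zeta_eq_pos (by linarith) (by rintro rfl; simp at hz')).symm
  have e1 : logDeriv Zt s = logDeriv (fun z => (z - 1) * riemannZeta z) s := by
    rw [logDeriv_apply, logDeriv_apply, hev.deriv_eq, hev.eq_of_nhds]
  rw [e1, logDeriv_mul (f := fun z => z - 1) (g := riemannZeta) s (sub_ne_zero.2 hne) hζ (by fun_prop)
    (differentiableAt_riemannZeta hne), ArithmeticFunction.LSeries_vonMangoldt_eq_deriv_riemannZeta_div hs]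
  have e2 : logDeriv (fun z : ℂ => z - 1) s = 1 / (s - 1) := by
    rw [logDeriv_apply]
    simp
  rw [e2, logDeriv_apply]
  ring

lemma vM_one : (((ArithmeticFunction.vonMangoldt 1 : ℝ)) : ℂ) = 0 := by simp

lemma two_pow_bound {c y : ℝ} (hc : 0 ≤ c) (hy : c ≤ y) : y * (2 : ℝ) ^ (-(y - c)) ≤ c + 2 := by
  have h1 : 1 + (y - c) * Real.log 2 ≤ (2 : ℝ) ^ (y - c) := by
    rw [Real.rpow_def_of_pos (by norm_num)]
    have := Real.add_one_le_exp (Real.log 2 * (y - c))
    linarith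
  have h2 := Real.log_two_gt_d9
  rw [Real.rpow_neg (by norm_num), ← div_eq_mul_inv, div_le_iff₀ (by positivity)]
  have h3 : 1 + (y - c) / 2 ≤ (2 : ℝ) ^ (y - c) := by nlinarith
  nlinarith

/-- estimates for `ζ'/ζ` -/
lemma ld_bounds {y0 : ℝ} (hy0 : 1 / 2 < y0) : ∃ A : ℝ, 1 ≤ A ∧ ∀ (x y : ℝ), y0 ≤ y →
    ‖logDeriv Zt (1 / 2 + y + x * I)‖ ≤ A ∧
    ∀ τ : ℝ, ‖logDeriv Zt (1 / 2 + y + x * I + τ * I) - logDeriv Zt (1 / 2 + y + x * I)‖ * y ≤ A * |τ| := by
  set f : ℕ → ℂ := fun n => ((ArithmeticFunction.vonMangoldt n : ℝ) : ℂ) with hf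
  set σ0 : ℝ := 1 / 2 + y0 with hσ0
  have hσ1 : 1 < σ0 := by rw [hσ0]; linarith
  set d : ℝ := y0 - 1 / 2 with hd
  have hd0 : 0 < d := by rw [hd]; linarith
  have hsum1 : LSeriesSummable f (σ0 : ℂ) :=
    ArithmeticFunction.LSeriesSummable_vonMangoldt (by rw [ofReal_re]; exact hσ1)
  have habs : ∀ z : ℂ, 1 < z.re → LSeries.abscissaOfAbsConv f < z.re := by
    intro z hz
    have h1 : LSeries.abscissaOfAbsConv f ≤ (((1 + z.re) / 2 : ℝ) : EReal) := by
      have h2 : LSeriesSummable f (((1 + z.re) / 2 : ℝ) : ℂ) :=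
        ArithmeticFunction.LSeriesSummable_vonMangoldt (by rw [ofReal_re]; linarith)
      have := h2.abscissaOfAbsConv_le
      simpa using this
    refine lt_of_le_of_lt h1 ?_
    exact_mod_cast (by linarith : (1 + z.re) / 2 < z.re)
  have hsum2 : LSeriesSummable (LSeries.logMul f) (σ0 : ℂ) :=
    LSeriesSummable_logMul_of_lt_re (habs _ (by rw [ofReal_re]; exact hσ1))
  set S1 : ℝ := ∑' n, ‖LSeries.term f σ0 n‖ with hS1
  set S2 : ℝ := ∑' n, ‖LSeries.term (LSeries.logMul f) σ0 n‖ with hS2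
  have hS10 : 0 ≤ S1 := tsum_nonneg fun n => norm_nonneg _
  have hS20 : 0 ≤ S2 := tsum_nonneg fun n => norm_nonneg _
  refine ⟨1 + 1 / d + S1 + (2 + 1 / d) * (1 / d) + (y0 + 2) * S2, ?_, fun x y hy => ?_⟩
  · have : 0 ≤ 1 / d + S1 + (2 + 1 / d) * (1 / d) + (y0 + 2) * S2 := by positivity
    linarith
  set s : ℂ := 1 / 2 + y + x * I with hs
  have hsre : s.re = 1 / 2 + y := by rw [hs]; simp
  have hs1 : 1 < s.re := by rw [hsre]; linarith
  have hre : ∀ τ : ℝ, (s + τ * I).re = 1 / 2 + y := fun τ => by rw [hs]; simp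
  -- lower bound for |s - 1|
  have hlow : ∀ τ : ℝ, y - 1 / 2 ≤ ‖s + τ * I - 1‖ := by
    intro τ
    have := Complex.re_le_norm (s + τ * I - 1)
    rw [sub_re, hre, one_re] at this
    linarith
  have hdy : d ≤ y - 1 / 2 := by rw [hd]; linarith
  have hyd : y / (y - 1 / 2) ≤ 2 + 1 / d := by
    rw [div_le_iff₀ (by linarith)]
    have : (1 / d) * d = 1 := by field_simp
    have h2 : 1 / d * d ≤ 1 / d * (y - 1 / 2) := mul_le_mul_of_nonneg_left hdy (by positivity)
    nlinarith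
  constructor
  · rw [Zt_ld hs1]
    refine (norm_sub_le _ _).trans ?_
    have h1 : ‖1 / (s - 1)‖ ≤ 1 / d := by
      rw [norm_div, norm_one]
      apply one_div_le_one_div_of_le hd0
      have := hlow 0
      rw [ofReal_zero, zero_mul, add_zero] at this
      linarith
    have h2 := LS_le hsum1 vM_one (z := s) (by rw [hsre]; linarith)
    have h3 : (2 : ℝ) ^ (-(s.re - σ0)) ≤ 1 :=
      Real.rpow_le_one_of_one_le_of_nonpos (by norm_num) (by rw [hsre]; linarith)
    have h4 : ‖LSeries f s‖ ≤ S1 := h2.trans (by nlinarith)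
    have : 0 ≤ 1 + (2 + 1 / d) * (1 / d) + (y0 + 2) * S2 := by
      have := hy0; positivity
    linarith
  · intro τ
    rw [Zt_ld hs1, Zt_ld (by rw [hre]; linarith)]
    have hy0' : 0 < y := by linarith
    -- the L-series part
    have hL : ‖LSeries f (s + τ * I) - LSeries f s‖ ≤ (2 : ℝ) ^ (-(y - y0)) * S2 * |τ| := by
      have hconv : Convex ℝ {z : ℂ | 1 / 2 + y ≤ z.re} := convex_halfSpace_re_ge _
      have h := hconv.norm_image_sub_le_of_norm_hasDerivWithin_le (f := LSeries f)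
        (f' := fun z => -LSeries (LSeries.logMul f) z) (C := (2 : ℝ) ^ (-(y - y0)) * S2)
        (x := s) (y := s + τ * I) (fun z hz => (LSeries_hasDerivAt (habs z (by
          have : 1 / 2 + y ≤ z.re := hz
          linarith))).hasDerivWithinAt) (fun z hz => ?_) (by simp [hsre]) (by simp [hsre])
      · refine h.trans (le_of_eq ?_)
        rw [add_sub_cancel_left, norm_mul, norm_I, mul_one, Complex.norm_real, Real.norm_eq_abs]
      · have hz' : 1 / 2 + y ≤ z.re := hz
        rw [norm_neg]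
        refine (LS_le hsum2 (by simp [LSeries.logMul]) (z := z) (by linarith)).trans ?_
        apply mul_le_mul_of_nonneg_right _ hS20
        apply Real.rpow_le_rpow_of_exponent_le (by norm_num)
        linarith
    have h2 := two_pow_bound (c := y0) (by linarith) hy
    have hP : ‖1 / (s + τ * I - 1) - 1 / (s - 1)‖ * y ≤ (2 + 1 / d) * (1 / d) * |τ| := by
      have n1 := hlow τ
      have n2 := hlow 0
      rw [ofReal_zero, zero_mul, add_zero] at n2
      have p1 : (s + τ * I - 1 : ℂ) ≠ 0 := by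
        rw [← norm_pos_iff]; linarith
      have p2 : (s - 1 : ℂ) ≠ 0 := by
        rw [← norm_pos_iff]; linarith
      have e : (1 / (s + τ * I - 1) - 1 / (s - 1) : ℂ) = -(τ * I) / ((s + τ * I - 1) * (s - 1)) := by
        field_simp
        ring
      rw [e, norm_div, norm_neg, norm_mul, norm_mul, norm_I, mul_one, Complex.norm_real, Real.norm_eq_abs]
      have hyy : 0 < y - 1 / 2 := by linarith
      calc |τ| / (‖s + τ * I - 1‖ * ‖s - 1‖) * y ≤ |τ| / ((y - 1 / 2) * d) * y := by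
            apply mul_le_mul_of_nonneg_right _ hy0'.le
            apply div_le_div_of_nonneg_left (abs_nonneg _) (by positivity)
            exact mul_le_mul n1 (hdy.trans n2) hd0.le (norm_nonneg _)
        _ = (y / (y - 1 / 2)) * (1 / d) * |τ| := by field_simp
        _ ≤ (2 + 1 / d) * (1 / d) * |τ| := by
            apply mul_le_mul_of_nonneg_right _ (abs_nonneg _)
            exact mul_le_mul_of_nonneg_right hyd (by positivity)
    calc ‖1 / (s + τ * I - 1) - LSeries f (s + τ * I) - (1 / (s - 1) - LSeries f s)‖ * y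
        = ‖(1 / (s + τ * I - 1) - 1 / (s - 1)) - (LSeries f (s + τ * I) - LSeries f s)‖ * y := by
          congr 2; ring
      _ ≤ (‖1 / (s + τ * I - 1) - 1 / (s - 1)‖ + ‖LSeries f (s + τ * I) - LSeries f s‖) * y :=
          mul_le_mul_of_nonneg_right (norm_sub_le _ _) hy0'.le
      _ = ‖1 / (s + τ * I - 1) - 1 / (s - 1)‖ * y + ‖LSeries f (s + τ * I) - LSeries f s‖ * y := by ring
      _ ≤ (2 + 1 / d) * (1 / d) * |τ| + (2 : ℝ) ^ (-(y - y0)) * S2 * |τ| * y := by
          apply add_le_add hP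
          exact mul_le_mul_of_nonneg_right hL hy0'.le
      _ = (2 + 1 / d) * (1 / d) * |τ| + (y * (2 : ℝ) ^ (-(y - y0))) * S2 * |τ| := by ring
      _ ≤ (2 + 1 / d) * (1 / d) * |τ| + (y0 + 2) * S2 * |τ| := by
          have : (y * (2 : ℝ) ^ (-(y - y0))) * S2 * |τ| ≤ (y0 + 2) * S2 * |τ| := by
            apply mul_le_mul_of_nonneg_right _ (abs_nonneg _)
            exact mul_le_mul_of_nonneg_right h2 hS20
          linarith
      _ ≤ _ := by
          have h0 : 0 ≤ (1 + 1 / d + S1) * |τ| := by positivity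
          nlinarith

/-- the tail bound -/
lemma tail_abs {y0 : ℝ} (hy0 : 1 / 2 < y0) : ∃ A : ℝ, 1 ≤ A ∧ ∀ (x y t : ℝ), y0 ≤ y →
    ‖Zt (1 / 2 + y + x * I + (y * t : ℝ) * I)‖ * ‖Zt (1 / 2 + y + x * I - (y * t : ℝ) * I)‖ ≤
      A * (1 + |t|) ^ 2 * ‖Zt (1 / 2 + y + x * I)‖ ^ 2 := by
  obtain ⟨A, hA1, hA⟩ := zeta_two_sided (σ := 1 / 2 + y0) (by linarith)
  set d : ℝ := y0 - 1 / 2 with hd
  have hd0 : 0 < d := by rw [hd]; linarith
  refine ⟨A ^ 4 * (2 + 1 / d) ^ 2, ?_, fun x y t hy => ?_⟩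
  · have h1 : 1 ≤ A ^ 4 := one_le_pow₀ hA1
    have h2 : (1 : ℝ) ≤ (2 + 1 / d) ^ 2 := one_le_pow₀ (by
      have : 0 < 1 / d := by positivity
      linarith)
    nlinarith
  set s : ℂ := 1 / 2 + y + x * I with hs
  have hsre : s.re = 1 / 2 + y := by rw [hs]; simp
  have hy' : 0 < y := by linarith
  have hdy : d ≤ y - 1 / 2 := by rw [hd]; linarith
  have hyd : y ≤ (2 + 1 / d) * (y - 1 / 2) := by
    have : (1 / d) * d = 1 := by field_simp
    have h2 : 1 / d * d ≤ 1 / d * (y - 1 / 2) := mul_le_mul_of_nonneg_left hdy (by positivity)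
    nlinarith
  have hlow : y - 1 / 2 ≤ ‖s - 1‖ := by
    have := Complex.re_le_norm (s - 1)
    rw [sub_re, hsre, one_re] at this
    linarith
  have hs1 : s ≠ 1 := by
    intro h
    rw [h, sub_self, norm_zero] at hlow
    linarith
  have hZs : 1 * ‖s - 1‖ ≤ A * ‖Zt s‖ := by
    rw [← Pool.Agent.H306R2.zeta_eq_pos (by rw [hsre]; linarith) hs1, norm_mul]
    have := (hA s (by rw [hsre]; linarith)).2
    have h3 := mul_le_mul_of_nonneg_left this (norm_nonneg (s - 1))
    linarith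
  have hup : ∀ z : ℂ, z.re = 1 / 2 + y → ‖z - s‖ = y * |t| → ‖Zt z‖ ≤ A ^ 2 * (2 + 1 / d) * (1 + |t|) * ‖Zt s‖ := by
    intro z hz hzs
    have hz1 : z ≠ 1 := by
      intro h
      rw [h, one_re] at hz
      linarith
    rw [← Pool.Agent.H306R2.zeta_eq_pos (by rw [hz]; linarith) hz1, norm_mul]
    have h1 := (hA z (by rw [hz]; linarith)).1
    have h2 : ‖z - 1‖ ≤ (2 + 1 / d) * (1 + |t|) * ‖s - 1‖ := by
      have n1 : ‖z - 1‖ ≤ ‖z - s‖ + ‖s - 1‖ := by
        have : z - 1 = (z - s) + (s - 1) := by ring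
        rw [this]; exact norm_add_le _ _
      have n2 : y * |t| ≤ (2 + 1 / d) * ‖s - 1‖ * |t| := by
        apply mul_le_mul_of_nonneg_right _ (abs_nonneg _)
        refine hyd.trans (mul_le_mul_of_nonneg_left hlow (by positivity))
      have n3 : ‖s - 1‖ ≤ (2 + 1 / d) * ‖s - 1‖ := by
        have : 1 ≤ 2 + 1 / d := by
          have : 0 < 1 / d := by positivity
          linarith
        nlinarith [norm_nonneg (s - 1)]
      rw [hzs] at n1
      nlinarith
    have h5 : 0 ≤ (2 + 1 / d) * (1 + |t|) := by positivity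
    calc ‖z - 1‖ * ‖riemannZeta z‖ ≤ ((2 + 1 / d) * (1 + |t|) * ‖s - 1‖) * A :=
          mul_le_mul h2 h1 (norm_nonneg _) (by positivity)
      _ = (2 + 1 / d) * (1 + |t|) * A * (1 * ‖s - 1‖) := by ring
      _ ≤ (2 + 1 / d) * (1 + |t|) * A * (A * ‖Zt s‖) := by
          apply mul_le_mul_of_nonneg_left hZs (by positivity)
      _ = _ := by ring
  have a1 := hup (s + (y * t : ℝ) * I) (by simp [hsre]) (by
    rw [add_sub_cancel_left, norm_mul, norm_I, mul_one, Complex.norm_real, Real.norm_eq_abs, abs_mul,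
      abs_of_pos hy'])
  have a2 := hup (s - (y * t : ℝ) * I) (by simp [hsre]) (by
    rw [sub_sub_cancel_left, norm_neg, norm_mul, norm_I, mul_one, Complex.norm_real, Real.norm_eq_abs,
      abs_mul, abs_of_pos hy'])
  calc _ ≤ (A ^ 2 * (2 + 1 / d) * (1 + |t|) * ‖Zt s‖) * (A ^ 2 * (2 + 1 / d) * (1 + |t|) * ‖Zt s‖) :=
        mul_le_mul a1 a2 (norm_nonneg _) (by positivity)
    _ = _ := by ring

end Pool.Agent.Helper85.LG
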