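import Pool.Graph.R_seed8.H370R2.Rect

set_option autoImplicit false
set_option maxHeartbeats 1000000

open Complex Filter Topology Set MeasureTheory H370

namespace Pool.Agent.Helper85.LG

lemma dslope_ent {f : ℂ → ℂ} (hf : Differentiable ℂ f) : Differentiable ℂ (dslope f 0) := by
  have := (Complex.differentiableOn_dslope (s := Set.univ) (c := 0) (f := f) univ_mem).2
    hf.differentiableOn
  exact differentiableOn_univ.1 this

lemma dslope_id (f : ℂ → ℂ) (z : ℂ) : f z = f 0 + z * dslope f 0 z := by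
  have := sub_smul_dslope f 0 z
  simp only [sub_zero, smul_eq_mul] at this
  rw [this]
  ring

/-- the Taylor coefficients and `dslope` -/
lemma circ_step {f : ℂ → ℂ} (hf : Differentiable ℂ f) (n : ℕ) :
    iteratedDeriv (n + 1) f 0 / ((n + 1).factorial : ℂ) =
      iteratedDeriv n (dslope f 0) 0 / (n.factorial : ℂ) := by
  have h1 := hf.differentiableOn.circleIntegral_one_div_sub_center_pow_smul
    (c := 0) (R := 1) (by norm_num) (n + 1)
  have h2 := (dslope_ent hf).differentiableOn.circleIntegral_one_div_sub_center_pow_smul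
    (c := 0) (R := 1) (by norm_num) n
  have h3 : (∮ z in C(0, 1), (1 / (z - 0) ^ (n + 1 + 1)) • f z) =
      (∮ z in C(0, 1), (f 0 * (z - 0) ^ (-(n + 2 : ℤ)) + (1 / (z - 0) ^ (n + 1)) • dslope f 0 z)) := by
    apply circleIntegral.integral_congr (by norm_num)
    intro z hz
    have hz0 : z ≠ 0 := by
      intro h
      rw [h] at hz
      simp at hz
    simp only [sub_zero, smul_eq_mul]
    have e1 : z ^ (-(n + 2 : ℤ)) = 1 / z ^ (n + 2) := by
      rw [zpow_neg, one_div]
      norm_cast
    rw [e1]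
    nth_rewrite 1 [dslope_id f z]
    field_simp
    ring
  rw [circleIntegral.integral_add, circleIntegral.integral_const_mul,
    circleIntegral.integral_sub_zpow_of_ne (by omega), mul_zero, zero_add] at h3
  · rw [h1, h2] at h3
    simp only [smul_eq_mul] at h3
    have hpi : (2 * Real.pi * I : ℂ) ≠ 0 := Complex.two_pi_I_ne_zero
    have f1 : (((n + 1).factorial : ℕ) : ℂ) ≠ 0 := by exact_mod_cast (n + 1).factorial_ne_zero
    have f2 : ((n.factorial : ℕ) : ℂ) ≠ 0 := by exact_mod_cast n.factorial_ne_zero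
    apply mul_left_cancel₀ hpi
    calc _ = 2 * Real.pi * I / ((n + 1).factorial : ℂ) * iteratedDeriv (n + 1) f 0 := by ring
      _ = _ := h3
      _ = _ := by ring
  · apply ContinuousOn.circleIntegrable (by norm_num)
    apply ContinuousOn.mul continuousOn_const
    apply ContinuousOn.zpow₀ (by fun_prop)
    intro z hz
    left
    intro h
    rw [sub_zero] at h
    rw [h] at hz
    simp at hz
  · apply ContinuousOn.circleIntegrable (by norm_num)
    have c1 : ContinuousOn (fun z : ℂ => 1 / (z - 0) ^ (n + 1)) (Metric.sphere 0 1) := by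
      apply ContinuousOn.div continuousOn_const (by fun_prop)
      intro z hz h
      rw [sub_zero] at h
      have := pow_eq_zero_iff (by omega) |>.1 h
      rw [this] at hz
      simp at hz
    exact c1.smul (dslope_ent hf).continuous.continuousOn

lemma RI_deriv {a b c d : ℝ} (hab : a ≤ b) (hcd : c ≤ d) {F f : ℂ → ℂ}
    (hF : ∀ s ∈ Bd a b c d, HasDerivAt F (f s) s) (hf : ContinuousOn f (Bd a b c d)) :
    RI a b c d f = 0 := by
  have hh : ∀ e : ℝ, (e = c ∨ e = d) → (∫ x in a..b, f ⟨x, e⟩) = F ⟨b, e⟩ - F ⟨a, e⟩ := by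
    intro e he
    refine intervalIntegral.integral_eq_sub_of_hasDerivAt (f := fun x : ℝ => F ⟨x, e⟩) ?_
      (ii_h hab hf he)
    intro x hx
    rw [uIcc_of_le hab] at hx
    have h0 := hF ⟨x, e⟩ (Or.inl ⟨hx, he⟩)
    have h2 : HasDerivAt (fun w : ℂ => F (w + e * I)) (f ⟨x, e⟩) (x : ℂ) := by
      have h3 : HasDerivAt F (f ⟨x, e⟩) ((x : ℂ) + e * I) := by
        rw [← mk_eq]; exact h0
      exact h3.comp_add_const _ _
    have h4 := h2.comp_ofReal
    simp only [mk_eq] at h4 ⊢
    exact h4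
  have hv : ∀ e : ℝ, (e = a ∨ e = b) → I * (∫ y in c..d, f ⟨e, y⟩) = F ⟨e, d⟩ - F ⟨e, c⟩ := by
    intro e he
    rw [← intervalIntegral.integral_const_mul]
    refine intervalIntegral.integral_eq_sub_of_hasDerivAt (f := fun y : ℝ => F ⟨e, y⟩) ?_
      ((ii_v hcd hf he).const_mul _)
    intro y hy
    rw [uIcc_of_le hcd] at hy
    have h0 := hF ⟨e, y⟩ (Or.inr ⟨hy, he⟩)
    have h2 : HasDerivAt (fun w : ℂ => F (e + w * I)) (I * f ⟨e, y⟩) (y : ℂ) := by
      have h3 : HasDerivAt F (f ⟨e, y⟩) ((e : ℂ) + y * I) := by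
        rw [← mk_eq]; exact h0
      have h5 : HasDerivAt (fun w : ℂ => (e : ℂ) + w * I) I (y : ℂ) := by
        have := ((hasDerivAt_id (y : ℂ)).mul_const I).const_add (e : ℂ)
        simpa using this
      have h6 := HasDerivAt.comp (y : ℂ) h3 h5
      rw [mul_comm] at h6
      exact h6
    have h4 := h2.comp_ofReal
    simp only [mk_eq] at h4 ⊢
    exact h4
  unfold RI
  rw [hh c (Or.inl rfl), hh d (Or.inr rfl), hv b (Or.inr rfl), hv a (Or.inl rfl)]
  ring

/-- Cauchy's formula for the Taylor coefficients on a rectangle -/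
lemma RI_coef {a b c d : ℝ} (ha : a < 0) (hb : 0 < b) (hc : c < 0) (hd : 0 < d) (n : ℕ) :
    ∀ {f : ℂ → ℂ}, Differentiable ℂ f →
    RI a b c d (fun s => f s / s ^ (n + 1)) =
      2 * Real.pi * I * (iteratedDeriv n f 0 / (n.factorial : ℂ)) := by
  have hp : (0 : ℂ) ∈ Set.Ioo a b ×ℂ Set.Ioo c d := ⟨⟨ha, hb⟩, ⟨hc, hd⟩⟩
  have hB : ∀ s ∈ Bd a b c d, s ≠ 0 := fun s hs he => Bd_not_Ioo hs (he ▸ hp)
  induction n with
  | zero =>
    intro f hf
    have h := RI_cauchy (a := a) (b := b) (c := c) (d := d) (by linarith) (by linarith) hf hp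
    simp only [sub_zero] at h
    simp only [zero_add, pow_one, iteratedDeriv_zero, Nat.factorial_zero, Nat.cast_one, div_one]
    rw [← h]
    rfl
  | succ n ih =>
    intro f hf
    rw [circ_step hf n, ← ih (dslope_ent hf)]
    have e1 : RI a b c d (fun s => f s / s ^ (n + 1 + 1)) =
        RI a b c d (fun s => f 0 * s ^ (-(n + 2 : ℤ)) + dslope f 0 s / s ^ (n + 1)) := by
      apply RI_congr (by linarith) (by linarith)
      intro s hs
      have hs0 := hB s hs
      have e1 : s ^ (-(n + 2 : ℤ)) = 1 / s ^ (n + 2) := by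
        rw [zpow_neg, one_div]
        norm_cast
      rw [e1]
      nth_rewrite 1 [dslope_id f s]
      field_simp
      ring
    have c1 : ContinuousOn (fun s : ℂ => s ^ (-(n + 2 : ℤ))) (Bd a b c d) := by
      apply ContinuousOn.zpow₀ (by fun_prop)
      intro z hz
      exact Or.inl (hB z hz)
    have c2 : ContinuousOn (fun s : ℂ => dslope f 0 s / s ^ (n + 1)) (Bd a b c d) := by
      apply ContinuousOn.div (dslope_ent hf).continuous.continuousOn (by fun_prop)
      intro z hz
      exact pow_ne_zero _ (hB z hz)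
    have c3 : ContinuousOn (fun s : ℂ => f 0 * s ^ (-(n + 2 : ℤ))) (Bd a b c d) :=
      continuousOn_const.mul c1
    rw [e1, RI_add (by linarith) (by linarith) c3 c2, RI_const_mul]
    have hz : RI a b c d (fun s : ℂ => s ^ (-(n + 2 : ℤ))) = 0 := by
      apply RI_deriv (by linarith) (by linarith) (F := fun s => s ^ (-(n + 1 : ℤ)) / (-(n + 1 : ℤ))) _ c1
      intro s hs
      have h1 := (hasDerivAt_zpow (-(n + 1 : ℤ)) s (Or.inl (hB s hs))).div_const (-(n + 1 : ℤ) : ℂ)
      refine h1.congr_deriv ?_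
      have hn : ((-(n + 1 : ℤ) : ℤ) : ℂ) = -((n : ℂ) + 1) := by push_cast; ring
      have hn0 : (n : ℂ) + 1 ≠ 0 := by exact_mod_cast (by omega : n + 1 ≠ 0)
      have hexp : (-(n + 1 : ℤ) - 1 : ℤ) = -(n + 2 : ℤ) := by ring
      rw [hexp, hn]
      push_cast
      field_simp
    rw [hz]
    ring

end Pool.Agent.Helper85.LG
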