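import Pool.Graph.R_seed8.H370R2.Digamma

set_option autoImplicit false
set_option maxHeartbeats 1000000

open Complex Filter Topology Set

namespace Pool.Agent.Helper85.LG

/-- factor bound -/
lemma fac_le {u : ℂ} {V c : ℝ} (hc : 0 < c) (hu : c ≤ u.re) :
    ‖u‖ ^ 2 / (‖u + V * I‖ * ‖u - V * I‖) ≤ Real.exp (V ^ 2 / c ^ 2) := by
  have h1 : c ≤ ‖u + V * I‖ := by
    refine le_trans ?_ (re_le_norm _)
    simpa using hu
  have h2 : c ≤ ‖u - V * I‖ := by
    refine le_trans ?_ (re_le_norm _)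
    simpa using hu
  have h3 : c ^ 2 ≤ ‖u + V * I‖ * ‖u - V * I‖ := by
    nlinarith
  have h4 : 0 < ‖u + V * I‖ * ‖u - V * I‖ := lt_of_lt_of_le (by positivity) h3
  have h5 : ‖u‖ ^ 2 ≤ ‖u + V * I‖ * ‖u - V * I‖ + V ^ 2 := by
    have e : u ^ 2 = (u + V * I) * (u - V * I) - ((V ^ 2 : ℝ) : ℂ) := by
      push_cast
      ring_nf
      rw [I_sq]
      ring
    have h6 := norm_sub_le ((u + V * I) * (u - V * I)) ((V ^ 2 : ℝ) : ℂ)
    rw [← e, norm_mul, Complex.norm_real, Real.norm_of_nonneg (sq_nonneg V), norm_pow] at h6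
    exact h6
  rw [div_le_iff₀ h4]
  have h7 : 1 + V ^ 2 / c ^ 2 ≤ Real.exp (V ^ 2 / c ^ 2) := by
    have := Real.add_one_le_exp (V ^ 2 / c ^ 2)
    linarith
  have h8 : V ^ 2 ≤ V ^ 2 / c ^ 2 * (‖u + V * I‖ * ‖u - V * I‖) := by
    rw [div_mul_eq_mul_div, le_div_iff₀ (by positivity)]
    exact mul_le_mul_of_nonneg_left h3 (sq_nonneg V)
  nlinarith

lemma sum_half : Summable (fun j : ℕ => 1 / ((j : ℝ) + 1 / 2) ^ 2) := by
  have h := H370.DG.summable_inv_sq.mul_left 4
  refine Summable.of_nonneg_of_le (fun j => by positivity) (fun j => ?_) h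
  rw [mul_one_div, div_le_div_iff₀ (by positivity) (by positivity)]
  nlinarith [Nat.cast_nonneg (α := ℝ) j]

/-- the Gamma quotients are bounded -/
lemma ratio_bdd (V : ℝ) : ∃ C : ℝ, ∀ z : ℂ, 1 / 2 ≤ z.re →
    ‖Gamma (z + V * I) * Gamma (z - V * I) / Gamma z ^ 2‖ ≤ C := by
  refine ⟨Real.exp (V ^ 2 * ∑' j : ℕ, 1 / ((j : ℝ) + 1 / 2) ^ 2), fun z hz => ?_⟩
  have hz0 : Gamma z ≠ 0 := Gamma_ne_zero_of_re_pos (by linarith)
  have hlim : Tendsto (fun n : ℕ => ‖GammaSeq (z + V * I) n * GammaSeq (z - V * I) n /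
      GammaSeq z n ^ 2‖) atTop (𝓝 ‖Gamma (z + V * I) * Gamma (z - V * I) / Gamma z ^ 2‖) := by
    refine Tendsto.norm ?_
    refine Tendsto.div ((GammaSeq_tendsto_Gamma _).mul (GammaSeq_tendsto_Gamma _))
      ((GammaSeq_tendsto_Gamma z).pow 2) (pow_ne_zero _ hz0)
  refine le_of_tendsto hlim ?_
  filter_upwards [eventually_ge_atTop 1] with n hn
  have hn0 : (n : ℂ) ≠ 0 := by exact_mod_cast (by omega : n ≠ 0)
  have hz1 : ∀ j : ℕ, z + j ≠ 0 := by
    intro j h
    have := congrArg re h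
    simp at this
    have h0 : (0 : ℝ) ≤ j := Nat.cast_nonneg j
    linarith
  have hz2 : ∀ j : ℕ, z + V * I + j ≠ 0 := by
    intro j h
    have := congrArg re h
    simp at this
    have h0 : (0 : ℝ) ≤ j := Nat.cast_nonneg j
    linarith
  have hz3 : ∀ j : ℕ, z - V * I + j ≠ 0 := by
    intro j h
    have := congrArg re h
    simp at this
    have h0 : (0 : ℝ) ≤ j := Nat.cast_nonneg j
    linarith
  have e : GammaSeq (z + V * I) n * GammaSeq (z - V * I) n / GammaSeq z n ^ 2 =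
      ∏ j ∈ Finset.range (n + 1), ((z + j) ^ 2 / ((z + V * I + j) * (z - V * I + j))) := by
    rw [GammaSeq, GammaSeq, GammaSeq, Finset.prod_div_distrib, Finset.prod_pow,
      Finset.prod_mul_distrib]
    have p1 : ∏ j ∈ Finset.range (n + 1), (z + j) ≠ 0 := Finset.prod_ne_zero_iff.2 fun j _ => hz1 j
    have p2 : ∏ j ∈ Finset.range (n + 1), (z + V * I + j) ≠ 0 :=
      Finset.prod_ne_zero_iff.2 fun j _ => hz2 j
    have p3 : ∏ j ∈ Finset.range (n + 1), (z - V * I + j) ≠ 0 :=
      Finset.prod_ne_zero_iff.2 fun j _ => hz3 j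
    have p4 : (n : ℂ) ^ (z + V * I) * (n : ℂ) ^ (z - V * I) = ((n : ℂ) ^ z) ^ 2 := by
      rw [← cpow_add _ _ hn0, sq, ← cpow_add _ _ hn0]
      congr 1
      ring
    have p5 : (n : ℂ) ^ z ≠ 0 := by
      rw [cpow_def_of_ne_zero hn0]
      exact exp_ne_zero _
    have p6 : ((n.factorial : ℕ) : ℂ) ≠ 0 := by exact_mod_cast n.factorial_ne_zero
    have : (n : ℂ) ^ (z + V * I) * (n.factorial : ℂ) / (∏ j ∈ Finset.range (n + 1), (z + V * I + j)) *
        ((n : ℂ) ^ (z - V * I) * (n.factorial : ℂ) / (∏ j ∈ Finset.range (n + 1), (z - V * I + j))) =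
        ((n : ℂ) ^ (z + V * I) * (n : ℂ) ^ (z - V * I)) * (n.factorial : ℂ) ^ 2 /
          ((∏ j ∈ Finset.range (n + 1), (z + V * I + j)) *
            (∏ j ∈ Finset.range (n + 1), (z - V * I + j))) := by
      ring
    rw [this, p4]
    field_simp
  rw [e, norm_prod]
  calc ∏ j ∈ Finset.range (n + 1), ‖(z + j) ^ 2 / ((z + V * I + j) * (z - V * I + j))‖
      ≤ ∏ j ∈ Finset.range (n + 1), Real.exp (V ^ 2 * (1 / ((j : ℝ) + 1 / 2) ^ 2)) := by
        refine Finset.prod_le_prod (fun _ _ => norm_nonneg _) fun j _ => ?_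
        have h := fac_le (u := z + j) (V := V) (c := (j : ℝ) + 1 / 2) (by positivity) (by
          simp only [add_re, natCast_re]
          linarith)
        rw [norm_div, norm_pow, norm_mul]
        have e1 : z + V * I + j = z + j + V * I := by ring
        have e2 : z - V * I + j = z + j - V * I := by ring
        rw [e1, e2]
        refine h.trans (le_of_eq ?_)
        congr 1
        ring
    _ = Real.exp (V ^ 2 * ∑ j ∈ Finset.range (n + 1), (1 / ((j : ℝ) + 1 / 2) ^ 2)) := by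
        rw [← Real.exp_sum, Finset.mul_sum]
    _ ≤ _ := by
        apply Real.exp_le_exp.2
        apply mul_le_mul_of_nonneg_left _ (sq_nonneg V)
        exact sum_half.sum_le_tsum _ (fun j _ => by positivity)

/-- the modulus on the line `Re s = 1/2` -/
lemma norm_Gamma_half (T : ℝ) : ‖Gamma (1 / 2 + T * I)‖ ^ 2 = Real.pi / Real.cosh (Real.pi * T) := by
  have h1 := Gamma_mul_Gamma_one_sub (1 / 2 + T * I)
  have h2 : (1 : ℂ) - (1 / 2 + T * I) = (starRingEnd ℂ) (1 / 2 + T * I) := by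
    apply Complex.ext
    · simp
      norm_num
    · simp
  rw [h2, Gamma_conj, mul_conj, normSq_eq_norm_sq] at h1
  have h3 : Complex.sin (Real.pi * (1 / 2 + T * I)) = ((Real.cosh (Real.pi * T) : ℝ) : ℂ) := by
    have : (Real.pi : ℂ) * (1 / 2 + T * I) = (Real.pi * T : ℂ) * I + Real.pi / 2 := by ring
    rw [this, Complex.sin_add_pi_div_two, Complex.cos_mul_I]
    push_cast
    rfl
  rw [h3] at h1
  exact_mod_cast h1

lemma half_le (X V : ℝ) :
    ‖Gamma (1 / 2 + X * I + V * I) * Gamma (1 / 2 + X * I - V * I) / Gamma (1 / 2 + X * I) ^ 2‖ ≤ 1 := by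
  have e1 : (1 / 2 + X * I + V * I : ℂ) = 1 / 2 + ((X + V : ℝ) : ℂ) * I := by push_cast; ring
  have e2 : (1 / 2 + X * I - V * I : ℂ) = 1 / 2 + ((X - V : ℝ) : ℂ) * I := by push_cast; ring
  rw [e1, e2, norm_div, norm_mul, norm_pow]
  have h0 : 0 < ‖Gamma (1 / 2 + X * I)‖ := by
    rw [norm_pos_iff]
    exact Gamma_ne_zero_of_re_pos (by simp)
  rw [div_le_one (by positivity)]
  have h1 := norm_Gamma_half (X + V)
  have h2 := norm_Gamma_half (X - V)
  have h3 := norm_Gamma_half X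
  have c1 := Real.cosh_pos (Real.pi * (X + V))
  have c2 := Real.cosh_pos (Real.pi * (X - V))
  have c3 := Real.cosh_pos (Real.pi * X)
  have hc : Real.cosh (Real.pi * X) ^ 2 ≤ Real.cosh (Real.pi * (X + V)) * Real.cosh (Real.pi * (X - V)) := by
    have e3 : Real.pi * (X + V) = Real.pi * X + Real.pi * V := by ring
    have e4 : Real.pi * (X - V) = Real.pi * X - Real.pi * V := by ring
    rw [e3, e4, Real.cosh_add, Real.cosh_sub]
    have a1 := Real.cosh_sq (Real.pi * X)
    have a2 := Real.cosh_sq (Real.pi * V)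
    nlinarith [sq_nonneg (Real.sinh (Real.pi * V)), sq_nonneg (Real.sinh (Real.pi * X))]
  have hs : (‖Gamma (1 / 2 + ((X + V : ℝ) : ℂ) * I)‖ * ‖Gamma (1 / 2 + ((X - V : ℝ) : ℂ) * I)‖) ^ 2 ≤
      (‖Gamma (1 / 2 + X * I)‖ ^ 2) ^ 2 := by
    rw [mul_pow, h1, h2, h3, div_mul_div_comm, div_pow, ← sq]
    exact div_le_div_of_nonneg_left (by positivity) (by positivity) hc
  exact le_of_sq_le_sq hs (by positivity) 

/-- For `Re z ≥ 1/2` the modulus of Gamma is logarithmically concave on vertical lines. -/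
theorem concave {z : ℂ} (hz : 1 / 2 ≤ z.re) (V : ℝ) :
    ‖Gamma (z + V * I)‖ * ‖Gamma (z - V * I)‖ ≤ ‖Gamma z‖ ^ 2 := by
  obtain ⟨C, hC⟩ := ratio_bdd V
  set f : ℂ → ℂ := fun w => Gamma (w + 1 / 2 + V * I) * Gamma (w + 1 / 2 - V * I) /
    Gamma (w + 1 / 2) ^ 2 with hf
  have hb : ∀ w : ℂ, 0 ≤ w.re → ‖f w‖ ≤ C := by
    intro w hw
    exact hC (w + 1 / 2) (by simp; linarith)
  have hd : DifferentiableOn ℂ f {w | -(1 / 4) < w.re} := by
    intro w hw
    have hw' : -(1 / 4) < w.re := hw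
    have g1 : DifferentiableAt ℂ Gamma (w + 1 / 2 + V * I) := by
      apply Complex.differentiableAt_Gamma
      intro m h
      have := congrArg re h
      simp at this
      have h0 : (0 : ℝ) ≤ m := Nat.cast_nonneg m
      linarith
    have g2 : DifferentiableAt ℂ Gamma (w + 1 / 2 - V * I) := by
      apply Complex.differentiableAt_Gamma
      intro m h
      have := congrArg re h
      simp at this
      have h0 : (0 : ℝ) ≤ m := Nat.cast_nonneg m
      linarith
    have g3 : DifferentiableAt ℂ Gamma (w + 1 / 2) := by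
      apply Complex.differentiableAt_Gamma
      intro m h
      have := congrArg re h
      simp at this
      have h0 : (0 : ℝ) ≤ m := Nat.cast_nonneg m
      linarith
    have g0 : Gamma (w + 1 / 2) ≠ 0 := Gamma_ne_zero_of_re_pos (by simp; linarith)
    refine DifferentiableAt.differentiableWithinAt ?_
    have d1 : DifferentiableAt ℂ (fun w : ℂ => Gamma (w + 1 / 2 + V * I)) w :=
      g1.comp w (by fun_prop)
    have d2 : DifferentiableAt ℂ (fun w : ℂ => Gamma (w + 1 / 2 - V * I)) w :=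
      g2.comp w (by fun_prop)
    have d3 : DifferentiableAt ℂ (fun w : ℂ => Gamma (w + 1 / 2)) w :=
      g3.comp w (by fun_prop)
    exact (d1.mul d2).div (d3.pow 2) (pow_ne_zero _ g0)
  have hcl : closure {w : ℂ | 0 < w.re} ⊆ {w | -(1 / 4) < w.re} := by
    rw [Complex.closure_setOfPred_lt_re]
    intro w hw
    have : 0 ≤ w.re := hw
    show -(1 / 4) < w.re
    linarith
  have hdc : DiffContOnCl ℂ f {w | 0 < w.re} := by
    refine DifferentiableOn.diffContOnCl (hd.mono hcl)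
  have hres := PhragmenLindelof.right_half_plane_of_bounded_on_real (C := 1) hdc ?_ ?_ ?_
    (z := z - 1 / 2) (by simp; linarith)
  · rw [hf] at hres
    simp only [sub_add_cancel] at hres
    rw [norm_div, norm_mul, norm_pow, div_le_one] at hres
    · exact hres
    · have : Gamma z ≠ 0 := Gamma_ne_zero_of_re_pos (by linarith)
      positivity
  · refine ⟨1, by norm_num, 0, ?_⟩
    refine Asymptotics.IsBigO.of_bound C ?_
    rw [eventually_inf_principal]
    refine Eventually.of_forall fun w hw => ?_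
    simp only [zero_mul, Real.exp_zero, norm_one, mul_one]
    exact hb w (le_of_lt hw)
  · refine ⟨C, ?_⟩
    rw [eventually_map]
    filter_upwards [eventually_ge_atTop 0] with x hx
    exact hb x (by simpa using hx)
  · intro x
    have := half_le x V
    have e : (x : ℂ) * I + 1 / 2 = 1 / 2 + x * I := by ring
    simp only [hf, e]
    exact this

end Pool.Agent.Helper85.LG
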