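import Pool.Agent.Helper85.LG.Cau

set_option autoImplicit false
set_option maxHeartbeats 1000000

open Complex Filter Topology Set MeasureTheory H370

namespace Pool.Agent.Helper85.LG

/-- the Taylor coefficient of order `n` -/
noncomputable def tc (f : ℂ → ℂ) (n : ℕ) : ℂ := iteratedDeriv n f 0 / (n.factorial : ℂ)

variable {f : ℂ → ℂ} {y K : ℝ} {m : ℕ}

lemma line_bound (hy : 0 < y) (hK0 : 0 ≤ K) (hK : ∀ w : ℂ, |w.re| ≤ y → ‖f w‖ ≤ K * (1 + ‖w‖) ^ 4)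
    (hm : 3 ≤ m) : ∃ C : ℝ, ∀ v : ℝ,
    ‖f (y + v * I) / (y + v * I) ^ (2 * m + 1)‖ ≤ C * (1 + v ^ 2)⁻¹ := by
  set c : ℝ := min 1 (y ^ 2) with hc
  have hc0 : 0 < c := lt_min one_pos (by positivity)
  refine ⟨K * (1 + 1 / y) ^ 4 / (y ^ (2 * m - 5) * c), fun v => ?_⟩
  set w : ℂ := y + v * I with hw
  have hre : w.re = y := by simp [hw]
  have him : w.im = v := by simp [hw]
  have hn2 : ‖w‖ ^ 2 = y ^ 2 + v ^ 2 := by
    rw [Complex.sq_norm, normSq_apply, hre, him]; ring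
  have hny : y ≤ ‖w‖ := by
    have := re_le_norm w
    rwa [hre] at this
  have hw0 : 0 < ‖w‖ := lt_of_lt_of_le hy hny
  have h1 : ‖f w‖ ≤ K * ((1 + 1 / y) * ‖w‖) ^ 4 := by
    refine (hK w (by rw [hre, abs_of_pos hy])).trans ?_
    apply mul_le_mul_of_nonneg_left _ hK0
    apply pow_le_pow_left₀ (by positivity)
    have : 1 ≤ 1 / y * ‖w‖ := by
      rw [div_mul_eq_mul_div, one_mul, le_div_iff₀ hy]
      linarith
    linarith
  have h2 : c * (1 + v ^ 2) ≤ ‖w‖ ^ 2 := by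
    rw [hn2]
    have c1 : c ≤ 1 := min_le_left _ _
    have c2 : c ≤ y ^ 2 := min_le_right _ _
    nlinarith [sq_nonneg v]
  have h3 : y ^ (2 * m - 5) * (c * (1 + v ^ 2)) * ‖w‖ ^ 4 ≤ ‖w‖ ^ (2 * m + 1) := by
    have e : 2 * m + 1 = (2 * m - 5) + 2 + 4 := by omega
    rw [e, pow_add, pow_add]
    apply mul_le_mul_of_nonneg_right _ (by positivity)
    exact mul_le_mul (pow_le_pow_left₀ hy.le hny _) h2 (by positivity) (by positivity)
  rw [norm_div, norm_pow]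
  rw [div_le_iff₀ (by positivity)]
  refine h1.trans ?_
  have h4 : 0 < y ^ (2 * m - 5) * c := by positivity
  have e2 : K * (1 + 1 / y) ^ 4 / (y ^ (2 * m - 5) * c) * (1 + v ^ 2)⁻¹ * ‖w‖ ^ (2 * m + 1) =
      K * (1 + 1 / y) ^ 4 * (‖w‖ ^ (2 * m + 1) / (y ^ (2 * m - 5) * (c * (1 + v ^ 2)))) := by
    field_simp
  rw [e2, mul_pow, ← mul_assoc]
  apply mul_le_mul_of_nonneg_left _ (by positivity)
  rw [le_div_iff₀ (by positivity)]
  linarith

lemma line_int (hf : Differentiable ℂ f) (hy : 0 < y) (hK0 : 0 ≤ K)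
    (hK : ∀ w : ℂ, |w.re| ≤ y → ‖f w‖ ≤ K * (1 + ‖w‖) ^ 4) (hm : 3 ≤ m) :
    Integrable (fun v : ℝ => f (y + v * I) / (y + v * I) ^ (2 * m + 1)) := by
  obtain ⟨C, hC⟩ := line_bound hy hK0 hK hm
  refine (integrable_inv_one_add_sq.const_mul C).mono' ?_ (Eventually.of_forall hC)
  apply Continuous.aestronglyMeasurable
  apply Continuous.div
  · exact hf.continuous.comp (by fun_prop)
  · fun_prop
  · intro v h
    have h1 := pow_eq_zero_iff (by omega) |>.1 h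
    have := congrArg re h1
    simp at this
    linarith

lemma horiz (hK0 : 0 ≤ K) (hK : ∀ w : ℂ, |w.re| ≤ y → ‖f w‖ ≤ K * (1 + ‖w‖) ^ 4) (hm : 3 ≤ m)
    {T e : ℝ} (hT : 1 ≤ T) (he : |e| = T) {x : ℝ} (hx : |x| ≤ y) :
    ‖f ⟨x, e⟩ / (⟨x, e⟩ : ℂ) ^ (2 * m + 1)‖ ≤ 16 * K / T := by
  set w : ℂ := ⟨x, e⟩ with hw
  have hnT : T ≤ ‖w‖ := by
    have := abs_im_le_norm w
    rw [hw] at this
    simp only at this
    rwa [he] at this
  have hn1 : 1 ≤ ‖w‖ := hT.trans hnT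
  have h1 : ‖f w‖ ≤ K * (2 * ‖w‖) ^ 4 := by
    refine (hK w hx).trans ?_
    apply mul_le_mul_of_nonneg_left _ hK0
    exact pow_le_pow_left₀ (by positivity) (by linarith) _
  rw [norm_div, norm_pow, div_le_div_iff₀ (by positivity) (by linarith)]
  have h2 : ‖w‖ ^ 4 * T ≤ ‖w‖ ^ (2 * m + 1) := by
    have e1 : 2 * m + 1 = 4 + 1 + (2 * m - 4) := by omega
    rw [e1, pow_add, pow_add, pow_one]
    have h3 : 1 ≤ ‖w‖ ^ (2 * m - 4) := one_le_pow₀ hn1
    have h4 : 0 < ‖w‖ ^ 4 := by positivity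
    nlinarith [mul_le_mul_of_nonneg_left hnT h4.le, mul_pos h4 (lt_of_lt_of_le one_pos hn1)]
  calc ‖f w‖ * T ≤ K * (2 * ‖w‖) ^ 4 * T := mul_le_mul_of_nonneg_right h1 (by linarith)
    _ = 16 * K * (‖w‖ ^ 4 * T) := by ring
    _ ≤ 16 * K * ‖w‖ ^ (2 * m + 1) := mul_le_mul_of_nonneg_left h2 (by positivity)

theorem coef_line (hf : Differentiable ℂ f) (hev : ∀ w, f (-w) = f w) (hy : 0 < y) (hK0 : 0 ≤ K)
    (hK : ∀ w : ℂ, |w.re| ≤ y → ‖f w‖ ≤ K * (1 + ‖w‖) ^ 4) (hm : 3 ≤ m) :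
    ∫ v : ℝ, f (y + v * I) / (y + v * I) ^ (2 * m + 1) = Real.pi * tc f (2 * m) := by
  have hint := line_int hf hy hK0 hK hm
  have hlim : Tendsto (fun T : ℝ => ∫ v in (-T)..T, f (y + v * I) / (y + v * I) ^ (2 * m + 1))
      atTop (𝓝 (∫ v : ℝ, f (y + v * I) / (y + v * I) ^ (2 * m + 1))) :=
    intervalIntegral_tendsto_integral hint tendsto_neg_atTop_atBot tendsto_id
  have key : ∀ T : ℝ, 1 ≤ T → ‖(∫ v in (-T)..T, f (y + v * I) / (y + v * I) ^ (2 * m + 1)) -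
      Real.pi * tc f (2 * m)‖ ≤ 32 * K * y / T := by
    intro T hT
    have h := RI_coef (a := -y) (b := y) (c := -T) (d := T) (by linarith) hy (by linarith)
      (by linarith) (2 * m) hf
    unfold RI at h
    have hflip : (∫ v in (-T)..T, f (⟨-y, v⟩ : ℂ) / (⟨-y, v⟩ : ℂ) ^ (2 * m + 1)) =
        -∫ v in (-T)..T, f (y + v * I) / (y + v * I) ^ (2 * m + 1) := by
      have e1 : ∀ v : ℝ, f (⟨-y, v⟩ : ℂ) / (⟨-y, v⟩ : ℂ) ^ (2 * m + 1) =
          -(fun u : ℝ => f (y + u * I) / (y + u * I) ^ (2 * m + 1)) (-v) := by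
        intro v
        have e2 : (⟨-y, v⟩ : ℂ) = -(y + ((-v : ℝ) : ℂ) * I) := by
          rw [mk_eq]; push_cast; ring
        simp only
        rw [e2, hev, Odd.neg_pow (by exact ⟨m, rfl⟩)]
        rw [div_neg]
      have e5 := intervalIntegral.integral_comp_neg (a := -T) (b := T)
        (fun u : ℝ => f (y + u * I) / (y + u * I) ^ (2 * m + 1))
      rw [neg_neg] at e5
      rw [← e5, ← intervalIntegral.integral_neg]
      exact intervalIntegral.integral_congr fun v _ => e1 v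
    have hsame : (∫ v in (-T)..T, f (⟨y, v⟩ : ℂ) / (⟨y, v⟩ : ℂ) ^ (2 * m + 1)) =
        ∫ v in (-T)..T, f (y + v * I) / (y + v * I) ^ (2 * m + 1) := by
      simp only [mk_eq]
    rw [hflip, hsame] at h
    have hb : ∀ e : ℝ, |e| = T →
        ‖∫ x in (-y)..y, f (⟨x, e⟩ : ℂ) / (⟨x, e⟩ : ℂ) ^ (2 * m + 1)‖ ≤ 16 * K / T * (2 * y) := by
      intro e he
      have := intervalIntegral.norm_integral_le_of_norm_le_const (a := -y) (b := y)
        (f := fun x : ℝ => f (⟨x, e⟩ : ℂ) / (⟨x, e⟩ : ℂ) ^ (2 * m + 1)) (C := 16 * K / T) ?_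
      · refine this.trans (le_of_eq ?_)
        rw [abs_of_pos (by linarith)]
        ring
      · intro x hx
        rw [uIoc_of_le (by linarith)] at hx
        exact horiz hK0 hK hm hT he (abs_le.2 ⟨hx.1.le, hx.2⟩)
    have hb1 := hb (-T) (by rw [abs_neg, abs_of_pos (by linarith)])
    have hb2 := hb T (abs_of_pos (by linarith))
    set A := ∫ x in (-y)..y, f (⟨x, -T⟩ : ℂ) / (⟨x, -T⟩ : ℂ) ^ (2 * m + 1)
    set B := ∫ x in (-y)..y, f (⟨x, T⟩ : ℂ) / (⟨x, T⟩ : ℂ) ^ (2 * m + 1)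
    set J := ∫ v in (-T)..T, f (y + v * I) / (y + v * I) ^ (2 * m + 1)
    have e3 : J - Real.pi * tc f (2 * m) = (B - A) / (2 * I) := by
      have hI : (2 * I : ℂ) ≠ 0 := by simp
      rw [eq_div_iff hI]
      have h' : A - B + I * J - I * -J = 2 * Real.pi * I * tc f (2 * m) := h
      linear_combination h'
    rw [e3, norm_div]
    have e4 : ‖(2 * I : ℂ)‖ = 2 := by simp
    rw [e4, div_le_iff₀ (by norm_num)]
    refine (norm_sub_le _ _).trans ?_
    calc ‖B‖ + ‖A‖ ≤ 16 * K / T * (2 * y) + 16 * K / T * (2 * y) := add_le_add hb2 hb1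
      _ = 32 * K * y / T * 2 := by ring
  have hz : Tendsto (fun T : ℝ => 32 * K * y / T) atTop (𝓝 0) :=
    tendsto_const_nhds.div_atTop tendsto_id
  have hlim2 : Tendsto (fun T : ℝ => (∫ v in (-T)..T, f (y + v * I) / (y + v * I) ^ (2 * m + 1)))
      atTop (𝓝 (Real.pi * tc f (2 * m))) := by
    rw [tendsto_iff_norm_sub_tendsto_zero]
    refine squeeze_zero' (Eventually.of_forall fun _ => norm_nonneg _) ?_ hz
    filter_upwards [eventually_ge_atTop 1] with T hT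
    exact key T hT
  exact tendsto_nhds_unique hlim hlim2

end Pool.Agent.Helper85.LG
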