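import Pool.Agent.Helper85.LG.Sad
import Pool.Agent.Helper85.LG.Gam

set_option autoImplicit false
set_option maxHeartbeats 1000000

open Complex Filter Topology Set
open Pool.Agent.H306R2 (Zt)

namespace Pool.Agent.Helper85.LG

/-- the logarithmic size of the point `s` -/
noncomputable def Lg (s : ℂ) : ℝ := Real.log ‖3 + s / 2‖

lemma three_add_re {s : ℂ} (hs : 0 ≤ s.re) : 3 ≤ ‖3 + s / 2‖ := by
  have := Complex.re_le_norm (3 + s / 2)
  simp at this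
  linarith

/-- regularity of `Zt = (s - 1) ζ` at the point `s` at scale `y` -/
structure RegAt (ε y : ℝ) (s : ℂ) : Prop where
  ne : ∀ τ : ℝ, |τ| ≤ y / 2 → Zt (s + τ * I) ≠ 0
  der : ‖logDeriv Zt s‖ ≤ ε * Lg s
  lip : ∀ τ : ℝ, |τ| ≤ y / 2 → ‖logDeriv Zt (s + τ * I) - logDeriv Zt s‖ * y ≤ ε * Lg s * |τ|
  tail : ∀ t : ℝ, 1 / 2 ≤ |t| → ‖Zt (s + (y * t : ℝ) * I)‖ * ‖Zt (s - (y * t : ℝ) * I)‖ ≤
    (1 + t ^ 2) ^ (ε * (y * Lg s)) * ‖Zt s‖ ^ 2

lemma Pg_tail {s : ℂ} (hs : 0 ≤ s.re) (v : ℝ) : ‖Pg (s + v * I)‖ * ‖Pg (s - v * I)‖ ≤ ‖Pg s‖ ^ 2 := by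
  unfold Pg
  rw [norm_mul, norm_mul, norm_mul, norm_pi_cpow, norm_pi_cpow, norm_pi_cpow]
  have e1 : (s + v * I).re = s.re := by simp
  have e2 : (s - v * I).re = s.re := by simp
  have e3 : (1 + (s + v * I) / 2 : ℂ) = 1 + s / 2 + ((v / 2 : ℝ) : ℂ) * I := by push_cast; ring
  have e4 : (1 + (s - v * I) / 2 : ℂ) = 1 + s / 2 - ((v / 2 : ℝ) : ℂ) * I := by push_cast; ring
  rw [e1, e2, e3, e4]
  have h := concave (z := 1 + s / 2) (by simp; linarith) (v / 2)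
  have hp : 0 < Real.pi ^ (-s.re / 2) := Real.rpow_pos_of_pos Real.pi_pos _
  calc _ = (Real.pi ^ (-s.re / 2)) ^ 2 * (‖Gamma (1 + s / 2 + ((v / 2 : ℝ) : ℂ) * I)‖ *
        ‖Gamma (1 + s / 2 - ((v / 2 : ℝ) : ℂ) * I)‖) := by ring
    _ ≤ (Real.pi ^ (-s.re / 2)) ^ 2 * ‖Gamma (1 + s / 2)‖ ^ 2 :=
        mul_le_mul_of_nonneg_left h (by positivity)
    _ = _ := by ring

lemma one_add_pow_lower {κ : ℝ} (hκ : (10 : ℝ) ^ 9 ≤ κ) {t : ℝ} (ht : 1 / 2 ≤ |t|) :
    Real.sqrt κ * 10 ≤ (1 + t ^ 2) ^ (κ / 4) := by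
  have h9 : (10 : ℝ) ^ 9 = 1000000000 := by norm_num
  have ht2 : 1 / 4 ≤ t ^ 2 := by
    rw [← sq_abs]; nlinarith
  have h1 : (5 / 4 : ℝ) ^ (κ / 4) ≤ (1 + t ^ 2) ^ (κ / 4) :=
    Real.rpow_le_rpow (by norm_num) (by linarith) (by linarith)
  have h2 : 1 + κ / 4 * (1 / 4) ≤ (5 / 4 : ℝ) ^ (κ / 4) := by
    have := one_add_mul_self_le_rpow_one_add (s := (1 / 4 : ℝ)) (by norm_num) (p := κ / 4) (by linarith)
    norm_num at this ⊢
    linarith
  have h3 : 160 ≤ Real.sqrt κ := Real.le_sqrt_of_sq_le (by linarith)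
  have h4 : Real.sqrt κ ^ 2 = κ := Real.sq_sqrt (by linarith)
  nlinarith

/-- the saddle point function -/
noncomputable def kap (x y : ℝ) : ℝ := y * (2 * (logDeriv xi (1 / 2 + y + x * I)).re)

/-- Positivity from regularity at the saddle point. -/
theorem local_pos : ∃ L0 : ℝ, 1 ≤ L0 ∧ ∀ (x y : ℝ) (m : ℕ), 0 < y → (10 : ℝ) ^ 9 ≤ 2 * m + 1 →
    L0 ≤ Lg (1 / 2 + y + x * I) → RegAt (1 / 8192) y (1 / 2 + y + x * I) →
    kap x y = 2 * m + 1 → 0 < (tc (G x) (2 * m)).re := by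
  obtain ⟨C, hC1, hC⟩ := psi_re
  refine ⟨8 * (C + 2) + 20000, by linarith, fun x y m hy hm hL hreg hsad => ?_⟩
  set s : ℂ := 1 / 2 + y + x * I with hs
  set L := Lg s with hLdef
  have hsre : s.re = 1 / 2 + y := by rw [hs]; simp
  have hne0 : Zt s ≠ 0 := by
    have := hreg.ne 0 (by rw [abs_zero]; positivity)
    simpa using this
  have hτre : ∀ τ : ℝ, (s + τ * I).re = 1 / 2 + y := fun τ => by rw [hs]; simp
  have hxild := xi_logDeriv (s := s) (by rw [hsre]; linarith) hne0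
  have hpsi := hC (1 + s / 2) (by simp [hsre]; linarith)
  have e1 : (1 + s / 2 + 2 : ℂ) = 3 + s / 2 := by ring
  rw [e1] at hpsi
  change |(logDeriv Gamma (1 + s / 2)).re - L| ≤ C at hpsi
  rw [abs_le] at hpsi
  have hder := (Complex.abs_re_le_norm (logDeriv Zt s)).trans hreg.der
  rw [abs_le] at hder
  have hlogpi : Real.log Real.pi ≤ 2 := by
    rw [Real.log_le_iff_le_exp Real.pi_pos]
    have := Real.add_one_le_exp (1 : ℝ)
    have h2 : Real.exp 2 = Real.exp 1 * Real.exp 1 := by rw [← Real.exp_add]; norm_num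
    have := Real.exp_one_gt_d9
    have := Real.pi_lt_d2
    nlinarith
  have hlogpi0 : 0 ≤ Real.log Real.pi := Real.log_nonneg (by linarith [Real.pi_gt_three])
  have hkre : 2 * (logDeriv xi s).re = 2 * (logDeriv Zt s).re - Real.log Real.pi +
      (logDeriv Gamma (1 + s / 2)).re := by
    rw [hxild]
    simp
    ring
  -- lower bound for the saddle value
  have hκ : (2 * m + 1 : ℝ) = y * (2 * (logDeriv xi s).re) := by rw [← hsad]; rfl
  have hκlow : y * (3 / 4 * L) ≤ 2 * m + 1 := by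
    rw [hκ, hkre]
    apply mul_le_mul_of_nonneg_left _ hy.le
    linarith [hder.1, hpsi.1]
  have hL0 : 0 < L := by linarith
  set B : ℝ := (L / 8192 + 2) / y with hBdef
  have hB0 : 0 ≤ B := by positivity
  refine saddle_pos (x := x) (y := y) (B := B) hy hm hB0 ?_ ?_ ?_ ?_ ?_
  · intro τ hτ
    have e : (1 / 2 + y + ((x + τ : ℝ) : ℂ) * I) = s + τ * I := by rw [hs]; push_cast; ring
    rw [e, xi_eq (by rw [hτre]; linarith)]
    exact mul_ne_zero (hreg.ne τ hτ) (Pg_ne (by rw [hτre]; linarith))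
  · exact hsad
  · intro τ hτ
    have e : (1 / 2 + y + ((x + τ : ℝ) : ℂ) * I) = s + τ * I := by rw [hs]; push_cast; ring
    rw [e, xi_logDeriv (s := s + τ * I) (by rw [hτre]; linarith) (hreg.ne τ hτ), hxild]
    have hl := hreg.lip τ hτ
    have e2 : (1 + (s + τ * I) / 2 : ℂ) = 1 + s / 2 + ((τ / 2 : ℝ) : ℂ) * I := by push_cast; ring
    have hp := psi_lip (s := 1 + s / 2) (z := 1 + (s + τ * I) / 2) (by simp [hsre]; linarith)
      (by rw [e2]; simp [hsre]; linarith)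
    have hn : ‖(1 + (s + τ * I) / 2 - (1 + s / 2) : ℂ)‖ = |τ| / 2 := by
      rw [e2, add_sub_cancel_left, norm_mul, norm_I, mul_one, Complex.norm_real, Real.norm_eq_abs,
        abs_div, abs_two]
    rw [hn] at hp
    have hcc : ∀ z : ℂ, y / 2 ≤ z.re → 2 / cc z ≤ 4 / y := by
      intro z hz
      have h0 : y / 2 ≤ cc z := by
        have : 0 ≤ |z.im| := abs_nonneg _
        rw [cc]; linarith
      rw [div_le_div_iff₀ (by linarith [half_pos hy]) hy]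
      linarith
    have h1 := hcc (1 + s / 2) (by simp [hsre]; linarith)
    have h2 := hcc (1 + (s + τ * I) / 2) (by rw [e2]; simp [hsre]; linarith)
    have h3 : ‖logDeriv Gamma (1 + (s + τ * I) / 2) - logDeriv Gamma (1 + s / 2)‖ ≤ |τ| / 2 * (8 / y) := by
      refine hp.trans (mul_le_mul_of_nonneg_left ?_ (by positivity))
      have : (8 : ℝ) / y = 4 / y + 4 / y := by ring
      linarith
    have h4 : ‖logDeriv Zt (s + τ * I) - logDeriv Zt s‖ ≤ L / 8192 / y * |τ| := by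
      rw [div_mul_eq_mul_div, le_div_iff₀ hy]
      refine hl.trans (le_of_eq ?_)
      ring
    calc ‖logDeriv Zt (s + τ * I) - (Real.log Real.pi : ℂ) / 2 + logDeriv Gamma (1 + (s + τ * I) / 2) / 2 -
        (logDeriv Zt s - (Real.log Real.pi : ℂ) / 2 + logDeriv Gamma (1 + s / 2) / 2)‖
        = ‖(logDeriv Zt (s + τ * I) - logDeriv Zt s) +
          (logDeriv Gamma (1 + (s + τ * I) / 2) - logDeriv Gamma (1 + s / 2)) / 2‖ := by congr 1; ring
      _ ≤ ‖logDeriv Zt (s + τ * I) - logDeriv Zt s‖ +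
          ‖logDeriv Gamma (1 + (s + τ * I) / 2) - logDeriv Gamma (1 + s / 2)‖ / 2 := by
          refine (norm_add_le _ _).trans (le_of_eq ?_)
          rw [norm_div]; norm_num
      _ ≤ L / 8192 / y * |τ| + |τ| / 2 * (8 / y) / 2 := by linarith
      _ = B * |τ| := by rw [hBdef]; field_simp; ring
  · have e : B * y ^ 2 = (L / 8192 + 2) * y := by rw [hBdef]; field_simp
    rw [mul_assoc, e]
    refine le_trans ?_ hκlow
    have : 2048 * (L / 8192 + 2) ≤ 3 / 4 * L := by linarith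
    nlinarith
  · intro t ht
    have ea : (1 / 2 + y + ((x + y * t : ℝ) : ℂ) * I) = s + ((y * t : ℝ) : ℂ) * I := by
      rw [hs]; push_cast; ring
    have eb : (1 / 2 + y + ((x - y * t : ℝ) : ℂ) * I) = s - ((y * t : ℝ) : ℂ) * I := by
      rw [hs]; push_cast; ring
    have ra : (s + ((y * t : ℝ) : ℂ) * I).re = 1 / 2 + y := by rw [hs]; simp
    have rb : (s - ((y * t : ℝ) : ℂ) * I).re = 1 / 2 + y := by rw [hs]; simp
    rw [ea, eb, xi_eq (by rw [ra]; linarith), xi_eq (by rw [rb]; linarith),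
      xi_eq (s := s) (by rw [hsre]; linarith), norm_mul, norm_mul, norm_mul]
    have h1 := hreg.tail t ht
    have h2 := Pg_tail (s := s) (by rw [hsre]; linarith) (y * t)
    have h3 := one_add_pow_lower hm ht
    have ht2 : 1 / 4 ≤ t ^ 2 := by
      rw [← sq_abs]; nlinarith
    have hone : 1 ≤ 1 + t ^ 2 := by linarith
    have h4 : (1 + t ^ 2) ^ (1 / 8192 * (y * L)) * (1 + t ^ 2) ^ ((2 * m + 1 : ℝ) / 4) ≤
        (1 + t ^ 2) ^ (m - 1 : ℝ) := by
      rw [← Real.rpow_add (by linarith)]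
      apply Real.rpow_le_rpow_of_exponent_le hone
      have : (10 : ℝ) ^ 9 = 1000000000 := by norm_num
      nlinarith
    have hA : 0 ≤ (1 + t ^ 2) ^ (1 / 8192 * (y * L)) := by positivity
    calc ‖Zt (s + ((y * t : ℝ) : ℂ) * I)‖ * ‖Pg (s + ((y * t : ℝ) : ℂ) * I)‖ *
          (‖Zt (s - ((y * t : ℝ) : ℂ) * I)‖ * ‖Pg (s - ((y * t : ℝ) : ℂ) * I)‖) * (Real.sqrt (2 * m + 1) * 10)
        = (‖Zt (s + ((y * t : ℝ) : ℂ) * I)‖ * ‖Zt (s - ((y * t : ℝ) : ℂ) * I)‖) *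
          (‖Pg (s + ((y * t : ℝ) : ℂ) * I)‖ * ‖Pg (s - ((y * t : ℝ) : ℂ) * I)‖) *
          (Real.sqrt (2 * m + 1) * 10) := by ring
      _ ≤ ((1 + t ^ 2) ^ (1 / 8192 * (y * L)) * ‖Zt s‖ ^ 2) * ‖Pg s‖ ^ 2 *
          (1 + t ^ 2) ^ ((2 * m + 1 : ℝ) / 4) := by
          apply mul_le_mul _ h3 (by positivity) (by positivity)
          exact mul_le_mul h1 h2 (by positivity) (by positivity)
      _ = ((1 + t ^ 2) ^ (1 / 8192 * (y * L)) * (1 + t ^ 2) ^ ((2 * m + 1 : ℝ) / 4)) *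
          (‖Zt s‖ * ‖Pg s‖) ^ 2 := by ring
      _ ≤ (1 + t ^ 2) ^ (m - 1 : ℝ) * (‖Zt s‖ * ‖Pg s‖) ^ 2 :=
          mul_le_mul_of_nonneg_right h4 (by positivity)

end Pool.Agent.Helper85.LG
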