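import Pool.Agent.Helper85.LG.Gam

set_option autoImplicit false
set_option maxHeartbeats 1000000

open Complex Filter Topology Set

namespace Pool.Agent.Helper85.LG

/-- `∑ 1/(c+n)^2 ≤ 2/c` -/
lemma sum_sq_le {c : ℝ} (hc : 1 ≤ c) :
    Summable (fun n : ℕ => 1 / (c + n) ^ 2) ∧ ∑' n : ℕ, 1 / (c + n) ^ 2 ≤ 2 / c := by
  have hs : Summable (fun n : ℕ => 1 / (c + n) ^ 2) := by
    refine Summable.of_nonneg_of_le (fun n => by positivity) (fun n => ?_) H370.DG.summable_inv_sq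
    apply one_div_le_one_div_of_le (by positivity)
    have h0 : (0 : ℝ) ≤ n := Nat.cast_nonneg n
    nlinarith
  refine ⟨hs, ?_⟩
  refine hs.tsum_le_of_sum_range_le fun N => ?_
  have h1 : ∀ N : ℕ, ∑ n ∈ Finset.range (N + 1), 1 / (c + n) ^ 2 ≤ 1 / c ^ 2 + (1 / c - 1 / (c + N)) := by
    intro N
    induction N with
    | zero => simp
    | succ N ih =>
      rw [Finset.sum_range_succ]
      have h0 : (0 : ℝ) ≤ N := Nat.cast_nonneg N
      have h2 : 1 / (c + ((N + 1 : ℕ) : ℝ)) ^ 2 ≤ 1 / (c + N) - 1 / (c + ((N + 1 : ℕ) : ℝ)) := by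
        push_cast
        have p1 : 0 < c + N := by positivity
        have p2 : 0 < c + (N + 1) := by positivity
        rw [div_sub_div _ _ p1.ne' p2.ne', div_le_div_iff₀ (by positivity) (by positivity)]
        nlinarith
      linarith
  have h3 := h1 N
  have h4 : ∑ n ∈ Finset.range N, 1 / (c + n) ^ 2 ≤ ∑ n ∈ Finset.range (N + 1), 1 / (c + n) ^ 2 := by
    rw [Finset.sum_range_succ]
    have : 0 ≤ 1 / (c + N) ^ 2 := by positivity
    linarith
  have h5 : 0 ≤ 1 / (c + N) := by positivity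
  have h6 : 1 / c ^ 2 ≤ 1 / c := by
    apply one_div_le_one_div_of_le (by linarith)
    nlinarith
  have h7 : 2 / c = 1 / c + 1 / c := by ring
  linarith

/-- `Re s + |Im s|` -/
noncomputable def cc (s : ℂ) : ℝ := s.re + |s.im|

lemma norm_le_cc {s : ℂ} (hs : 0 ≤ s.re) : ‖s‖ ≤ cc s := by
  have := norm_le_abs_re_add_abs_im s
  rwa [abs_of_nonneg hs] at this

lemma cc_add {s : ℂ} (n : ℕ) : cc (s + n) = cc s + n := by
  simp [cc]
  ring

lemma cc_le (s : ℂ) : cc s ^ 2 ≤ 2 * ‖s‖ ^ 2 := by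
  have h := Complex.sq_norm s
  rw [normSq_apply] at h
  have h1 : |s.im| ^ 2 = s.im ^ 2 := sq_abs _
  rw [cc]
  nlinarith [sq_nonneg (s.re - |s.im|)]

lemma inv_sq_le {s : ℂ} (hs : 1 ≤ s.re) (n : ℕ) : 1 / ‖s + n‖ ^ 2 ≤ 2 * (1 / (cc s + n) ^ 2) := by
  have h0 : (0 : ℝ) ≤ n := Nat.cast_nonneg n
  have h1 := cc_le (s + n)
  rw [cc_add] at h1
  have h2 : 0 < cc s + n := by
    have : 0 ≤ |s.im| := abs_nonneg _
    rw [cc]
    linarith
  have h3 : 0 < ‖s + n‖ ^ 2 := by nlinarith [sq_nonneg (cc s + n)]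
  rw [mul_one_div, div_le_div_iff₀ h3 (by positivity)]
  linarith

/-- the difference of two values of the digamma function -/
lemma psi_sub {s z : ℂ} (hs : 0 < s.re) (hz : 0 < z.re) :
    HasSum (fun n : ℕ => 1 / (s + n) - 1 / (z + n)) (logDeriv Gamma z - logDeriv Gamma s) := by
  have h1 := (H370.DG.summable_gd (s := z) (by linarith)).hasSum.sub
    (H370.DG.summable_gd (s := s) (by linarith)).hasSum
  rw [← hasSum_nat_add_iff' 2]
  have e1 : logDeriv Gamma z - logDeriv Gamma s - ∑ i ∈ Finset.range 2, (1 / (s + i) - 1 / (z + i)) =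
      ∑' n, H370.DG.gd n z - ∑' n, H370.DG.gd n s := by
    rw [H370.DG.logDeriv_Gamma hz, H370.DG.logDeriv_Gamma hs, Finset.sum_range_succ,
      Finset.sum_range_one]
    push_cast
    ring
  rw [e1]
  have e2 : (fun n : ℕ => 1 / (s + ((n + 2 : ℕ) : ℂ)) - 1 / (z + ((n + 2 : ℕ) : ℂ))) =
      fun n => H370.DG.gd n z - H370.DG.gd n s := by
    funext n
    unfold H370.DG.gd
    push_cast
    ring
  rw [e2]
  exact h1

/-- Lipschitz estimate for the digamma function on vertical lines -/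
lemma psi_lip {s z : ℂ} (hs : 1 ≤ s.re) (hz : 1 ≤ z.re) :
    ‖logDeriv Gamma z - logDeriv Gamma s‖ ≤ ‖z - s‖ * (2 / cc s + 2 / cc z) := by
  have hcs : 1 ≤ cc s := by
    have : 0 ≤ |s.im| := abs_nonneg _
    rw [cc]; linarith
  have hcz : 1 ≤ cc z := by
    have : 0 ≤ |z.im| := abs_nonneg _
    rw [cc]; linarith
  have h := psi_sub (s := s) (z := z) (by linarith) (by linarith)
  obtain ⟨s1, s2⟩ := sum_sq_le hcs
  obtain ⟨z1, z2⟩ := sum_sq_le hcz
  have hb : ∀ n : ℕ, ‖1 / (s + n) - 1 / (z + n)‖ ≤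
      ‖z - s‖ * (1 / (cc s + n) ^ 2 + 1 / (cc z + n) ^ 2) := by
    intro n
    have h0 : (0 : ℝ) ≤ n := Nat.cast_nonneg n
    have ps : 0 < ‖s + n‖ := by
      refine lt_of_lt_of_le ?_ (re_le_norm _)
      simp; linarith
    have pz : 0 < ‖z + n‖ := by
      refine lt_of_lt_of_le ?_ (re_le_norm _)
      simp; linarith
    have e : 1 / (s + n) - 1 / (z + n) = (z - s) * (1 / (s + n) * (1 / (z + n))) := by
      have := norm_pos_iff.1 ps
      have := norm_pos_iff.1 pz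
      field_simp
      ring
    rw [e, norm_mul]
    apply mul_le_mul_of_nonneg_left _ (norm_nonneg _)
    rw [norm_mul, norm_div, norm_div, norm_one]
    have a1 := inv_sq_le hs n
    have a2 := inv_sq_le hz n
    have a3 : (1 / ‖s + n‖) ^ 2 = 1 / ‖s + n‖ ^ 2 := by rw [div_pow, one_pow]
    have a4 : (1 / ‖z + n‖) ^ 2 = 1 / ‖z + n‖ ^ 2 := by rw [div_pow, one_pow]
    nlinarith [sq_nonneg (1 / ‖s + n‖ - 1 / ‖z + n‖)]
  have h3 := (s1.add z1).mul_left ‖z - s‖
  have h4 : ‖logDeriv Gamma z - logDeriv Gamma s‖ ≤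
      ∑' n : ℕ, ‖z - s‖ * (1 / (cc s + n) ^ 2 + 1 / (cc z + n) ^ 2) := by
    rw [← h.tsum_eq]
    exact tsum_of_norm_bounded h3.hasSum hb
  rw [tsum_mul_left, s1.tsum_add z1] at h4
  refine h4.trans ?_
  apply mul_le_mul_of_nonneg_left _ (norm_nonneg _)
  linarith

/-- size of the digamma function -/
lemma psi_re : ∃ C : ℝ, 1 ≤ C ∧ ∀ s : ℂ, 1 ≤ s.re →
    |(logDeriv Gamma s).re - Real.log ‖s + 2‖| ≤ C := by
  have hZ : (0 : ℝ) ≤ ∑' n : ℕ, 1 / ((n : ℝ) + 1) ^ 2 := tsum_nonneg fun n => by positivity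
  refine ⟨2 + ∑' n : ℕ, 1 / ((n : ℝ) + 1) ^ 2, by linarith, fun s hs => ?_⟩
  have h1 := H370.DG.logDeriv_Gamma' (s := s) (by linarith)
  have h2 := H370.DG.norm_tsum_er (s := s) (by linarith)
  have b1 : ‖1 / s‖ ≤ 1 := by
    have : 1 ≤ ‖s‖ := hs.trans (re_le_norm s)
    rw [norm_div, norm_one, div_le_one (by linarith)]
    exact this
  have b2 : ‖1 / (s + 1)‖ ≤ 1 := by
    have : 1 ≤ ‖s + 1‖ := by
      refine le_trans ?_ (re_le_norm (s + 1))
      simp; linarith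
    rw [norm_div, norm_one, div_le_one (by linarith)]
    exact this
  have e : (logDeriv Gamma s).re - Real.log ‖s + 2‖ =
      (-(1 / s) - 1 / (s + 1) + ∑' n, H370.DG.er n s).re := by
    rw [h1]
    simp only [add_re, sub_re, neg_re, log_re]
    ring
  rw [e]
  refine (abs_re_le_norm _).trans ?_
  have n1 := norm_add_le (-(1 / s) - 1 / (s + 1)) (∑' n, H370.DG.er n s)
  have n2 := norm_sub_le (-(1 / s)) (1 / (s + 1))
  rw [norm_neg] at n2
  linarith

end Pool.Agent.Helper85.LG
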