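import Pool.Agent.Helper85.LG.Psi
import Pool.Agent.Helper85.LG.Line
import Pool.Graph.R_seed8.H306R2.ZetaGrowth

set_option autoImplicit false
set_option maxHeartbeats 1000000

open Complex Filter Topology Set
open Pool.Agent.H306R2 (Zt)

namespace Pool.Agent.Helper85.LG

/-- Riemann's entire function `ξ(s) = s (s - 1) / 2 · π^(-s/2) Γ(s/2) ζ(s)` -/
noncomputable def xi (s : ℂ) : ℂ := (s * (s - 1) * completedRiemannZeta₀ s + 1) / 2

lemma xi_diff : Differentiable ℂ xi := by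
  unfold xi
  have := differentiable_completedZeta₀
  fun_prop

lemma xi_one_sub (s : ℂ) : xi (1 - s) = xi s := by
  unfold xi
  rw [completedRiemannZeta₀_one_sub]
  ring

/-- the Gamma factor -/
noncomputable def Pg (s : ℂ) : ℂ := (Real.pi : ℂ) ^ (-s / 2) * Gamma (1 + s / 2)

lemma Pg_ne {s : ℂ} (hs : 0 < s.re) : Pg s ≠ 0 := by
  unfold Pg
  refine mul_ne_zero ?_ (Gamma_ne_zero_of_re_pos (by simp; linarith))
  rw [Complex.cpow_def_of_ne_zero (by exact_mod_cast Real.pi_pos.ne')]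
  exact exp_ne_zero _

lemma xi_eq_ne {s : ℂ} (hs : 0 < s.re) (h1 : s ≠ 1) : xi s = Zt s * Pg s := by
  have h0 : s ≠ 0 := by
    intro h
    rw [h] at hs
    simp at hs
  rw [← Pool.Agent.H306R2.zeta_eq_pos hs h1, riemannZeta_def_of_ne_zero h0, completedRiemannZeta_eq,
    Gammaℝ_def]
  have h2 : Gamma (1 + s / 2) = s / 2 * Gamma (s / 2) := by
    rw [add_comm]
    exact Gamma_add_one _ (div_ne_zero h0 two_ne_zero)
  unfold xi Pg
  rw [h2]
  have h3 : (Real.pi : ℂ) ^ (-s / 2) ≠ 0 := by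
    rw [Complex.cpow_def_of_ne_zero (by exact_mod_cast Real.pi_pos.ne')]
    exact exp_ne_zero _
  have h4 : Gamma (s / 2) ≠ 0 := Gamma_ne_zero_of_re_pos (by simp; linarith)
  have h5 : (1 - s : ℂ) ≠ 0 := sub_ne_zero.2 (Ne.symm h1)
  field_simp
  ring

lemma Pg_diffAt {s : ℂ} (hs : 0 < s.re) : DifferentiableAt ℂ Pg s := by
  have hg : DifferentiableAt ℂ Gamma (1 + s / 2) := by
    apply Complex.differentiableAt_Gamma
    intro m h
    have := congrArg re h
    simp at this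
    have h0 : (0 : ℝ) ≤ m := Nat.cast_nonneg m
    linarith
  have h1 : DifferentiableAt ℂ (fun s : ℂ => (Real.pi : ℂ) ^ (-s / 2)) s := by
    refine DifferentiableAt.const_cpow (by fun_prop) (Or.inl ?_)
    exact_mod_cast Real.pi_pos.ne'
  exact h1.mul (hg.comp s (by fun_prop))

lemma xi_eq {s : ℂ} (hs : 0 < s.re) : xi s = Zt s * Pg s := by
  by_cases h1 : s = 1
  · -- by continuity
    have hc1 : Tendsto xi (𝓝[≠] (1 : ℂ)) (𝓝 (xi 1)) :=
      (xi_diff.continuous.tendsto 1).mono_left nhdsWithin_le_nhds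
    have hc2 : Tendsto (fun s => Zt s * Pg s) (𝓝[≠] (1 : ℂ)) (𝓝 (Zt 1 * Pg 1)) := by
      have d1 := (Pool.Agent.H306R2.Zt_differentiableAt (s := 1) (by simp)).continuousAt
      have d2 := (Pg_diffAt (s := 1) (by simp)).continuousAt
      exact (d1.mul d2).tendsto.mono_left nhdsWithin_le_nhds
    rw [h1]
    refine tendsto_nhds_unique hc1 (hc2.congr' ?_)
    have hn : {z : ℂ | 0 < z.re} ∈ 𝓝[≠] (1 : ℂ) :=
      nhdsWithin_le_nhds ((isOpen_lt continuous_const continuous_re).mem_nhds (by simp))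
    filter_upwards [hn, self_mem_nhdsWithin] with z hz hz1
    exact (xi_eq_ne hz hz1).symm
  · exact xi_eq_ne hs h1

lemma Gamma_conj_half (s : ℂ) : Gamma (1 + (starRingEnd ℂ) s / 2) = (starRingEnd ℂ) (Gamma (1 + s / 2)) := by
  rw [← Complex.Gamma_conj]
  congr 1
  rw [map_add, map_one, map_div₀, Complex.conj_ofNat]

lemma Pg_conj (s : ℂ) : Pg ((starRingEnd ℂ) s) = (starRingEnd ℂ) (Pg s) := by
  unfold Pg
  rw [map_mul, Gamma_conj_half]
  congr 1
  have h := Complex.cpow_conj (Real.pi : ℂ) (-s / 2) (by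
      rw [Complex.arg_ofReal_of_nonneg Real.pi_pos.le]; exact Real.pi_pos.ne)
  rw [Complex.conj_ofReal] at h
  rw [← h]
  congr 1
  rw [map_div₀, map_neg, Complex.conj_ofNat]

lemma xi_conj (s : ℂ) : xi ((starRingEnd ℂ) s) = (starRingEnd ℂ) (xi s) := by
  have hd : Differentiable ℂ (fun w => starRingEnd ℂ (xi (starRingEnd ℂ w))) := by
    intro z
    have h3 := (xi_diff (starRingEnd ℂ z)).conj_conj
    rw [Complex.conj_conj] at h3
    exact h3
  have heq : (fun w => starRingEnd ℂ (xi (starRingEnd ℂ w))) = xi := by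
    refine AnalyticOnNhd.eq_of_eventuallyEq (z₀ := (2 : ℂ)) (fun z _ => hd.analyticAt z)
      (fun z _ => xi_diff.analyticAt z) ?_
    have h1 : {z : ℂ | 1 < z.re} ∈ 𝓝 (2 : ℂ) :=
      (isOpen_lt continuous_const Complex.continuous_re).mem_nhds (by simp)
    filter_upwards [h1] with z hz
    have hz' : 1 < z.re := hz
    have hne : z ≠ 1 := by rintro rfl; norm_num at hz'
    have hne2 : starRingEnd ℂ z ≠ 1 := by
      intro h
      have := congrArg Complex.re h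
      rw [Complex.conj_re] at this
      norm_num at this
      linarith
    rw [xi_eq_ne (by linarith) hne, xi_eq_ne (by rw [Complex.conj_re]; linarith) hne2, map_mul, Pg_conj,
      Complex.conj_conj, ← Pool.Agent.H306R2.zeta_eq_pos (by linarith) hne,
      ← Pool.Agent.H306R2.zeta_eq_pos (by rw [Complex.conj_re]; linarith) hne2, map_mul,
      ← riemannZeta_conj, Complex.conj_conj, map_sub, Complex.conj_conj, map_one]
  have : starRingEnd ℂ (xi (starRingEnd ℂ s)) = xi s := congrFun heq s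
  rw [← this, Complex.conj_conj]

/-- the logarithmic derivative -/
lemma xi_logDeriv {s : ℂ} (hs : 0 < s.re) (hZ : Zt s ≠ 0) :
    logDeriv xi s = logDeriv Zt s - (Real.log Real.pi : ℂ) / 2 + logDeriv Gamma (1 + s / 2) / 2 := by
  have hpi0 : (Real.pi : ℂ) ≠ 0 := by exact_mod_cast Real.pi_pos.ne'
  have hev : xi =ᶠ[𝓝 s] fun z => Zt z * Pg z := by
    have : {z : ℂ | 0 < z.re} ∈ 𝓝 s := (isOpen_lt continuous_const continuous_re).mem_nhds hs
    filter_upwards [this] with z hz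
    exact xi_eq hz
  have hsne : ∀ m : ℕ, (1 + s / 2 : ℂ) ≠ -m := by
    intro m h
    have := congrArg re h
    simp at this
    have h0 : (0 : ℝ) ≤ m := Nat.cast_nonneg m
    linarith
  have hd2 : HasDerivAt (fun s : ℂ => (Real.pi : ℂ) ^ (-s / 2))
      ((Real.pi : ℂ) ^ (-s / 2) * Complex.log Real.pi * (-1 / 2)) s := by
    have h1 : HasDerivAt (fun s : ℂ => -s / 2) (-1 / 2) s := ((hasDerivAt_id s).neg).div_const 2
    exact h1.const_cpow (Or.inl hpi0)
  have hd3 : HasDerivAt (fun s : ℂ => Complex.Gamma (1 + s / 2))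
      (deriv Complex.Gamma (1 + s / 2) * (1 / 2)) s := by
    have h1 : HasDerivAt (fun s : ℂ => 1 + s / 2) (1 / 2) s :=
      ((hasDerivAt_id s).div_const 2).const_add 1
    exact (Complex.differentiableAt_Gamma _ hsne).hasDerivAt.comp s h1
  have hg0 : Gamma (1 + s / 2) ≠ 0 := Gamma_ne_zero_of_re_pos (by simp; linarith)
  have hp0 : (Real.pi : ℂ) ^ (-s / 2) ≠ 0 := by
    rw [Complex.cpow_def_of_ne_zero hpi0]
    exact exp_ne_zero _
  have hP : logDeriv Pg s = - (Real.log Real.pi : ℂ) / 2 + logDeriv Gamma (1 + s / 2) / 2 := by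
    have hd := hd2.mul hd3
    have : deriv Pg s = (Real.pi : ℂ) ^ (-s / 2) * Complex.log Real.pi * (-1 / 2) * Gamma (1 + s / 2) +
        (Real.pi : ℂ) ^ (-s / 2) * (deriv Complex.Gamma (1 + s / 2) * (1 / 2)) := hd.deriv
    rw [logDeriv_apply, this, logDeriv_apply, Pg, Complex.ofReal_log Real.pi_pos.le]
    generalize Gamma (1 + s / 2) = g at *
    generalize deriv Gamma (1 + s / 2) = g' at *
    generalize (Real.pi : ℂ) ^ (-s / 2) = p at *
    generalize log (Real.pi : ℂ) = l at *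
    field_simp
  have e1 : logDeriv xi s = logDeriv (fun z => Zt z * Pg z) s := by
    rw [logDeriv_apply, logDeriv_apply, hev.deriv_eq, hev.eq_of_nhds]
  rw [e1, logDeriv_mul s hZ (Pg_ne hs) (Pool.Agent.H306R2.Zt_differentiableAt hs) (Pg_diffAt hs), hP]
  ring

/-- `G_x(w) = ξ(1/2 + w + ix) ξ(1/2 + w - ix)` -/
noncomputable def G (x : ℝ) (w : ℂ) : ℂ := xi (1 / 2 + w + x * I) * xi (1 / 2 + w - x * I)

lemma G_diff (x : ℝ) : Differentiable ℂ (G x) := by
  unfold G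
  have := xi_diff
  fun_prop

lemma G_even (x : ℝ) (w : ℂ) : G x (-w) = G x w := by
  unfold G
  rw [← xi_one_sub (1 / 2 + -w + x * I), ← xi_one_sub (1 / 2 + -w - x * I), mul_comm]
  congr 2 <;> ring

lemma G_real (x y : ℝ) : G x y = ((‖xi (1 / 2 + y + x * I)‖ ^ 2 : ℝ) : ℂ) := by
  unfold G
  have : (1 / 2 + y - x * I : ℂ) = (starRingEnd ℂ) (1 / 2 + y + x * I) := by
    apply Complex.ext <;> simp
  rw [this, xi_conj, mul_conj, normSq_eq_norm_sq]

lemma norm_pi_cpow (s : ℂ) : ‖(Real.pi : ℂ) ^ (-s / 2)‖ = Real.pi ^ (-s.re / 2) := by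
  rw [Complex.norm_cpow_eq_rpow_re_of_pos Real.pi_pos]
  congr 1
  simp

lemma norm_Gamma_le {s : ℂ} (hs : 0 < s.re) : ‖Gamma s‖ ≤ Real.Gamma s.re := by
  rw [Gamma_eq_integral hs, Real.Gamma_eq_integral hs, GammaIntegral]
  refine (MeasureTheory.norm_integral_le_integral_norm _).trans (le_of_eq ?_)
  refine MeasureTheory.setIntegral_congr_fun measurableSet_Ioi fun t ht => ?_
  show ‖((Real.exp (-t) : ℝ) : ℂ) * (t : ℂ) ^ (s - 1)‖ = Real.exp (-t) * t ^ (s.re - 1)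
  rw [norm_mul, Complex.norm_cpow_eq_rpow_re_of_pos ht, Complex.norm_real,
    Real.norm_of_nonneg (Real.exp_pos _).le]
  simp

lemma xi_le {s : ℂ} (hs : 1 / 2 ≤ s.re) : ‖xi s‖ ≤ 3 * (‖s‖ + 1) ^ 2 * Real.Gamma (1 + s.re / 2) := by
  rw [xi_eq (by linarith), norm_mul, Pg, norm_mul, norm_pi_cpow]
  have h1 := Pool.Agent.H306R2.Zt_norm_le hs
  have h2 : Real.pi ^ (-s.re / 2) ≤ 1 := by
    apply Real.rpow_le_one_of_one_le_of_nonpos (by linarith [Real.pi_gt_three]) (by linarith)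
  have h3 : ‖Gamma (1 + s / 2)‖ ≤ Real.Gamma (1 + s.re / 2) := by
    have := norm_Gamma_le (s := 1 + s / 2) (by simp; linarith)
    simpa using this
  have h4 : 0 < Real.pi ^ (-s.re / 2) := Real.rpow_pos_of_pos Real.pi_pos _
  calc ‖Zt s‖ * (Real.pi ^ (-s.re / 2) * ‖Gamma (1 + s / 2)‖) ≤
      3 * (‖s‖ + 1) ^ 2 * (1 * Real.Gamma (1 + s.re / 2)) := by
        apply mul_le_mul h1 _ (by positivity) (by positivity)
        exact mul_le_mul h2 h3 (norm_nonneg _) zero_le_one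
    _ = _ := by ring

lemma G_bound (x : ℝ) {y : ℝ} (hy : 0 < y) : ∃ K : ℝ, 0 ≤ K ∧ ∀ w : ℂ, |w.re| ≤ y →
    ‖G x w‖ ≤ K * (1 + ‖w‖) ^ 4 := by
  obtain ⟨M, hM⟩ : ∃ M : ℝ, ∀ σ ∈ Icc (1 / 2 : ℝ) (1 / 2 + y), Real.Gamma (1 + σ / 2) ≤ M := by
    have hc : ContinuousOn (fun σ : ℝ => Real.Gamma (1 + σ / 2)) (Icc (1 / 2 : ℝ) (1 / 2 + y)) := by
      intro σ hσ
      have h1 : ContinuousAt Real.Gamma (1 + σ / 2) := by
        apply (Real.differentiableAt_Gamma _).continuousAt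
        intro m h
        have h0 : (0 : ℝ) ≤ m := Nat.cast_nonneg m
        linarith [hσ.1]
      have h2 : ContinuousAt (fun σ : ℝ => 1 + σ / 2) σ := by fun_prop
      exact (ContinuousAt.comp (g := Real.Gamma) (f := fun σ : ℝ => 1 + σ / 2) h1 h2).continuousWithinAt
    obtain ⟨M, hM⟩ := isCompact_Icc.bddAbove_image hc
    exact ⟨M, fun σ hσ => hM ⟨σ, hσ, rfl⟩⟩
  have hM0 : 0 ≤ M := by
    refine le_trans ?_ (hM (1 / 2) ⟨le_rfl, by linarith⟩)
    exact (Real.Gamma_pos_of_pos (by norm_num)).le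
  refine ⟨(3 * (2 + |x|) ^ 2 * M) ^ 2, by positivity, ?_⟩
  have key : ∀ w : ℂ, 0 ≤ w.re → w.re ≤ y → ‖G x w‖ ≤ (3 * (2 + |x|) ^ 2 * M) ^ 2 * (1 + ‖w‖) ^ 4 := by
    intro w h0 hw
    have hb : ∀ s : ℂ, s.re = 1 / 2 + w.re → ‖s‖ ≤ 1 / 2 + ‖w‖ + |x| →
        ‖xi s‖ ≤ 3 * (2 + |x|) ^ 2 * M * (1 + ‖w‖) ^ 2 := by
      intro s hs1 hs2
      have h1 := xi_le (s := s) (by rw [hs1]; linarith)
      have h2 := hM s.re ⟨by rw [hs1]; linarith, by rw [hs1]; linarith⟩
      have h3 : ‖s‖ + 1 ≤ (2 + |x|) * (1 + ‖w‖) := by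
        have := abs_nonneg x
        have := norm_nonneg w
        nlinarith
      have h4 : (‖s‖ + 1) ^ 2 ≤ ((2 + |x|) * (1 + ‖w‖)) ^ 2 :=
        pow_le_pow_left₀ (by positivity) h3 2
      calc ‖xi s‖ ≤ 3 * (‖s‖ + 1) ^ 2 * Real.Gamma (1 + s.re / 2) := h1
        _ ≤ 3 * ((2 + |x|) * (1 + ‖w‖)) ^ 2 * M := by
            apply mul_le_mul _ h2 _ (by positivity)
            · linarith
            · exact (Real.Gamma_pos_of_pos (by rw [hs1]; linarith)).le
        _ = _ := by ring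
    unfold G
    rw [norm_mul]
    have a1 := hb (1 / 2 + w + x * I) (by simp) (by
      have n1 := norm_add_le (1 / 2 + w) ((x : ℂ) * I)
      have n2 := norm_add_le (1 / 2 : ℂ) w
      have n3 : ‖(x : ℂ) * I‖ = |x| := by simp
      have n4 : ‖(1 / 2 : ℂ)‖ = 1 / 2 := by norm_num
      linarith)
    have a2 := hb (1 / 2 + w - x * I) (by simp) (by
      have n1 := norm_sub_le (1 / 2 + w) ((x : ℂ) * I)
      have n2 := norm_add_le (1 / 2 : ℂ) w
      have n3 : ‖(x : ℂ) * I‖ = |x| := by simp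
      have n4 : ‖(1 / 2 : ℂ)‖ = 1 / 2 := by norm_num
      linarith)
    calc _ ≤ (3 * (2 + |x|) ^ 2 * M * (1 + ‖w‖) ^ 2) * (3 * (2 + |x|) ^ 2 * M * (1 + ‖w‖) ^ 2) :=
          mul_le_mul a1 a2 (norm_nonneg _) (by positivity)
      _ = _ := by ring
  intro w hw
  rw [abs_le] at hw
  rcases le_or_gt 0 w.re with h0 | h0
  · exact key w h0 hw.2
  · have := key (-w) (by simp; linarith) (by simp; linarith)
    rwa [G_even, norm_neg] at this

end Pool.Agent.Helper85.LG
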