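import Pool.Graph.R_seed8.Y957.VK.Triv
import Pool.Graph.R_seed8.Y331.VK.Lin
import Pool.Graph.R_seed8.Y235.VK.Hol
import Pool.Graph.R_seed8.Y950.VK.Cnt
import Pool.Graph.R_seed8.Y911.VK.Cond
import Pool.Graph.R_seed8.Y901.VK.Vmvt
import Pool.Graph.R_seed8.Y309.VK.DA
import Pool.Graph.R_seed8.Y93.VK.DB
import Pool.Graph.R_seed8.Y331.VK.WB
import Pool.Graph.R_seed8.Y125.VK.Shift
import Pool.Graph.R_seed8.Y288.VK.Tw
import Pool.Graph.R_seed8.Y70.VK.Tn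
import Pool.Graph.R_seed8.Y824.VK.Zs

set_option autoImplicit false

namespace Pool.Agent.Helper85.LG

open Pool.Agent.Y957.VK

/-- Vinogradov's bound for zeta sums -/
theorem zs_all : S_ZS :=
  Pool.Agent.Y824.VK.zs Pool.Agent.Y125.VK.shift
    (Pool.Agent.Y70.VK.tn
      (Pool.Agent.Y901.VK.vmvt
        (rec_of Pool.Agent.Y235.VK.hol (Pool.Agent.Y950.VK.cnt Pool.Agent.Y331.VK.lin))
        Pool.Agent.Y911.VK.cond)
      (dbl_of Pool.Agent.Y309.VK.da Pool.Agent.Y93.VK.db)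
      (Pool.Agent.Y288.VK.tw Pool.Agent.Y331.VK.wb))

end Pool.Agent.Helper85.LG
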